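import Pool.Agent.H66.GG.Cut

/-!
A halving line both of whose sides have small cutwidth (helper66, for MP_b5bf4a_co).
-/

namespace Pool.Agent.H66.GG

open Finset

variable {V : Type*} [Fintype V] [DecidableEq V]

lemma IsSplit.compl {x y : V → ℝ} {S : Finset V} (h : IsSplit x y S) : IsSplit x y Sᶜ := by
  obtain ⟨α, β, γ, h⟩ := h
  refine ⟨-α, -β, -γ, fun v => ⟨fun hv => ?_, fun hv => ?_⟩⟩
  · have := (h v).2 (by simpa using hv)
    linarith
  · have := (h v).1 (by simpa using hv)
    linarith

/-- two sets sharing at most one vertex are not both of large width -/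
lemma not_both_over {r : V → V → Prop} (hr : Symmetric r) (hirr : ∀ v, ¬ r v v) {κ : ℕ}
    {x y : V → ℝ} (G : GenPos x y) (hK : ∀ S, IsSplit x y S → cut r S ≤ 2 * κ + 1)
    {X Y : Finset V} (hXY : ∀ u v, u ∈ X → u ∈ Y → v ∈ X → v ∈ Y → u = v)
    (hX : ¬ Wid (cut (rst r X)) κ) (hY : ¬ Wid (cut (rst r Y)) κ) : False := by
  obtain ⟨S, hS, h1, h2⟩ := line_theorem (symSub_cut _ (rst_symm hr X))
    (symSub_cut _ (rst_symm hr Y)) hX hY G
  have := cut_add_le r hirr hXY S
  have := hK S hS
  omega

theorem balanced {r : V → V → Prop} (hr : Symmetric r) (hirr : ∀ v, ¬ r v v) {κ : ℕ}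
    {x y : V → ℝ} (G : GenPos x y) (hK : ∀ S, IsSplit x y S → cut r S ≤ 2 * κ + 1) :
    ∃ A, IsSplit x y A ∧ A.card = Fintype.card V / 2 ∧ Wid (cut (rst r A)) κ ∧
      Wid (cut (rst r Aᶜ)) κ := by
  classical
  by_contra hcon
  push Not at hcon
  set n := Fintype.card V with hn
  set a := n / 2 with ha
  have hcc : ∀ A : Finset V, Aᶜ.card = n - A.card := fun A => by rw [Finset.card_compl]
  have hle : ∀ A : Finset V, A.card ≤ n := fun A => Finset.card_le_univ A
  have hNB : ∀ X Y : Finset V, (∀ u v, u ∈ X → u ∈ Y → v ∈ X → v ∈ Y → u = v) →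
      ¬ Wid (cut (rst r X)) κ → ¬ Wid (cut (rst r Y)) κ → False :=
    fun X Y h1 h2 h3 => not_both_over hr hirr G hK h1 h2 h3
  have hmono : ∀ X Y : Finset V, X ⊆ Y → ¬ Wid (cut (rst r X)) κ → ¬ Wid (cut (rst r Y)) κ :=
    fun X Y h h1 h2 => h1 (Wid.mono_fun (fun S => cut_rst_mono r h S) h2)
  -- in the middle exactly one side is over
  have hmid : ∀ A, IsSplit x y A → (A.card = a ∨ A.card = n - a) →
      ((¬ Wid (cut (rst r Aᶜ)) κ) ↔ ¬ ¬ Wid (cut (rst r A)) κ) := by
    intro A hA hc
    constructor
    · intro h1 h2
      exact hNB A Aᶜ (fun u v h _ _ _ => by simp_all) h2 h1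
    · intro h1 h2
      rw [not_not] at h1
      rcases hc with hc | hc
      · exact hcon A hA hc h1 h2
      · refine hcon Aᶜ hA.compl ?_ h2 (by rw [compl_compl]; exact h1)
        rw [hcc]; omega
  set lab : Finset V → Bool × Bool := fun A =>
    if A.card = a ∨ A.card = n - a then (true, decide (¬ Wid (cut (rst r A)) κ))
    else (false, decide (a < A.card)) with hlab
  have lt : ∀ A : Finset V, (A.card = a ∨ A.card = n - a) →
      lab A = (true, decide (¬ Wid (cut (rst r A)) κ)) := fun A h => by
    simp only [hlab]; rw [if_pos h]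
  have lf : ∀ A : Finset V, ¬ (A.card = a ∨ A.card = n - a) → lab A = (false, decide (a < A.card)) :=
    fun A h => by simp only [hlab]; rw [if_neg h]
  refine stokes (lab := lab) ⟨?_, ?_, ?_⟩ G
  · intro A hA
    have := hle A
    by_cases h : A.card = a ∨ A.card = n - a
    · have h' : Aᶜ.card = a ∨ Aᶜ.card = n - a := by rw [hcc]; omega
      rw [lt A h, lt _ h']
      have := hmid A hA h
      by_cases k : Wid (cut (rst r A)) κ
      · have k' : ¬ Wid (cut (rst r Aᶜ)) κ := this.2 (not_not.2 k)
        simp [k, k']
      · have k' : Wid (cut (rst r Aᶜ)) κ := by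
          by_contra k''
          exact this.1 k'' k
        simp [k, k']
    · have h' : ¬ (Aᶜ.card = a ∨ Aᶜ.card = n - a) := by rw [hcc]; omega
      rw [lf A h, lf _ h', hcc]
      have : decide (a < n - A.card) = !decide (a < A.card) := by
        by_cases k : a < A.card
        · have k' : ¬ a < n - A.card := by omega
          simp [k, k']
        · have k' : a < n - A.card := by omega
          simp [k, k']
      rw [this]
  · intro A v hv hA hB h
    have hc : (insert v A).card = A.card + 1 := Finset.card_insert_of_notMem hv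
    have := hle (insert v A)
    by_cases k : A.card = a ∨ A.card = n - a
    · by_cases k' : (insert v A).card = a ∨ (insert v A).card = n - a
      · rw [lt A k, lt _ k']
        have hsub : A ⊆ insert v A := Finset.subset_insert _ _
        have : (¬ Wid (cut (rst r A)) κ) ↔ ¬ Wid (cut (rst r (insert v A))) κ := by
          constructor
          · exact hmono _ _ hsub
          · intro h1 h2
            have h3 := (hmid A hA k).2 (not_not.2 h2)
            refine hNB _ _ ?_ h1 h3
            intro u w hu hu' hw hw'
            rw [mem_compl] at hu' hw'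
            rw [mem_insert] at hu hw
            rw [hu.resolve_right hu', hw.resolve_right hw']
        simp [this]
      · rw [lt A k, lf _ k'] at h
        simp at h
    · by_cases k' : (insert v A).card = a ∨ (insert v A).card = n - a
      · rw [lf A k, lt _ k'] at h
        simp at h
      · rw [lf A k, lf _ k', hc]
        have : (a < A.card) ↔ (a < A.card + 1) := by omega
        simp [this]
  · intro Y v w hv hw hvw hY hYv hYw hYvw k1 k2 k3
    have hvw' : v ∉ insert w Y := by simp [hvw, hv]
    have c1 : (insert v Y).card = Y.card + 1 := Finset.card_insert_of_notMem hv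
    have c2 : (insert w Y).card = Y.card + 1 := Finset.card_insert_of_notMem hw
    have c3 : (insert v (insert w Y)).card = Y.card + 2 := by
      rw [Finset.card_insert_of_notMem hvw', c2]
    have := hle (insert v (insert w Y))
    left
    by_cases k : (insert v Y).card = a ∨ (insert v Y).card = n - a
    · have k' : (insert w Y).card = a ∨ (insert w Y).card = n - a := by omega
      rw [lt _ k, lt _ k']
      -- symmetric claim
      have claim : ∀ v w : V, v ∉ Y → w ∉ Y → v ≠ w → IsSplit x y (insert v Y) →
          IsSplit x y (insert w Y) →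
          ((insert w Y).card = a ∨ (insert w Y).card = n - a) →
          (¬ Wid (cut (rst r (insert v Y))) κ) → ¬ Wid (cut (rst r (insert w Y))) κ := by
        intro v w hv hw hvw s1 s2 kk h1 h2
        have h3 := (hmid _ s2 kk).2 (not_not.2 h2)
        refine hNB _ _ ?_ h1 h3
        intro p q hp hp' hq hq'
        rw [mem_compl, mem_insert, not_or] at hp' hq'
        rw [mem_insert] at hp hq
        rw [hp.resolve_right hp'.2, hq.resolve_right hq'.2]
      have : (¬ Wid (cut (rst r (insert v Y))) κ) ↔ ¬ Wid (cut (rst r (insert w Y))) κ :=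
        ⟨claim v w hv hw hvw hYv hYw k', claim w v hw hv hvw.symm hYw hYv k⟩
      simp [this]
    · have k' : ¬ ((insert w Y).card = a ∨ (insert w Y).card = n - a) := by omega
      rw [lf _ k, lf _ k', c1, c2]

end Pool.Agent.H66.GG
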