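import Pool.Agent.H66.GG.LineThm

/-!
Cut functions of relations and the block bound (helper66, for MP_b5bf4a_co).
-/

namespace Pool.Agent.H66.GG

open Finset

variable {V : Type*} [Fintype V] [DecidableEq V]

open Classical in
/-- number of (ordered) `r`-pairs leaving `S` -/
noncomputable def cut (r : V → V → Prop) (S : Finset V) : ℕ :=
  (univ.filter (fun p : V × V => r p.1 p.2 ∧ p.1 ∈ S ∧ p.2 ∉ S)).card

open Classical in
/-- number of ordered `r`-pairs inside `A` -/
noncomputable def e2 (r : V → V → Prop) (A : Finset V) : ℕ :=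
  (univ.filter (fun p : V × V => r p.1 p.2 ∧ p.1 ∈ A ∧ p.2 ∈ A)).card

/-- restriction of a relation to a set -/
def rst (r : V → V → Prop) (A : Finset V) : V → V → Prop := fun u v => r u v ∧ u ∈ A ∧ v ∈ A

lemma cut_eq_sum (r : V → V → Prop) [DecidableRel r] (S : Finset V) :
    cut r S = ∑ p : V × V, if r p.1 p.2 ∧ p.1 ∈ S ∧ p.2 ∉ S then 1 else 0 := by
  classical
  unfold cut
  rw [Finset.card_filter]
  apply Finset.sum_congr rfl
  intro p _
  congr

lemma symSub_cut (r : V → V → Prop) (hr : Symmetric r) : SymSub (cut r) := by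
  classical
  constructor
  · intro A
    unfold cut
    refine Finset.card_bij' (fun p _ => (p.2, p.1)) (fun p _ => (p.2, p.1)) ?_ ?_ ?_ ?_
    · intro p hp
      simp only [mem_filter, mem_univ, true_and, mem_compl, not_not] at hp ⊢
      exact ⟨hr hp.1, hp.2.2, hp.2.1⟩
    · intro p hp
      simp only [mem_filter, mem_univ, true_and, mem_compl, not_not] at hp ⊢
      exact ⟨hr hp.1, hp.2.2, hp.2.1⟩
    · intro p _; rfl
    · intro p _; rfl
  · intro A B
    rw [cut_eq_sum, cut_eq_sum, cut_eq_sum, cut_eq_sum, ← Finset.sum_add_distrib,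
      ← Finset.sum_add_distrib]
    apply Finset.sum_le_sum
    intro p _
    simp only [mem_inter, mem_union]
    by_cases h0 : r p.1 p.2 <;> by_cases h1 : p.1 ∈ A <;> by_cases h2 : p.1 ∈ B <;>
      by_cases h3 : p.2 ∈ A <;> by_cases h4 : p.2 ∈ B <;> simp [h0, h1, h2, h3, h4]

lemma rst_symm {r : V → V → Prop} (hr : Symmetric r) (A : Finset V) : Symmetric (rst r A) :=
  fun _ _ h => ⟨hr h.1, h.2.2, h.2.1⟩

lemma cut_mono {r r' : V → V → Prop} (h : ∀ u v, r u v → r' u v) (S : Finset V) :
    cut r S ≤ cut r' S := by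
  classical
  unfold cut
  apply Finset.card_le_card
  intro p hp
  simp only [mem_filter, mem_univ, true_and] at hp ⊢
  exact ⟨h _ _ hp.1, hp.2⟩

lemma cut_rst_mono (r : V → V → Prop) {A B : Finset V} (h : A ⊆ B) (S : Finset V) :
    cut (rst r A) S ≤ cut (rst r B) S :=
  cut_mono (fun _ _ k => ⟨k.1, h k.2.1, h k.2.2⟩) S

lemma cut_rst_le (r : V → V → Prop) (A : Finset V) (S : Finset V) :
    cut (rst r A) S ≤ cut r S := cut_mono (fun _ _ k => k.1) S

lemma Wid.mono_fun {f g : Finset V → ℕ} {a : ℕ} (h : ∀ S, f S ≤ g S) (hg : Wid g a) : Wid f a := by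
  obtain ⟨l, h1, h2, h3⟩ := hg
  exact ⟨l, h1, h2, fun k => (h _).trans (h3 k)⟩

/-- two relations living on sets that share at most one vertex -/
lemma cut_add_le (r : V → V → Prop) (hirr : ∀ v, ¬ r v v) {X Y : Finset V}
    (hXY : ∀ u v, u ∈ X → u ∈ Y → v ∈ X → v ∈ Y → u = v) (S : Finset V) :
    cut (rst r X) S + cut (rst r Y) S ≤ cut r S := by
  classical
  rw [cut_eq_sum, cut_eq_sum, cut_eq_sum, ← Finset.sum_add_distrib]
  apply Finset.sum_le_sum
  intro p _
  unfold rst
  by_cases h0 : r p.1 p.2
  · by_cases hX : p.1 ∈ X ∧ p.2 ∈ X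
    · by_cases hY : p.1 ∈ Y ∧ p.2 ∈ Y
      · exfalso
        have := hXY p.1 p.2 hX.1 hY.1 hX.2 hY.2
        rw [this] at h0
        exact hirr _ h0
      · have hY' : ¬ ((r p.1 p.2 ∧ p.1 ∈ Y ∧ p.2 ∈ Y) ∧ p.1 ∈ S ∧ p.2 ∉ S) := fun h => hY h.1.2
        rw [if_neg hY']
        split_ifs with h1 h2 <;> first | omega | (exact absurd ⟨h0, h1.2⟩ h2)
    · have hX' : ¬ ((r p.1 p.2 ∧ p.1 ∈ X ∧ p.2 ∈ X) ∧ p.1 ∈ S ∧ p.2 ∉ S) := fun h => hX h.1.2
      rw [if_neg hX']
      split_ifs with h1 h2 <;> first | omega | (exact absurd ⟨h0, h1.2⟩ h2)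
  · simp [h0]

/-- decomposition of the edges of `A` along a set `P` -/
lemma e2_split (r : V → V → Prop) (hr : Symmetric r) (A P : Finset V) :
    e2 r A = e2 r (A ∩ P) + e2 r (A \ P) + 2 * cut (rst r A) P := by
  classical
  have hcut : cut (rst r A) P = cut (rst r A) Pᶜ := ((symSub_cut _ (rst_symm hr A)).sym P).symm
  have : 2 * cut (rst r A) P = cut (rst r A) P + cut (rst r A) Pᶜ := by omega
  rw [this]
  unfold e2 cut rst
  rw [Finset.card_filter, Finset.card_filter, Finset.card_filter, Finset.card_filter,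
    Finset.card_filter, ← Finset.sum_add_distrib, ← Finset.sum_add_distrib,
    ← Finset.sum_add_distrib]
  apply Finset.sum_congr rfl
  intro p _
  simp only [mem_inter, mem_sdiff, mem_compl, not_not]
  by_cases h0 : r p.1 p.2 <;> by_cases h1 : p.1 ∈ A <;> by_cases h2 : p.2 ∈ A <;>
    by_cases h3 : p.1 ∈ P <;> by_cases h4 : p.2 ∈ P <;> simp [h0, h1, h2, h3, h4]

lemma e2_le (r : V → V → Prop) (hirr : ∀ v, ¬ r v v) (A : Finset V) :
    e2 r A ≤ A.card * (A.card - 1) := by
  classical
  unfold e2
  have : A.card * (A.card - 1) = A.offDiag.card := by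
    rw [Finset.offDiag_card, Nat.mul_sub_one]
  rw [this]
  apply Finset.card_le_card
  intro p hp
  simp only [mem_filter, mem_univ, true_and] at hp
  rw [mem_offDiag]
  refine ⟨hp.2.1, hp.2.2, ?_⟩
  intro h
  rw [h] at hp
  exact hirr _ hp.1

omit [Fintype V] in
/-- some prefix contains exactly `m` elements of `A` -/
lemma exists_prefix (A : Finset V) (l : List V) (hl : ∀ v, v ∈ l) (m : ℕ) (hm : m ≤ A.card) :
    ∃ k, (A ∩ (l.take k).toFinset).card = m := by
  classical
  have h0 : (A ∩ (l.take 0).toFinset).card ≤ m := by simp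
  have h1 : m ≤ (A ∩ (l.take l.length).toFinset).card := by
    rw [List.take_length]
    have : A ∩ l.toFinset = A := by
      apply Finset.inter_eq_left.2
      intro v _; simp [hl v]
    rw [this]; exact hm
  -- smallest k with m ≤ ...
  have hex : ∃ k, m ≤ (A ∩ (l.take k).toFinset).card := ⟨_, h1⟩
  refine ⟨Nat.find hex, le_antisymm ?_ (Nat.find_spec hex)⟩
  rcases Nat.eq_zero_or_pos (Nat.find hex) with h | h
  · rw [h]; exact h0
  · have hlt := Nat.find_min hex (Nat.sub_lt h one_pos)
    set k := Nat.find hex - 1 with hk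
    have hk' : Nat.find hex = k + 1 := by omega
    rw [hk']
    have hsub : A ∩ (l.take (k + 1)).toFinset ⊆
        (A ∩ (l.take k).toFinset) ∪ (l[k]?.toList).toFinset := by
      intro v hv
      rw [mem_inter, List.mem_toFinset] at hv
      rw [List.take_add_one, List.mem_append] at hv
      rw [mem_union, mem_inter, List.mem_toFinset, List.mem_toFinset]
      tauto
    have hc := Finset.card_le_card hsub
    have hc2 := Finset.card_union_le (A ∩ (l.take k).toFinset) ((l[k]?.toList).toFinset)
    have hc3 : ((l[k]?.toList).toFinset).card ≤ 1 := by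
      cases l[k]? <;> simp
    omega

/-- **Block bound.** -/
lemma block_bound (r : V → V → Prop) (hr : Symmetric r) (hirr : ∀ v, ¬ r v v) {κ : ℕ} :
    ∀ (ms : List ℕ) (A : Finset V), ms ≠ [] → ms.sum = A.card → Wid (cut (rst r A)) κ →
      e2 r A + 2 * κ ≤ 2 * ms.length * κ + (ms.map (fun m => m * (m - 1))).sum := by
  classical
  intro ms
  induction ms with
  | nil => intro A h; exact absurd rfl h
  | cons m ms ih =>
    intro A _ hsum hw
    rcases eq_or_ne ms [] with h | h
    · subst h
      simp only [List.sum_cons, List.sum_nil, add_zero] at hsum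
      have := e2_le r hirr A
      rw [← hsum] at this
      simp only [List.length_cons, List.length_nil, zero_add, mul_one, List.map_cons,
        List.map_nil, List.sum_cons, List.sum_nil, add_zero]
      omega
    · obtain ⟨l, l1, l2, l3⟩ := hw
      rw [List.sum_cons] at hsum
      obtain ⟨k, hk⟩ := exists_prefix A l l2 m (by omega)
      set P := (l.take k).toFinset with hP
      have e1 := e2_split r hr A P
      have c1 : cut (rst r A) P ≤ κ := l3 k
      have hsub : A \ P ⊆ A := Finset.sdiff_subset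
      have hcard : (A \ P).card = ms.sum := by
        have := Finset.card_inter_add_card_sdiff A P
        omega
      have hw' : Wid (cut (rst r (A \ P))) κ :=
        Wid.mono_fun (fun S => cut_rst_mono r hsub S) ⟨l, l1, l2, l3⟩
      have e3 := ih (A \ P) h hcard.symm hw'
      have e4 := e2_le r hirr (A ∩ P)
      rw [hk] at e4
      rw [List.length_cons, List.map_cons, List.sum_cons]
      have : 2 * (ms.length + 1) * κ = 2 * ms.length * κ + 2 * κ := by ring
      rw [this]
      omega

/-- equal blocks: `a` vertices cut into `j` blocks of sizes `q` and `q+1`. -/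
lemma block_bound' (r : V → V → Prop) (hr : Symmetric r) (hirr : ∀ v, ¬ r v v) {κ : ℕ}
    (A : Finset V) (j q t : ℕ) (hj : 1 ≤ j) (ht : t ≤ j) (hA : A.card = j * q + t)
    (hw : Wid (cut (rst r A)) κ) :
    e2 r A + 2 * κ ≤ 2 * j * κ + j * (q * (q - 1)) + t * (2 * q) := by
  have h := block_bound r hr hirr (κ := κ)
    (List.replicate t (q + 1) ++ List.replicate (j - t) q) A (by
      intro h
      rw [List.append_eq_nil_iff, List.replicate_eq_nil_iff, List.replicate_eq_nil_iff] at h
      omega)
    (by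
      rw [List.sum_append, List.sum_replicate, List.sum_replicate, hA, smul_eq_mul, smul_eq_mul]
      obtain ⟨d, rfl⟩ := Nat.exists_eq_add_of_le ht
      rw [Nat.add_sub_cancel_left]
      ring) hw
  rw [List.length_append, List.length_replicate, List.length_replicate, List.map_append,
    List.map_replicate, List.map_replicate, List.sum_append, List.sum_replicate,
    List.sum_replicate, smul_eq_mul, smul_eq_mul] at h
  obtain ⟨d, rfl⟩ := Nat.exists_eq_add_of_le ht
  rw [Nat.add_sub_cancel_left, Nat.add_sub_cancel] at h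
  have e1 : t * ((q + 1) * q) = t * (q * (q - 1)) + t * (2 * q) := by
    rcases q with _ | q
    · simp
    · rw [Nat.add_sub_cancel]; ring
  have e2 : (t + d) * (q * (q - 1)) = t * (q * (q - 1)) + d * (q * (q - 1)) := by ring
  rw [e2]
  rw [e1] at h
  omega

end Pool.Agent.H66.GG
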