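import Pool.Agent.H66.GG.Low

/-!
The lower bound and the exact values (helper66, for MP_b5bf4a_co).
-/

namespace Pool.Agent.H66.GG

open Finset

lemma exists_starts {n D u : ℕ} (hD : 1 ≤ D) (hu : u < D)
    (h : 2 * D + 1 ≤ n ∨ (n = 2 * D ∧ 2 * u < D)) :
    ∃ S : Finset ℕ, (∀ s ∈ S, s < n) ∧ (n = 2 * D → ∀ s ∈ S, s < D) ∧ S.card = n * u / D ∧
      ∀ a b, a ≤ b → b ≤ n → ∀ T : Finset ℕ, T ⊆ S → (∀ s ∈ T, Crs n a b s D) →
        T.card ≤ 2 * u := by
  classical
  rcases h with h | ⟨h, h'⟩
  · refine ⟨stur n D u, ?_, by omega, ?_, ?_⟩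
    · intro s hs
      unfold stur at hs
      rw [mem_filter, mem_range] at hs
      exact hs.1
    · have := stur_card (n := n) (by omega : 0 < D) hu.le 0 n (Nat.zero_le _)
      rw [Nat.zero_mul, Nat.zero_div, Nat.sub_zero] at this
      rw [← this]
      unfold stur
      rw [Finset.range_eq_Ico]
    · intro a b hab hb T hT hc
      refine le_trans (Finset.card_le_card ?_) (stur_cross (n := n) (by omega : 0 < D) hu.le
        (by omega) a b hab hb)
      intro s hs
      have h1 := hT hs
      unfold stur at h1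
      rw [mem_filter, mem_range] at h1
      rw [mem_filter]
      exact ⟨crs_mem hab hb h1.1 (by omega) (hc s hs), h1.2⟩
  · refine ⟨range (2 * u), ?_, ?_, ?_, ?_⟩
    · intro s hs; rw [mem_range] at hs; omega
    · intro _ s hs; rw [mem_range] at hs; omega
    · rw [Finset.card_range, h]
      have : 2 * D * u = 2 * u * D := by ring
      rw [this, Nat.mul_div_cancel _ (by omega)]
    · intro a b hab hb T hT _
      have := Finset.card_le_card hT
      rw [Finset.card_range] at this
      exact this

/-- **Lower bound construction.** -/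
theorem lower {n D u ε : ℕ} (hD : 1 ≤ D) (hu : u < D) (hε : ε ≤ 1)
    (h : 2 * D + 1 ≤ n ∨ (n = 2 * D ∧ 2 * u < D)) :
    ∃ p : Fin n → ℝ × ℝ, GenPosition p ∧ ∃ G : SimpleGraph (Fin n),
      G.edgeSet.ncard = (D - 1) * n + n * u / D + ε ∧
      ∀ L, IsLine L → (Met L p G).ncard ≤ D * (D - 1) + 2 * u + ε := by
  classical
  obtain ⟨S, hS1, hS2, hS3, hS4⟩ := exists_starts hD hu h
  have hn : 0 < n := by omega
  have h2D : 2 * D ≤ n := by omega
  have hinj := em_injOn hn hD h2D S hS1 hS2
  set E0 : Finset (Sym2 (Fin n)) := (arcs n D S).image (em hn) with hE0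
  have hcard0 : E0.card = (D - 1) * n + n * u / D := by
    rw [hE0, Finset.card_image_of_injOn hinj, arcs_card hD, hS3]
  have harc : ∀ q ∈ arcs n D S, q.1 < n ∧ 1 ≤ q.2 ∧ q.2 ≤ D := by
    intro q hq
    unfold arcs at hq
    rw [mem_union, mem_product, mem_product, mem_range, mem_Icc, mem_singleton] at hq
    rcases hq with ⟨h1, h2, h3⟩ | ⟨h1, h2⟩
    · exact ⟨h1, h2, by omega⟩
    · exact ⟨hS1 _ h1, by omega, by omega⟩
  have hdiag0 : ∀ e ∈ E0, ¬ e.IsDiag := by
    intro e he
    rw [hE0, mem_image] at he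
    obtain ⟨q, hq, rfl⟩ := he
    obtain ⟨a1, a2, a3⟩ := harc q hq
    exact em_not_diag hn a1 a2 (by omega)
  -- an extra edge
  obtain ⟨X, hX1, hX2, hX3⟩ : ∃ X : Finset (Sym2 (Fin n)), X.card = ε ∧ Disjoint X E0 ∧
      ∀ e ∈ X, ¬ e.IsDiag := by
    rcases Nat.eq_zero_or_pos ε with h0 | h0
    · exact ⟨∅, by simp [h0], by simp, by simp⟩
    · have hε1 : ε = 1 := by omega
      have hlt : E0.card < (⊤ : SimpleGraph (Fin n)).edgeFinset.card := by
        rw [SimpleGraph.card_edgeFinset_top_eq_card_choose_two, Fintype.card_fin, hcard0,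
          Nat.choose_two_right, Nat.lt_iff_add_one_le, Nat.le_div_iff_mul_le (by norm_num)]
        have hdiv : n * u / D * D ≤ n * u := Nat.div_mul_le_self _ _
        rcases h with h | ⟨h, h'⟩
        · have h1 : n * u / D + 1 ≤ n := by
            by_contra hcon
            have hcon : n ≤ n * u / D := by omega
            have k1 : n * D ≤ n * u := (Nat.mul_le_mul_right D hcon).trans hdiv
            have k2 : n * u < n * D := Nat.mul_lt_mul_of_pos_left hu hn
            omega
          obtain ⟨d, rfl⟩ : ∃ d, D = d + 1 := ⟨D - 1, by omega⟩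
          rw [Nat.add_sub_cancel]
          have k3 : (d * n + n * u / (d + 1) + 1) ≤ (d + 1) * n := by
            rw [Nat.add_mul, one_mul]; omega
          calc (d * n + n * u / (d + 1) + 1) * 2 ≤ (d + 1) * n * 2 := Nat.mul_le_mul_right _ k3
            _ = n * (2 * (d + 1)) := by ring
            _ ≤ n * (n - 1) := Nat.mul_le_mul_left _ (by omega)
        · have e1 : n * u / D = 2 * u := by
            rw [h]
            have : 2 * D * u = 2 * u * D := by ring
            rw [this, Nat.mul_div_cancel _ (by omega)]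
          rw [e1, h]
          obtain ⟨d, rfl⟩ : ∃ d, D = d + 1 := ⟨D - 1, by omega⟩
          rw [Nat.add_sub_cancel]
          have : 2 * (d + 1) - 1 = 2 * d + 1 := by omega
          rw [this]
          nlinarith
      obtain ⟨e, he, he'⟩ := Finset.exists_mem_notMem_of_card_lt_card hlt
      refine ⟨{e}, by simp [hε1], by simpa using he', ?_⟩
      intro e' h1
      rw [mem_singleton] at h1
      rw [h1]
      rw [SimpleGraph.mem_edgeFinset] at he
      exact SimpleGraph.not_isDiag_of_mem_edgeSet _ he
  set E : Finset (Sym2 (Fin n)) := X ∪ E0 with hE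
  have hEd : ∀ e ∈ E, ¬ e.IsDiag := by
    intro e h
    rw [hE, mem_union] at h
    rcases h with h | h
    · exact hX3 e h
    · exact hdiag0 e h
  have hes : (SimpleGraph.fromEdgeSet (E : Set (Sym2 (Fin n)))).edgeSet =
      (E : Set (Sym2 (Fin n))) := by
    rw [SimpleGraph.edgeSet_fromEdgeSet]
    ext e
    rw [Set.mem_diff, Sym2.mem_diagSet, mem_coe]
    exact ⟨fun h => h.1, fun h => ⟨h, hEd e h⟩⟩
  refine ⟨par n, par_genPosition n, SimpleGraph.fromEdgeSet (E : Set (Sym2 (Fin n))), ?_, ?_⟩
  · rw [hes, Set.ncard_coe_finset, hE, Finset.card_union_of_disjoint hX2, hX1, hcard0]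
    omega
  · intro L hL
    obtain ⟨a, b, hab, hb, hcr⟩ := met_interval (n := n) hL
    have hsub : Met L (par n) (SimpleGraph.fromEdgeSet (E : Set (Sym2 (Fin n)))) ⊆
        ((X ∪ ((arcs n D S).filter (fun q => Crs n a b q.1 q.2)).image (em hn) :
          Finset (Sym2 (Fin n))) : Set _) := by
      rintro e ⟨he, i, j, hij, hne⟩
      rw [hes, mem_coe] at he
      have hnd : i ≠ j := by
        intro h
        apply hEd e he
        rw [hij, h]
        exact Sym2.mk_isDiag_iff.2 rfl
      have hc := hcr i j hnd hne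
      rw [hE, mem_union] at he
      rw [mem_coe, mem_union]
      rcases he with h1 | h1
      · exact Or.inl h1
      · right
        rw [hE0, mem_image] at h1
        obtain ⟨q, hq, hqe⟩ := h1
        obtain ⟨a1, a2, a3⟩ := harc q hq
        rw [mem_image]
        refine ⟨q, ?_, hqe⟩
        rw [mem_filter]
        refine ⟨hq, ?_⟩
        rw [hij] at hqe
        unfold em at hqe
        rw [Sym2.eq_iff] at hqe
        unfold Crs
        rcases hqe with ⟨k1, k2⟩ | ⟨k1, k2⟩
        · have k1' := congrArg Fin.val k1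
          have k2' := congrArg Fin.val k2
          simp only [Nat.mod_eq_of_lt a1] at k1'
          simp only at k2'
          rw [k2', k1']
          exact hc
        · have k1' := congrArg Fin.val k1
          have k2' := congrArg Fin.val k2
          simp only [Nat.mod_eq_of_lt a1] at k1'
          simp only at k2'
          rw [k2', k1']
          exact fun h => hc h.symm
    refine (Set.ncard_le_ncard hsub (Set.toFinite _)).trans ?_
    rw [Set.ncard_coe_finset]
    refine (Finset.card_union_le _ _).trans ?_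
    have k1 : (((arcs n D S).filter (fun q => Crs n a b q.1 q.2)).image (em hn)).card ≤
        D * (D - 1) + 2 * u := by
      refine Finset.card_image_le.trans (arcs_cross hD (by omega) S a b hab hb ?_)
      exact hS4 a b hab hb _ (Finset.filter_subset _ _) (fun s hs => by
        rw [mem_filter] at hs; exact hs.2)
    omega

lemma not_forces {n D u ε : ℕ} (hD : 1 ≤ D) (hu : u < D) (hε : ε ≤ 1)
    (h : 2 * D + 1 ≤ n ∨ (n = 2 * D ∧ 2 * u < D)) (e : ℕ)
    (he : e ≤ (D - 1) * n + n * u / D + ε) :
    ¬ Forces n (D * (D - 1) + 2 * u + ε + 1) e := by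
  intro hF
  obtain ⟨p, hp, G, hG, hL⟩ := lower hD hu hε h
  obtain ⟨L, h1, h2⟩ := hF p hp G (by omega)
  have := hL L h1
  omega

end Pool.Agent.H66.GG
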