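import Pool.Agent.H66.GG.Large
import Pool.Agent.H66.GG.Lower

/-!
Final assembly (helper66, for MP_b5bf4a_co).
-/

namespace Pool.Agent.H66.GG

open Finset

/-- the set whose least element is `f(n,k)` -/
def FSet (n k : ℕ) : Set ℕ := {e | e ≤ n.choose 2 ∧ Forces n k e}

lemma choose_ge {n D u ε : ℕ} (hD : 1 ≤ D) (hu : u < D) (hε : ε ≤ 1)
    (h : 2 * D + 1 ≤ n ∨ (n = 2 * D ∧ 2 * u + ε < D)) :
    (D - 1) * n + n * u / D + ε + 1 ≤ n.choose 2 := by
  rw [Nat.choose_two_right, Nat.le_div_iff_mul_le (by norm_num)]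
  obtain ⟨d, rfl⟩ : ∃ d, D = d + 1 := ⟨D - 1, by omega⟩
  rw [Nat.add_sub_cancel]
  rcases h with h | ⟨h, h'⟩
  · have hdiv : n * u / (d + 1) * (d + 1) ≤ n * u := Nat.div_mul_le_self _ _
    have h1 : n * u / (d + 1) + 2 < n := by
      by_contra hcon
      have hcon : n ≤ n * u / (d + 1) + 2 := by omega
      have k1 : n * (d + 1) ≤ n * u + 2 * (d + 1) := by
        calc n * (d + 1) ≤ (n * u / (d + 1) + 2) * (d + 1) := Nat.mul_le_mul_right _ hcon
          _ = n * u / (d + 1) * (d + 1) + 2 * (d + 1) := by ring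
          _ ≤ _ := by omega
      have k2 : n * u ≤ n * d := Nat.mul_le_mul_left _ (by omega)
      have k3 : n * (d + 1) = n * d + n := by ring
      omega
    calc (d * n + n * u / (d + 1) + ε + 1) * 2 ≤ ((d + 1) * n) * 2 := by
          apply Nat.mul_le_mul_right
          have : (d + 1) * n = d * n + n := by ring
          omega
      _ = n * (2 * (d + 1)) := by ring
      _ ≤ n * (n - 1) := Nat.mul_le_mul_left _ (by omega)
  · have e1 : n * u / (d + 1) = 2 * u := by
      rw [h]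
      have : 2 * (d + 1) * u = 2 * u * (d + 1) := by ring
      rw [this, Nat.mul_div_cancel _ (by omega)]
    rw [e1, h]
    have : 2 * (d + 1) - 1 = 2 * d + 1 := by omega
    rw [this]
    nlinarith

/-- lower bound half -/
lemma lower_mem {n D u ε : ℕ} (hD : 1 ≤ D) (hu : u < D) (hε : ε ≤ 1)
    (h : 2 * D + 1 ≤ n ∨ (n = 2 * D ∧ 2 * u < D)) {e : ℕ}
    (he : e ∈ FSet n (D * (D - 1) + 2 * u + ε + 1)) : (D - 1) * n + n * u / D + ε + 1 ≤ e := by
  by_contra hcon
  exact not_forces hD hu hε h e (by omega) he.2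

lemma two_kappa {D : ℕ} : ∃ c, D * (D - 1) = 2 * c := by
  rcases Nat.even_mul_pred_self D with ⟨c, hc⟩
  exact ⟨c, by omega⟩

/-- upper bound for large `n`, odd `k` -/
lemma upper_large {n D u : ℕ} (hD : 2 ≤ D) (hu : u < D) (hn : 100 * D ^ 6 ≤ n) :
    Forces n (D * (D - 1) + 2 * u + 1) ((D - 1) * n + n * u / D + 1) := by
  classical
  obtain ⟨c, hc⟩ := two_kappa (D := D)
  set κ := c + u with hκ
  have h2κ : 2 * κ = D * (D - 1) + 2 * u := by omega
  have hDD : D * 1 ≤ D * (D - 1) := Nat.mul_le_mul_left _ (by omega)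
  have hκ1 : 1 ≤ κ := by omega
  intro p hp G hG
  by_contra hcon
  push Not at hcon
  obtain ⟨x, y, hxy, hsp⟩ := exists_shear p hp
  have hsym : Symmetric G.Adj := fun _ _ h => h.symm
  have hirr : ∀ v, ¬ G.Adj v v := fun v h => h.ne rfl
  have hK : ∀ S, IsSplit x y S → cut G.Adj S ≤ 2 * κ := by
    intro S hS
    rcases Nat.eq_zero_or_pos (cut G.Adj S) with h | h
    · omega
    · obtain ⟨L, hL, h2⟩ := cut_le_met p G S (hsp S hS) h
      have := hcon L hL
      omega
  have hbig : 4 * D * ((2 * κ + 1) * ((8 * κ + 8 * D * D + 3) * D + 1) + 1) ≤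
      Fintype.card (Fin n) := by
    rw [Fintype.card_fin]
    refine le_trans ?_ hn
    -- 2κ ≤ D² + D - 2
    have e0 : D * (D - 1) + D = D * D := by
      obtain ⟨d, rfl⟩ : ∃ d, D = d + 1 := ⟨D - 1, by omega⟩
      rw [Nat.add_sub_cancel]; ring
    have e1 : 2 * κ + 1 ≤ 2 * (D * D) := by
      have : 2 * D ≤ D * D := Nat.mul_le_mul_right _ hD
      omega
    have e2 : 8 * κ + 8 * D * D + 3 ≤ 12 * (D * D) + 4 * D := by
      have : 8 * D * D = 8 * (D * D) := by ring
      omega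
    have e3 : 12 * (D * D) + 4 * D ≤ 14 * (D * D) := by
      have : 2 * D ≤ D * D := Nat.mul_le_mul_right _ hD
      omega
    have e4 : (8 * κ + 8 * D * D + 3) * D + 1 ≤ 14 * (D * D) * D + 1 :=
      Nat.add_le_add_right (Nat.mul_le_mul_right _ (e2.trans e3)) 1
    -- improve the first factor: 2κ+1 ≤ (3/2) D²
    have e5 : 2 * (2 * κ + 1) ≤ 3 * (D * D) := by
      have : 2 * D ≤ D * D := Nat.mul_le_mul_right _ hD
      omega
    have e6 : 2 * ((2 * κ + 1) * ((8 * κ + 8 * D * D + 3) * D + 1)) ≤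
        3 * (D * D) * (14 * (D * D) * D + 1) := by
      calc 2 * ((2 * κ + 1) * ((8 * κ + 8 * D * D + 3) * D + 1)) =
          (2 * (2 * κ + 1)) * ((8 * κ + 8 * D * D + 3) * D + 1) := by ring
        _ ≤ 3 * (D * D) * (14 * (D * D) * D + 1) := Nat.mul_le_mul e5 e4
    have p4 : 1 ≤ D ^ 4 := Nat.one_le_pow _ _ (by omega)
    have h16 : 16 ≤ D ^ 4 := by
      calc 16 = 2 ^ 4 := by norm_num
        _ ≤ D ^ 4 := Nat.pow_le_pow_left hD 4
    calc 4 * D * ((2 * κ + 1) * ((8 * κ + 8 * D * D + 3) * D + 1) + 1) =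
        2 * D * (2 * ((2 * κ + 1) * ((8 * κ + 8 * D * D + 3) * D + 1))) + 4 * D := by ring
      _ ≤ 2 * D * (3 * (D * D) * (14 * (D * D) * D + 1)) + 4 * D :=
          Nat.add_le_add_right (Nat.mul_le_mul_left _ e6) _
      _ = 84 * D ^ 6 + 6 * D ^ 3 + 4 * D := by ring
      _ ≤ 100 * D ^ 6 := by
          have a1 : D ^ 3 ≤ D ^ 6 := Nat.pow_le_pow_right (by omega) (by norm_num)
          have a2 : D ≤ D ^ 6 := by
            calc D = D ^ 1 := (pow_one D).symm
              _ ≤ D ^ 6 := Nat.pow_le_pow_right (by omega) (by norm_num)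
          omega
  have hmain := large hsym hirr (κ := κ) (D := D) hκ1 (by omega) hxy hK hbig
  rw [e2_univ, Fintype.card_fin] at hmain
  have e7 : 2 * κ + D * (D - 1) = 2 * (D * (D - 1) + u) := by omega
  rw [e7] at hmain
  have e8 : D * G.edgeSet.ncard ≤ (D * (D - 1) + u) * n := by
    have : D * (2 * G.edgeSet.ncard) = 2 * (D * G.edgeSet.ncard) := by ring
    rw [this] at hmain
    have : 2 * (D * (D - 1) + u) * n = 2 * ((D * (D - 1) + u) * n) := by ring
    rw [this] at hmain
    omega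
  have e9 : G.edgeSet.ncard ≤ (D - 1) * n + n * u / D := by
    have h1 : G.edgeSet.ncard ≤ (D * (D - 1) + u) * n / D := by
      rw [Nat.le_div_iff_mul_le (by omega), mul_comm]; exact e8
    have h2 : (D * (D - 1) + u) * n = n * u + D * ((D - 1) * n) := by ring
    rw [h2, Nat.add_mul_div_left _ _ (by omega)] at h1
    omega
  omega

/-- **Exact value for all odd `k` and large `n`.** -/
theorem exact_large {n D u : ℕ} (hD : 2 ≤ D) (hu : u < D) (hn : 100 * D ^ 6 ≤ n) :
    IsLeast (FSet n (D * (D - 1) + 2 * u + 1)) ((D - 1) * n + n * u / D + 1) := by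
  have hn2 : 2 * D + 1 ≤ n := by
    have : D ≤ D ^ 6 := by
      calc D = D ^ 1 := (pow_one D).symm
        _ ≤ D ^ 6 := Nat.pow_le_pow_right (by omega) (by norm_num)
    omega
  constructor
  · refine ⟨?_, upper_large hD hu hn⟩
    have := choose_ge (n := n) (D := D) (u := u) (ε := 0) (by omega) hu (by omega) (Or.inl hn2)
    simpa using this
  · intro e he
    have := lower_mem (n := n) (D := D) (u := u) (ε := 0) (by omega) hu (by omega) (Or.inl hn2)
      (e := e) (by simpa using he)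
    simpa using this

lemma Forces.mono {n k e e' : ℕ} (h : Forces n k e) (hee : e ≤ e') : Forces n k e' :=
  fun p hp G hG => h p hp G (hee.trans hG)

/-- upper bounds for all `n ≥ 2D(D-1)` -/
lemma upper_all {D u ε j t : ℕ} (hD : 1 ≤ D) (hu : u < D) (hε : ε ≤ 1) (hj : 1 ≤ j)
    (h : t = 0 ∨ (t < 2 * D ∧ D - 1 ≤ j)) :
    Forces (2 * D * j + t) (D * (D - 1) + 2 * u + ε + 1)
      ((D - 1) * (2 * D * j + t) + 2 * j * u + min t (2 * u) + ε + 1) := by
  obtain ⟨c, hc⟩ := two_kappa (D := D)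
  have hk : D * (D - 1) + 2 * u + ε + 1 = 2 * (c + u) + ε + 1 := by omega
  rw [hk]
  obtain ⟨d, rfl⟩ : ∃ d, D = d + 1 := ⟨D - 1, by omega⟩
  rw [Nat.add_sub_cancel] at *
  -- first upper bound
  have up1 : t ≤ 2 * j → Forces (2 * (d + 1) * j + t) (2 * (c + u) + ε + 1)
      (d * (2 * (d + 1) * j + t) + 2 * j * u + t + ε + 1) := by
    intro ht
    have h1 := upper (2 * (d + 1) * j + t) (c + u) ε j (d + 1) t hε hj ht (by ring)
    refine h1.mono (le_of_eq ?_)
    rw [Nat.add_sub_cancel]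
    have : 2 * j * (c + u) = j * (2 * c) + 2 * j * u := by ring
    rw [this, ← hc]
    ring
  rcases h with h | ⟨h1, h2⟩
  · subst h
    have := up1 (Nat.zero_le _)
    simpa using this
  · rcases Nat.le_total t (2 * u) with h3 | h3
    · rw [min_eq_left h3]
      rcases Nat.lt_or_ge (2 * j) t with h4 | h4
      · exfalso
        omega
      · exact up1 h4
    · rw [min_eq_right h3]
      obtain ⟨t', ht'⟩ : ∃ t', 2 * j + t = 2 * d + t' := ⟨2 * j + t - 2 * d, by omega⟩
      have hh := upper (2 * (d + 1) * j + t) (c + u) ε (j + 1) d t' hε (by omega) (by omega)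
        (by
          have e1 : 2 * (d + 1) * j + t = 2 * d * j + (2 * j + t) := by ring
          rw [e1, ht']; ring)
      refine hh.mono (le_of_eq ?_)
      have e2 : 2 * (j + 1) * (c + u) = (j + 1) * (2 * c) + 2 * j * u + 2 * u := by ring
      rw [e2, ← hc]
      have e3 : (d + 1) * d * (j + 1) + (j + 1) * (d * (d - 1)) + t' * d =
          d * (2 * (d + 1) * j + t) := by
        have e4 : 2 * (d + 1) * j + t = 2 * d * j + (2 * d + t') := by
          rw [← ht']; ring
        rw [e4]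
        rcases d with _ | d
        · simp
        · rw [Nat.add_sub_cancel]; ring
      have e5 : (j + 1) * ((d + 1) * d) = (d + 1) * d * (j + 1) := by ring
      rw [e5]
      omega

/-- the complete graph has a line meeting enough edges -/
lemma full_forces {n D u ε : ℕ} (hD : 1 ≤ D) (hu : u < D) (hε : ε ≤ 1)
    (h : 2 * D + 1 ≤ n ∨ (n = 2 * D ∧ 2 * u + ε < D)) :
    Forces n (D * (D - 1) + 2 * u + ε + 1) (n.choose 2) := by
  obtain ⟨c, hc⟩ := two_kappa (D := D)
  have hk : D * (D - 1) + 2 * u + ε + 1 = 2 * (c + u) + ε + 1 := by omega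
  have h1 := upper n (c + u) ε 1 (n / 2) (n % 2) hε (le_refl _) (by omega) (by omega)
  rw [hk]
  refine h1.mono ?_
  rw [Nat.choose_two_right, Nat.le_div_iff_mul_le (by norm_num)]
  have e0 : D * (D - 1) + D = D * D := by
    obtain ⟨d, rfl⟩ : ∃ d, D = d + 1 := ⟨D - 1, by omega⟩
    rw [Nat.add_sub_cancel]; ring
  have hq : D ≤ n / 2 := by omega
  obtain ⟨q, hq'⟩ : ∃ q, n / 2 = q + 1 := ⟨n / 2 - 1, by omega⟩
  rw [hq', Nat.add_sub_cancel]
  rcases Nat.mod_two_eq_zero_or_one n with h0 | h0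
  · have hn : n = 2 * (q + 1) := by omega
    have hn1 : n - 1 = 2 * q + 1 := by omega
    rw [h0, hn1, hn]
    -- 2κ + ε + 1 ≤ (q+1)^2
    have key : 2 * (c + u) + ε + 1 ≤ (q + 1) * (q + 1) := by
      rcases h with h | ⟨h, h'⟩
      · have : (D + 1) * (D + 1) ≤ (q + 1) * (q + 1) := Nat.mul_le_mul (by omega) (by omega)
        have e1 : (D + 1) * (D + 1) = D * D + 2 * D + 1 := by ring
        omega
      · have : D * D ≤ (q + 1) * (q + 1) := Nat.mul_le_mul (by omega) (by omega)
        omega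
    have e1 : 2 * 1 * (c + u) = 2 * (c + u) := by ring
    rw [e1]
    nlinarith
  · have hn : n = 2 * (q + 1) + 1 := by omega
    have hn1 : n - 1 = 2 * (q + 1) := by omega
    rw [h0, hn1, hn]
    have key : 2 * (c + u) + ε + 1 ≤ (q + 1) * (q + 1) + (q + 1) := by
      have : D * D ≤ (q + 1) * (q + 1) := Nat.mul_le_mul (by omega) (by omega)
      omega
    have e1 : 2 * 1 * (c + u) = 2 * (c + u) := by ring
    rw [e1]
    nlinarith

/-- **Two-sided bounds, exact when `t = 0` or `u = 0`.** -/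
theorem two_sided {D u ε j t : ℕ} (hD : 1 ≤ D) (hu : u < D) (hε : ε ≤ 1) (hj : 1 ≤ j)
    (h : (t = 0 ∧ (2 ≤ j ∨ 2 * u + ε < D)) ∨ (t < 2 * D ∧ D - 1 ≤ j ∧ 2 * D + 1 ≤ 2 * D * j + t)) :
    ∃ v, IsLeast (FSet (2 * D * j + t) (D * (D - 1) + 2 * u + ε + 1)) v ∧
      (D - 1) * (2 * D * j + t) + 2 * j * u + t * u / D + ε + 1 ≤ v ∧
      v ≤ (D - 1) * (2 * D * j + t) + 2 * j * u + min t (2 * u) + ε + 1 := by
  classical
  set n := 2 * D * j + t with hn
  set k := D * (D - 1) + 2 * u + ε + 1 with hk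
  have hdom : 2 * D + 1 ≤ n ∨ (n = 2 * D ∧ 2 * u + ε < D) := by
    rcases h with ⟨h1, h2 | h2⟩ | ⟨_, _, h3⟩
    · left
      have : 2 * D * 2 ≤ 2 * D * j := Nat.mul_le_mul_left _ h2
      omega
    · rcases Nat.lt_or_ge j 2 with h3 | h3
      · right
        have : j = 1 := by omega
        rw [hn, this, h1]
        exact ⟨by ring, h2⟩
      · left
        have : 2 * D * 2 ≤ 2 * D * j := Nat.mul_le_mul_left _ h3
        omega
    · left; exact h3
  have hdom' : 2 * D + 1 ≤ n ∨ (n = 2 * D ∧ 2 * u < D) := by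
    rcases hdom with h | h
    · exact Or.inl h
    · exact Or.inr ⟨h.1, by omega⟩
  have hdiv : n * u / D = 2 * j * u + t * u / D := by
    have : n * u = t * u + D * (2 * j * u) := by rw [hn]; ring
    rw [this, Nat.add_mul_div_left _ _ (by omega)]
    omega
  have hup := upper_all (D := D) (u := u) (ε := ε) (j := j) (t := t) hD hu hε hj (by
    rcases h with ⟨h1, _⟩ | ⟨h1, h2, _⟩
    · exact Or.inl h1
    · exact Or.inr ⟨h1, h2⟩)
  rw [← hn, ← hk] at hup
  have hch := choose_ge hD hu hε hdom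
  -- existence of the least element
  have hmin : ∀ e, Forces n k e → (D - 1) * n + n * u / D + ε + 1 ≤ e := by
    intro e he
    by_contra hcon
    exact not_forces hD hu hε hdom' e (by omega) he
  set e0 := (D - 1) * n + 2 * j * u + min t (2 * u) + ε + 1 with he0
  have hex : ∃ e, Forces n k e := ⟨e0, hup⟩
  -- bounding the least by the number of pairs
  have hfull : Nat.find hex ≤ n.choose 2 := by
    refine (Nat.find_min' hex (full_forces hD hu hε hdom)).trans (le_refl _)
  refine ⟨Nat.find hex, ⟨⟨hfull, Nat.find_spec hex⟩, fun e he => Nat.find_min' hex he.2⟩, ?_,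
    Nat.find_min' hex hup⟩
  have := hmin _ (Nat.find_spec hex)
  rw [hdiv] at this
  omega

end Pool.Agent.H66.GG
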