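import Pool.Agent.H66.GG.LargeOdd
import Pool.Agent.H66.GG.Final

/-!
Final assembly for even `k` and large `n` (helper66, for MP_b5bf4a_co).
-/

namespace Pool.Agent.H66.GG

open Finset

/-- upper bound for large `n`, even `k` -/
lemma upper_large_even {n D u : ℕ} (hD : 2 ≤ D) (hu : u < D) (hn : 100 * D ^ 6 ≤ n) :
    Forces n (D * (D - 1) + 2 * u + 2) ((D - 1) * n + n * u / D + 3) := by
  classical
  obtain ⟨c, hc⟩ := two_kappa (D := D)
  set κ := c + u with hκ
  have h2κ : 2 * κ = D * (D - 1) + 2 * u := by omega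
  have hDD : D * 1 ≤ D * (D - 1) := Nat.mul_le_mul_left _ (by omega)
  have hκ1 : 1 ≤ κ := by omega
  intro p hp G hG
  by_contra hcon
  push Not at hcon
  obtain ⟨x, y, hxy, hsp⟩ := exists_shear p hp
  have hsym : Symmetric G.Adj := fun _ _ h => h.symm
  have hirr : ∀ v, ¬ G.Adj v v := fun v h => h.ne rfl
  have hK : ∀ S, IsSplit x y S → cut G.Adj S ≤ 2 * κ + 1 := by
    intro S hS
    rcases Nat.eq_zero_or_pos (cut G.Adj S) with h | h
    · omega
    · obtain ⟨L, hL, h2⟩ := cut_le_met p G S (hsp S hS) h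
      have := hcon L hL
      omega
  have hbig : 4 * D * ((2 * κ + 2) * ((8 * κ + 8 * D * D + 3) * D + 1) + 1) ≤
      Fintype.card (Fin n) := by
    rw [Fintype.card_fin]
    refine le_trans ?_ hn
    have e0 : D * (D - 1) + D = D * D := by
      obtain ⟨d, rfl⟩ : ∃ d, D = d + 1 := ⟨D - 1, by omega⟩
      rw [Nat.add_sub_cancel]; ring
    have h2D : 2 * D ≤ D * D := Nat.mul_le_mul_right _ hD
    have e5 : 2 * (2 * κ + 2) ≤ 3 * (D * D) := by omega
    have e2 : 8 * κ + 8 * D * D + 4 ≤ 14 * (D * D) := by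
      have : 8 * D * D = 8 * (D * D) := by ring
      omega
    have e4 : (8 * κ + 8 * D * D + 3) * D + 1 ≤ 14 * (D * D) * D := by
      calc (8 * κ + 8 * D * D + 3) * D + 1 ≤ (8 * κ + 8 * D * D + 3) * D + D := by omega
        _ = (8 * κ + 8 * D * D + 4) * D := by ring
        _ ≤ _ := Nat.mul_le_mul_right _ e2
    have e6 : 2 * ((2 * κ + 2) * ((8 * κ + 8 * D * D + 3) * D + 1)) ≤
        3 * (D * D) * (14 * (D * D) * D) := by
      calc 2 * ((2 * κ + 2) * ((8 * κ + 8 * D * D + 3) * D + 1)) =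
          (2 * (2 * κ + 2)) * ((8 * κ + 8 * D * D + 3) * D + 1) := by ring
        _ ≤ 3 * (D * D) * (14 * (D * D) * D) := Nat.mul_le_mul e5 e4
    calc 4 * D * ((2 * κ + 2) * ((8 * κ + 8 * D * D + 3) * D + 1) + 1) =
        2 * D * (2 * ((2 * κ + 2) * ((8 * κ + 8 * D * D + 3) * D + 1))) + 4 * D := by ring
      _ ≤ 2 * D * (3 * (D * D) * (14 * (D * D) * D)) + 4 * D :=
          Nat.add_le_add_right (Nat.mul_le_mul_left _ e6) _
      _ = 84 * D ^ 6 + 4 * D := by ring
      _ ≤ 100 * D ^ 6 := by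
          have a2 : D ≤ D ^ 6 := by
            calc D = D ^ 1 := (pow_one D).symm
              _ ≤ D ^ 6 := Nat.pow_le_pow_right (by omega) (by norm_num)
          omega
  have hmain := large_odd hsym hirr (κ := κ) (D := D) hκ1 (by omega) hxy hK hbig
  rw [e2_univ, Fintype.card_fin] at hmain
  have e7 : 2 * κ + D * (D - 1) = 2 * (D * (D - 1) + u) := by omega
  rw [e7] at hmain
  have e8 : D * G.edgeSet.ncard ≤ (D * (D - 1) + u) * n + 2 * D := by
    have : D * (2 * G.edgeSet.ncard) = 2 * (D * G.edgeSet.ncard) := by ring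
    rw [this] at hmain
    have : 2 * (D * (D - 1) + u) * n = 2 * ((D * (D - 1) + u) * n) := by ring
    rw [this] at hmain
    omega
  have e9 : G.edgeSet.ncard ≤ (D - 1) * n + n * u / D + 2 := by
    have h1 : G.edgeSet.ncard ≤ ((D * (D - 1) + u) * n + 2 * D) / D := by
      rw [Nat.le_div_iff_mul_le (by omega), mul_comm]; exact e8
    have h2 : (D * (D - 1) + u) * n + 2 * D = n * u + D * ((D - 1) * n + 2) := by ring
    rw [h2, Nat.add_mul_div_left _ _ (by omega)] at h1
    omega
  omega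

/-- **Value up to one for all even `k` and large `n`.** -/
theorem even_large {n D u : ℕ} (hD : 2 ≤ D) (hu : u < D) (hn : 100 * D ^ 6 ≤ n) :
    IsLeast (FSet n (D * (D - 1) + 2 * u + 2)) ((D - 1) * n + n * u / D + 2) ∨
    IsLeast (FSet n (D * (D - 1) + 2 * u + 2)) ((D - 1) * n + n * u / D + 3) := by
  classical
  have hn2 : 2 * D + 1 ≤ n := by
    have : D ≤ D ^ 6 := by
      calc D = D ^ 1 := (pow_one D).symm
        _ ≤ D ^ 6 := Nat.pow_le_pow_right (by omega) (by norm_num)
    omega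
  have hch := choose_ge (n := n) (D := D) (u := u) (ε := 1) (by omega) hu (by omega) (Or.inl hn2)
  have hlow : ∀ e, Forces n (D * (D - 1) + 2 * u + 2) e → (D - 1) * n + n * u / D + 2 ≤ e := by
    intro e he
    by_contra hcon
    exact not_forces (n := n) (D := D) (u := u) (ε := 1) (by omega) hu (by omega)
      (Or.inl hn2) e (by omega) he
  have hup := upper_large_even (n := n) hD hu hn
  by_cases h : Forces n (D * (D - 1) + 2 * u + 2) ((D - 1) * n + n * u / D + 2)
  · left
    exact ⟨⟨by omega, h⟩, fun e he => hlow e he.2⟩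
  · right
    have hfull := full_forces (n := n) (D := D) (u := u) (ε := 1) (by omega) hu (by omega)
      (Or.inl hn2)
    have hlow' : ∀ e, Forces n (D * (D - 1) + 2 * u + 2) e → (D - 1) * n + n * u / D + 3 ≤ e := by
      intro e he
      by_contra hcon
      exact h (he.mono (by omega))
    exact ⟨⟨hlow' _ hfull, hup⟩, fun e he => hlow' e he.2⟩

end Pool.Agent.H66.GG
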