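import Pool.Agent.H66.GG.Bal

/-!
Geometric graphs and lines (helper66, for MP_b5bf4a_co).
-/

namespace Pool.Agent.H66.GG

open Finset

/-- a straight line in the plane -/
def IsLine (L : Set (ℝ × ℝ)) : Prop :=
  ∃ α β γ : ℝ, (α ≠ 0 ∨ β ≠ 0) ∧ L = {q : ℝ × ℝ | α * q.1 + β * q.2 = γ}

/-- `n` distinct points, no three on a line -/
def GenPosition {n : ℕ} (p : Fin n → ℝ × ℝ) : Prop :=
  Function.Injective p ∧ ∀ i j k, i ≠ j → j ≠ k → i ≠ k → ¬ Collinear ℝ {p i, p j, p k}

/-- the edges of `G`, drawn as segments between the points `p i`, whose relative interior meets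
`L` -/
def Met {n : ℕ} (L : Set (ℝ × ℝ)) (p : Fin n → ℝ × ℝ) (G : SimpleGraph (Fin n)) :
    Set (Sym2 (Fin n)) :=
  {e | e ∈ G.edgeSet ∧ ∃ i j, e = s(i, j) ∧ (openSegment ℝ (p i) (p j) ∩ L).Nonempty}

/-- every geometric graph on `n` points with at least `e` edges has a line meeting at least `k`
of its edges -/
def Forces (n k e : ℕ) : Prop :=
  ∀ p : Fin n → ℝ × ℝ, GenPosition p → ∀ G : SimpleGraph (Fin n), e ≤ G.edgeSet.ncard →
    ∃ L, IsLine L ∧ k ≤ (Met L p G).ncard

lemma exists_shear {n : ℕ} (p : Fin n → ℝ × ℝ) (hp : GenPosition p) :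
    ∃ x y : Fin n → ℝ, GenPos x y ∧
      ∀ S, IsSplit x y S → IsSplit (fun i => (p i).1) (fun i => (p i).2) S := by
  classical
  -- bad shears
  set bad : Set ℝ := ⋃ i : Fin n, ⋃ j : Fin n,
    {((p j).2 - (p i).2) / ((p i).1 - (p j).1)} with hbad
  have hfin : bad.Finite := by
    apply Set.finite_iUnion
    intro i
    apply Set.finite_iUnion
    intro j
    exact Set.finite_singleton _
  obtain ⟨c, hc⟩ := hfin.infinite_compl.nonempty
  have hc' : ∀ i j : Fin n, c ≠ ((p j).2 - (p i).2) / ((p i).1 - (p j).1) := by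
    intro i j h
    apply hc
    rw [hbad, Set.mem_iUnion]
    refine ⟨i, ?_⟩
    rw [Set.mem_iUnion]
    exact ⟨j, h⟩
  refine ⟨fun i => (p i).1, fun i => (p i).2 + c * (p i).1, ⟨?_, ?_⟩, ?_⟩
  · intro i j h
    by_contra hij
    have h : (p i).2 + c * (p i).1 = (p j).2 + c * (p j).1 := h
    by_cases h1 : (p i).1 = (p j).1
    · apply hij
      apply hp.1
      apply Prod.ext h1
      rw [h1] at h
      linarith
    · apply hc' i j
      rw [eq_div_iff (sub_ne_zero.2 h1)]
      linarith
  · intro v w z hwv hzv hwz h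
    apply hp.2 v w z hwv.symm hwz hzv.symm
    unfold slp at h
    have hy : ∀ i j : Fin n, i ≠ j →
        ((p i).2 + c * (p i).1) - ((p j).2 + c * (p j).1) ≠ 0 := by
      intro i j hij h
      by_cases h1 : (p i).1 = (p j).1
      · apply hij
        apply hp.1
        apply Prod.ext h1
        rw [h1] at h
        linarith
      · apply hc' i j
        rw [eq_div_iff (sub_ne_zero.2 h1)]
        linarith
    have h1 := hy v w hwv.symm
    have h2 := hy v z hzv.symm
    rw [div_eq_div_iff h1 h2] at h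
    rw [collinear_iff_of_mem (p₀ := p v) (by simp)]
    refine ⟨p w - p v, ?_⟩
    intro q hq
    simp only [Set.mem_insert_iff, Set.mem_singleton_iff] at hq
    rcases hq with rfl | rfl | rfl
    · exact ⟨0, by simp⟩
    · exact ⟨1, by simp⟩
    · refine ⟨(((p z).2 + c * (p z).1) - ((p v).2 + c * (p v).1)) /
        (((p w).2 + c * (p w).1) - ((p v).2 + c * (p v).1)), ?_⟩
      have h3 := hy w v hwv
      have e1 : (p z).1 = (((p z).2 + c * (p z).1) - ((p v).2 + c * (p v).1)) /
          (((p w).2 + c * (p w).1) - ((p v).2 + c * (p v).1)) * ((p w).1 - (p v).1) + (p v).1 := by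
        rw [div_mul_eq_mul_div, ← sub_eq_iff_eq_add, eq_div_iff h3]
        linarith
      have e2 : (p z).2 = (((p z).2 + c * (p z).1) - ((p v).2 + c * (p v).1)) /
          (((p w).2 + c * (p w).1) - ((p v).2 + c * (p v).1)) * ((p w).2 - (p v).2) + (p v).2 := by
        rw [div_mul_eq_mul_div, ← sub_eq_iff_eq_add, eq_div_iff h3]
        have e3 := e1
        rw [div_mul_eq_mul_div, ← sub_eq_iff_eq_add, eq_div_iff h3] at e3
        linear_combination (-c) * e3
      apply Prod.ext
      · simp only [vadd_eq_add, Prod.fst_add, Prod.smul_fst, Prod.fst_sub, smul_eq_mul]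
        exact e1
      · simp only [vadd_eq_add, Prod.snd_add, Prod.smul_snd, Prod.snd_sub, smul_eq_mul]
        exact e2
  · rintro S ⟨α, β, γ, h⟩
    refine ⟨α + β * c, β, γ, fun v => ⟨fun hv => ?_, fun hv => ?_⟩⟩
    · have := (h v).1 hv
      simp only at this ⊢
      linarith
    · have := (h v).2 hv
      simp only at this ⊢
      linarith

lemma cut_le_met {n : ℕ} (p : Fin n → ℝ × ℝ) (G : SimpleGraph (Fin n)) (S : Finset (Fin n))
    (hS : IsSplit (fun i => (p i).1) (fun i => (p i).2) S) (hpos : 0 < cut G.Adj S) :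
    ∃ L, IsLine L ∧ cut G.Adj S ≤ (Met L p G).ncard := by
  classical
  obtain ⟨α, β, γ, h⟩ := hS
  have hne : α ≠ 0 ∨ β ≠ 0 := by
    unfold cut at hpos
    obtain ⟨q, hq⟩ := Finset.card_pos.1 hpos
    simp only [mem_filter, mem_univ, true_and] at hq
    have h1 := (h q.1).1 hq.2.1
    have h2 := (h q.2).2 hq.2.2
    by_contra hcon
    push Not at hcon
    rw [hcon.1, hcon.2] at h1 h2
    linarith
  refine ⟨_, ⟨α, β, γ, hne, rfl⟩, ?_⟩
  unfold cut
  rw [← Set.ncard_coe_finset]
  apply Set.ncard_le_ncard_of_injOn (fun q : Fin n × Fin n => s(q.1, q.2))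
  · intro q hq
    simp only [coe_filter, mem_univ, true_and, Set.mem_setOf_eq] at hq
    obtain ⟨hadj, h1, h2⟩ := hq
    refine ⟨by simpa using hadj, q.1, q.2, rfl, ?_⟩
    have f1 := (h q.1).1 h1
    have f2 := (h q.2).2 h2
    simp only at f1 f2
    set A := α * (p q.1).1 + β * (p q.1).2 with hA
    set B := α * (p q.2).1 + β * (p q.2).2 with hB
    have hAB : 0 < B - A := by linarith
    refine ⟨((B - γ) / (B - A)) • p q.1 + ((γ - A) / (B - A)) • p q.2, ?_, ?_⟩
    · refine ⟨(B - γ) / (B - A), (γ - A) / (B - A), by apply div_pos <;> linarith,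
        by apply div_pos <;> linarith, ?_, rfl⟩
      rw [← add_div, div_eq_one_iff_eq hAB.ne']
      ring
    · simp only [Set.mem_setOf_eq, Prod.fst_add, Prod.smul_fst, smul_eq_mul, Prod.snd_add,
        Prod.smul_snd]
      have : α * ((B - γ) / (B - A) * (p q.1).1 + (γ - A) / (B - A) * (p q.2).1) +
          β * ((B - γ) / (B - A) * (p q.1).2 + (γ - A) / (B - A) * (p q.2).2) =
          ((B - γ) * A + (γ - A) * B) / (B - A) := by
        rw [hA, hB]; ring
      rw [this, div_eq_iff hAB.ne']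
      ring
  · intro q hq q' hq' hqq
    simp only [coe_filter, mem_univ, true_and, Set.mem_setOf_eq] at hq hq'
    simp only [Sym2.eq_iff] at hqq
    rcases hqq with ⟨h1, h2⟩ | ⟨h1, h2⟩
    · exact Prod.ext h1 h2
    · exfalso
      apply hq'.2.2
      rw [← h1]
      exact hq.2.1

lemma e2_univ {n : ℕ} (G : SimpleGraph (Fin n)) : e2 G.Adj univ = 2 * G.edgeSet.ncard := by
  classical
  unfold e2
  have h1 : G.edgeSet.ncard = G.edgeFinset.card := by
    rw [← Set.ncard_coe_finset, SimpleGraph.coe_edgeFinset]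
  rw [h1, ← SimpleGraph.sum_degrees_eq_twice_card_edges]
  rw [Finset.card_filter, Fintype.sum_prod_type]
  apply Finset.sum_congr rfl
  intro v _
  rw [← Finset.card_filter, ← SimpleGraph.card_neighborFinset_eq_degree]
  congr 1
  ext w
  simp

/-- **Upper bound.**  Let `n = 2 j q + t` with `t ≤ 2 j`. -/
theorem upper (n κ ε j q t : ℕ) (hε : ε ≤ 1) (hj : 1 ≤ j) (ht : t ≤ 2 * j)
    (hn : n = 2 * j * q + t) :
    Forces n (2 * κ + ε + 1) (2 * j * κ + ε + j * (q * (q - 1)) + t * q + 1) := by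
  classical
  intro p hp G hG
  by_contra hcon
  push Not at hcon
  obtain ⟨x, y, hxy, hsp⟩ := exists_shear p hp
  have hsym : Symmetric G.Adj := fun _ _ h => h.symm
  have hirr : ∀ v, ¬ G.Adj v v := fun v h => h.ne rfl
  have hK : ∀ S, IsSplit x y S → cut G.Adj S ≤ 2 * κ + ε := by
    intro S hS
    rcases Nat.eq_zero_or_pos (cut G.Adj S) with h | h
    · omega
    · obtain ⟨L, hL, h2⟩ := cut_le_met p G S (hsp S hS) h
      have := hcon L hL
      omega
  obtain ⟨A, hA, hc, w1, w2⟩ := balanced hsym hirr (κ := κ) hxy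
    (fun S hS => (hK S hS).trans (by omega))
  rw [Fintype.card_fin] at hc
  have hc2 : Aᶜ.card = n - n / 2 := by rw [Finset.card_compl, Fintype.card_fin, hc]
  have b1 := block_bound' G.Adj hsym hirr A j q (t / 2) hj (by omega)
    (by
      rw [hc, hn]
      have : 2 * j * q = 2 * (j * q) := by ring
      omega) w1
  have b2 := block_bound' G.Adj hsym hirr Aᶜ j q (t - t / 2) hj (by omega)
    (by
      rw [hc2, hn]
      have : 2 * j * q = 2 * (j * q) := by ring
      omega) w2
  have e1 := e2_split G.Adj hsym univ A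
  rw [Finset.univ_inter] at e1
  have e3 : univ \ A = Aᶜ := rfl
  rw [e3, e2_univ] at e1
  have c1 : cut (rst G.Adj univ) A ≤ 2 * κ + ε := (cut_rst_le _ _ _).trans (hK A hA)
  have t1 : t / 2 * (2 * q) + (t - t / 2) * (2 * q) = 2 * (t * q) := by
    rw [← add_mul]
    have : t / 2 + (t - t / 2) = t := by omega
    rw [this]; ring
  have t2 : 2 * j * κ = 2 * (j * κ) := by ring
  rw [t2] at b1 b2 hG
  omega

end Pool.Agent.H66.GG
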