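import Pool.Agent.H66.GG.Geo

/-!
Exact upper bound for large `n` and even maximal cut (helper66, for MP_b5bf4a_co).
-/

namespace Pool.Agent.H66.GG

open Finset

variable {V : Type*} [Fintype V] [DecidableEq V]

lemma SymSub.sdiff {f : Finset V → ℕ} (hf : SymSub f) (P Q : Finset V) :
    f (P \ Q) ≤ f P + f Q := by
  have h := hf.sub P Qᶜ
  rw [hf.sym Q] at h
  have : P \ Q = P ∩ Qᶜ := Finset.sdiff_eq_inter_compl P Q
  rw [this]
  omega

/-- a chain of subsets of `A` -/
structure Chn (r : V → V → Prop) (A : Finset V) (κ : ℕ) (pre : ℕ → Finset V) : Prop where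
  sub : ∀ m, pre m ⊆ A
  card : ∀ m, (pre m).card = min m A.card
  mono : ∀ m m', m ≤ m' → pre m ⊆ pre m'
  cut_le : ∀ m, cut (rst r A) (pre m) ≤ κ

lemma cut_rst_inter (r : V → V → Prop) (A S : Finset V) :
    cut (rst r A) (A ∩ S) = cut (rst r A) S := by
  classical
  unfold cut rst
  congr 1
  ext p
  simp only [mem_filter, mem_univ, true_and, mem_inter]
  tauto

lemma exists_chn {r : V → V → Prop} {A : Finset V} {κ : ℕ} (h : Wid (cut (rst r A)) κ) :
    ∃ pre, Chn r A κ pre := by
  obtain ⟨l, l1, l2, l3⟩ := h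
  have hex : ∀ m, ∃ k, (A ∩ (l.take k).toFinset).card = min m A.card :=
    fun m => exists_prefix A l l2 _ (min_le_right _ _)
  choose K hK using hex
  refine ⟨fun m => A ∩ (l.take (K m)).toFinset, ⟨fun m => Finset.inter_subset_left, hK, ?_, ?_⟩⟩
  · intro m m' hm
    have hnest : ∀ a b, a ≤ b → (l.take a).toFinset ⊆ (l.take b).toFinset := by
      intro a b hab v hv
      rw [List.mem_toFinset] at hv ⊢
      exact (List.take_subset_take_left l hab) hv
    rcases le_total (K m) (K m') with h | h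
    · exact Finset.inter_subset_inter_left (hnest _ _ h)
    · have hsub : A ∩ (l.take (K m')).toFinset ⊆ A ∩ (l.take (K m)).toFinset :=
        Finset.inter_subset_inter_left (hnest _ _ h)
      have hc : (A ∩ (l.take (K m)).toFinset).card ≤ (A ∩ (l.take (K m')).toFinset).card := by
        rw [hK, hK]; exact min_le_min_right _ hm
      exact (Finset.eq_of_subset_of_card_le hsub hc).symm.subset
  · intro m
    rw [cut_rst_inter]
    exact l3 _

lemma Chn.wid {r : V → V → Prop} {A X : Finset V} {κ : ℕ} (h : Wid (cut (rst r A)) κ)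
    (hX : X ⊆ A) : Wid (cut (rst r X)) κ := Wid.mono_fun (fun S => cut_rst_mono r hX S) h

/-- segments of a chain -/
def seg (pre : ℕ → Finset V) (a b : ℕ) : Finset V := pre b \ pre a

lemma seg_card {r : V → V → Prop} {A : Finset V} {κ : ℕ} {pre : ℕ → Finset V}
    (H : Chn r A κ pre) {a b : ℕ} (hab : a ≤ b) (hb : b ≤ A.card) : (seg pre a b).card = b - a := by
  unfold seg
  rw [Finset.card_sdiff_of_subset (H.mono a b hab), H.card, H.card, min_eq_left hb,
    min_eq_left (hab.trans hb)]

lemma seg_sub {r : V → V → Prop} {A : Finset V} {κ : ℕ} {pre : ℕ → Finset V}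
    (H : Chn r A κ pre) (a b : ℕ) : seg pre a b ⊆ A := Finset.sdiff_subset.trans (H.sub b)

lemma seg_mono {r : V → V → Prop} {A : Finset V} {κ : ℕ} {pre : ℕ → Finset V}
    (H : Chn r A κ pre) {a b c d : ℕ} (h1 : a ≤ b) (h2 : c ≤ d) :
    seg pre b c ⊆ seg pre a d := by
  unfold seg
  intro v hv
  rw [mem_sdiff] at hv ⊢
  exact ⟨H.mono _ _ h2 hv.1, fun h => hv.2 (H.mono _ _ h1 h)⟩

lemma seg_disj {r : V → V → Prop} {A : Finset V} {κ : ℕ} {pre : ℕ → Finset V}
    (H : Chn r A κ pre) {a b c d : ℕ} (h : b ≤ c) {v : V} (h1 : v ∈ seg pre a b)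
    (h2 : v ∈ seg pre c d) : False := by
  unfold seg at h1 h2
  rw [mem_sdiff] at h1 h2
  exact h2.2 (H.mono _ _ h h1.1)

lemma e2_seg {r : V → V → Prop} (hr : Symmetric r) {A : Finset V} {κ : ℕ} {pre : ℕ → Finset V}
    (H : Chn r A κ pre) {a b c : ℕ} (hab : a ≤ b) (hbc : b ≤ c) :
    e2 r (seg pre a c) ≤ e2 r (seg pre a b) + e2 r (seg pre b c) + 2 * κ := by
  have h := e2_split r hr (seg pre a c) (pre b)
  have h1 : seg pre a c ∩ pre b = seg pre a b := by
    unfold seg
    ext v
    simp only [mem_inter, mem_sdiff]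
    constructor
    · rintro ⟨⟨_, h2⟩, h3⟩; exact ⟨h3, h2⟩
    · rintro ⟨h2, h3⟩; exact ⟨⟨H.mono _ _ hbc h2, h3⟩, h2⟩
  have h2 : seg pre a c \ pre b = seg pre b c := by
    unfold seg
    ext v
    simp only [mem_sdiff]
    constructor
    · rintro ⟨⟨h2, _⟩, h3⟩; exact ⟨h2, h3⟩
    · rintro ⟨h2, h3⟩; exact ⟨⟨h2, fun h => h3 (H.mono _ _ hab h)⟩, h3⟩
  rw [h1, h2] at h
  have h3 : cut (rst r (seg pre a c)) (pre b) ≤ κ :=
    (cut_rst_mono r (seg_sub H a c) _).trans (H.cut_le b)
  omega

open Classical in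
/-- degree sum of a set -/
noncomputable def dg (r : V → V → Prop) (X : Finset V) : ℕ :=
  (univ.filter (fun p : V × V => r p.1 p.2 ∧ p.1 ∈ X)).card

lemma dg_eq (r : V → V → Prop) (X : Finset V) : dg r X = e2 r X + cut r X := by
  classical
  unfold dg e2 cut
  rw [← Finset.card_union_of_disjoint]
  · congr 1
    ext p
    simp only [mem_filter, mem_univ, true_and, mem_union]
    tauto
  · rw [Finset.disjoint_left]
    intro p h1 h2
    simp only [mem_filter, mem_univ, true_and] at h1 h2
    exact h2.2.2 h1.2.2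

lemma dg_seg {r : V → V → Prop} {A : Finset V} {κ : ℕ} {pre : ℕ → Finset V}
    (H : Chn r A κ pre) {a b c : ℕ} (hab : a ≤ b) (hbc : b ≤ c) :
    dg r (seg pre a c) = dg r (seg pre a b) + dg r (seg pre b c) := by
  classical
  unfold dg
  rw [← Finset.card_union_of_disjoint]
  · congr 1
    ext p
    simp only [mem_filter, mem_univ, true_and, mem_union]
    unfold seg
    simp only [mem_sdiff]
    constructor
    · rintro ⟨h0, h1, h2⟩
      by_cases h3 : p.1 ∈ pre b
      · exact Or.inl ⟨h0, h3, h2⟩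
      · exact Or.inr ⟨h0, h1, h3⟩
    · rintro (⟨h0, h1, h2⟩ | ⟨h0, h1, h2⟩)
      · exact ⟨h0, H.mono _ _ hbc h1, h2⟩
      · exact ⟨h0, h1, fun h => h2 (H.mono _ _ hab h)⟩
  · rw [Finset.disjoint_left]
    intro p h1 h2
    simp only [mem_filter, mem_univ, true_and] at h1 h2
    exact seg_disj H (le_refl b) h1.2 h2.2

/-- windows -/
lemma sum_windows {r : V → V → Prop} (hr : Symmetric r) {A : Finset V} {κ : ℕ}
    {pre : ℕ → Finset V} (H : Chn r A κ pre) (W M : ℕ) :
    e2 r (seg pre 0 (W * M)) ≤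
      (∑ i ∈ range M, e2 r (seg pre (W * i) (W * (i + 1)))) + 2 * M * κ := by
  induction M with
  | zero =>
    have : seg pre 0 (W * 0) = ∅ := by unfold seg; simp
    rw [this]
    simp [e2]
  | succ M ih =>
    rw [Finset.sum_range_succ]
    have h := e2_seg hr H (a := 0) (b := W * M) (c := W * (M + 1)) (Nat.zero_le _)
      (Nat.mul_le_mul_left _ (by omega))
    have : 2 * (M + 1) * κ = 2 * M * κ + 2 * κ := by ring
    rw [this]
    omega

/-- the total number of edges on one side, with bad windows -/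
lemma side_bound {r : V → V → Prop} (hr : Symmetric r) (hirr : ∀ v, ¬ r v v) {A : Finset V}
    {κ D : ℕ} (hD : 1 ≤ D) (hw : Wid (cut (rst r A)) κ)
    {pre : ℕ → Finset V} (H : Chn r A κ pre) :
    e2 r A + ((range (A.card / (2 * D))).filter (fun i =>
      e2 r (seg pre (2 * D * i) (2 * D * (i + 1))) < 2 * κ + 2 * (D * (D - 1)))).card ≤
      2 * (A.card / (2 * D)) * (2 * κ + D * (D - 1)) + 2 * κ + 4 * D * D := by
  classical
  set M := A.card / (2 * D) with hM
  have hMle : 2 * D * M ≤ A.card := Nat.mul_div_le _ _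
  have hrem : A.card - 2 * D * M < 2 * D := by
    have h1 := Nat.div_add_mod A.card (2 * D)
    have h2 := Nat.mod_lt A.card (show 0 < 2 * D by omega)
    rw [← hM] at h1
    omega
  have hall : seg pre 0 A.card = A := by
    unfold seg
    have h0 : pre 0 = ∅ := by
      rw [← Finset.card_eq_zero, H.card]; simp
    have h1 : pre A.card = A := by
      apply Finset.eq_of_subset_of_card_le (H.sub _)
      rw [H.card]; simp
    rw [h0, h1, Finset.sdiff_empty]
  have h1 := e2_seg hr H (a := 0) (b := 2 * D * M) (c := A.card) (Nat.zero_le _) hMle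
  rw [hall] at h1
  have h2 := sum_windows hr H (2 * D) M
  have h3 : e2 r (seg pre (2 * D * M) A.card) ≤ 4 * D * D := by
    refine (e2_le r hirr _).trans ?_
    rw [seg_card H hMle (le_refl _)]
    calc (A.card - 2 * D * M) * (A.card - 2 * D * M - 1) ≤ (2 * D) * (2 * D) :=
          Nat.mul_le_mul (by omega) (by omega)
      _ = 4 * D * D := by ring
  have hwin : ∀ i ∈ range M, e2 r (seg pre (2 * D * i) (2 * D * (i + 1))) ≤
      2 * κ + 2 * (D * (D - 1)) := by
    intro i hi
    rw [mem_range] at hi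
    have hc : (seg pre (2 * D * i) (2 * D * (i + 1))).card = 2 * D := by
      rw [seg_card H (Nat.mul_le_mul_left _ (by omega))
        ((Nat.mul_le_mul_left (2 * D) (by omega : i + 1 ≤ M)).trans hMle)]
      rw [Nat.mul_add, mul_one, Nat.add_sub_cancel_left]
    have := block_bound' r hr hirr _ 2 D 0 (by norm_num) (by norm_num)
      (by rw [hc]; ring) (Chn.wid hw (seg_sub H (2 * D * i) (2 * D * (i + 1))))
    omega
  have hsum : (∑ i ∈ range M, e2 r (seg pre (2 * D * i) (2 * D * (i + 1)))) +
      ((range M).filter (fun i =>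
      e2 r (seg pre (2 * D * i) (2 * D * (i + 1))) < 2 * κ + 2 * (D * (D - 1)))).card ≤
      M * (2 * κ + 2 * (D * (D - 1))) := by
    rw [Finset.card_filter, ← Finset.sum_add_distrib]
    have : M * (2 * κ + 2 * (D * (D - 1))) = ∑ _i ∈ range M, (2 * κ + 2 * (D * (D - 1))) := by
      rw [Finset.sum_const, Finset.card_range, smul_eq_mul]
    rw [this]
    apply Finset.sum_le_sum
    intro i hi
    have := hwin i hi
    split_ifs with h
    · omega
    · omega
  have e1 : 2 * M * (2 * κ + D * (D - 1)) = M * (2 * κ + 2 * (D * (D - 1))) + 2 * M * κ := by ring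
  rw [e1]
  omega

/-- pigeonhole: a run of indices avoiding a small set -/
lemma exists_run (T : Finset ℕ) (m R : ℕ) (hT : T.card ≤ m) :
    ∃ i0, i0 + R ≤ (m + 1) * R ∧ ∀ i, i0 ≤ i → i < i0 + R → i ∉ T := by
  classical
  by_contra hcon
  push Not at hcon
  have h : ∀ j : Fin (m + 1), ∃ i, (j : ℕ) * R ≤ i ∧ i < (j : ℕ) * R + R ∧ i ∈ T := by
    intro j
    apply hcon
    have : (j : ℕ) * R + R = ((j : ℕ) + 1) * R := by ring
    rw [this]
    exact Nat.mul_le_mul_right _ j.2
  choose F hF1 hF2 hF3 using h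
  have hinj : Function.Injective F := by
    intro j j' hjj
    by_contra hne
    have key : ∀ a b : Fin (m + 1), a < b → F a = F b → False := by
      intro a b hab h
      have h1 := hF2 a
      have h2 := hF1 b
      have h3 : ((a : ℕ) + 1) * R ≤ (b : ℕ) * R := Nat.mul_le_mul_right _ hab
      have h4 : (a : ℕ) * R + R = ((a : ℕ) + 1) * R := by ring
      omega
    rcases lt_or_gt_of_ne hne with h | h
    · exact key _ _ h hjj
    · exact key _ _ h hjj.symm
  have : (m + 1) ≤ T.card := by
    have h1 : (Finset.univ.image F) ⊆ T := by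
      intro x hx
      rw [mem_image] at hx
      obtain ⟨j, _, rfl⟩ := hx
      exact hF3 j
    have h2 := Finset.card_le_card h1
    rw [Finset.card_image_of_injective _ hinj, Finset.card_univ, Fintype.card_fin] at h2
    exact h2
  omega

theorem large {r : V → V → Prop} (hr : Symmetric r) (hirr : ∀ v, ¬ r v v) {κ D : ℕ}
    (hκ : 1 ≤ κ) (hD : 1 ≤ D) {x y : V → ℝ} (G : GenPos x y)
    (hK : ∀ S, IsSplit x y S → cut r S ≤ 2 * κ)
    (hn : 4 * D * ((2 * κ + 1) * ((8 * κ + 8 * D * D + 3) * D + 1) + 1) ≤ Fintype.card V) :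
    D * e2 r univ ≤ (2 * κ + D * (D - 1)) * Fintype.card V := by
  classical
  obtain ⟨A, hA, hAc, w1, w2⟩ := balanced hr hirr G (κ := κ) (fun S hS => (hK S hS).trans (by omega))
  set n := Fintype.card V with hnd
  set ω := 2 * κ + D * (D - 1) with hω
  obtain ⟨pre, H⟩ := exists_chn w1
  obtain ⟨pre', H'⟩ := exists_chn w2
  have hcc : Aᶜ.card = n - A.card := by rw [Finset.card_compl]
  have hAle : A.card ≤ n := Finset.card_le_univ A
  set M := A.card / (2 * D) with hM
  set M' := Aᶜ.card / (2 * D) with hM'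
  set Bd := (range M).filter (fun i =>
      e2 r (seg pre (2 * D * i) (2 * D * (i + 1))) < 2 * κ + 2 * (D * (D - 1))) with hBd
  have s1 := side_bound hr hirr hD w1 H
  have s2 := side_bound hr hirr hD w2 H'
  rw [← hM, ← hBd, ← hω] at s1
  rw [← hM', ← hω] at s2
  have s3 := e2_split r hr univ A
  rw [Finset.univ_inter] at s3
  have s4 : univ \ A = Aᶜ := rfl
  rw [s4] at s3
  have s5 : cut (rst r univ) A ≤ 2 * κ := (cut_rst_le _ _ _).trans (hK A hA)
  have hMM : 2 * D * M + 2 * D * M' ≤ n := by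
    have h1 : 2 * D * M ≤ A.card := Nat.mul_div_le _ _
    have h2 : 2 * D * M' ≤ Aᶜ.card := Nat.mul_div_le _ _
    omega
  -- case of many bad windows
  rcases Nat.lt_or_ge Bd.card (8 * κ + 8 * D * D) with hB | hB
  swap
  · have t0 : 8 * D * D = 4 * D * D + 4 * D * D := by ring
    have t1 : e2 r univ ≤ 2 * M * ω + 2 * M' * ω := by omega
    calc D * e2 r univ ≤ D * (2 * M * ω + 2 * M' * ω) := Nat.mul_le_mul_left _ t1
      _ = ω * (2 * D * M + 2 * D * M') := by ring
      _ ≤ ω * n := Nat.mul_le_mul_left _ hMM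
  -- untouched windows
  set P : ℕ → Prop := fun i => ∃ v, v ∈ seg pre (2 * D * i) (2 * D * (i + 1)) ∧
    ∃ w, w ∉ A ∧ r v w with hP
  set T := (range M).filter P with hT
  have hTc : T.card ≤ 2 * κ := by
    refine le_trans ?_ (hK A hA)
    rcases T.eq_empty_or_nonempty with hTe | hTe
    · rw [hTe]; simp
    haveI : Nonempty (V × V) := by
      obtain ⟨i, hi⟩ := hTe
      rw [hT, mem_filter] at hi
      obtain ⟨_, v, _⟩ := hi
      exact ⟨(v, v)⟩
    have hex : ∀ i ∈ T, ∃ p : V × V, p.1 ∈ seg pre (2 * D * i) (2 * D * (i + 1)) ∧ p.2 ∉ A ∧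
        r p.1 p.2 := by
      intro i hi
      rw [hT, mem_filter] at hi
      obtain ⟨_, v, hv, w, hw, hvw⟩ := hi
      exact ⟨(v, w), hv, hw, hvw⟩
    choose! F hF1 hF2 hF3 using hex
    unfold cut
    apply Finset.card_le_card_of_injOn F
    · intro i hi
      rw [mem_coe] at hi ⊢
      rw [mem_filter]
      exact ⟨mem_univ _, hF3 i hi, seg_sub H _ _ (hF1 i hi), hF2 i hi⟩
    · intro i hi j hj hij
      rw [mem_coe] at hi hj
      by_contra hne
      have key : ∀ a b, a ∈ T → b ∈ T → a < b → F a = F b → False := by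
        intro a b ha hb hab h
        have h1 := hF1 a ha
        have h2 := hF1 b hb
        rw [← h] at h2
        exact seg_disj H (Nat.mul_le_mul_left _ (by omega)) h1 h2
      rcases lt_or_gt_of_ne hne with h | h
      · exact key _ _ hi hj h hij
      · exact key _ _ hj hi h hij.symm
  set c := 8 * κ + 8 * D * D + 2 with hc
  obtain ⟨i0, hi0, hrun⟩ := exists_run T (2 * κ) (c * D + 1) hTc
  have hrunM : i0 + (c * D + 1) ≤ M := by
    have h1 : (2 * κ + 1) * (c * D + 1) ≤ M := by
      rw [hM, Nat.le_div_iff_mul_le (by omega), hAc, Nat.le_div_iff_mul_le (by norm_num)]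
      refine le_trans ?_ hn
      have h2 : (2 * κ + 1) * (c * D + 1) ≤
          (2 * κ + 1) * ((8 * κ + 8 * D * D + 3) * D + 1) + 1 := by
        have : c * D + 1 ≤ (8 * κ + 8 * D * D + 3) * D + 1 := by
          have := Nat.mul_le_mul_right D (show c ≤ 8 * κ + 8 * D * D + 3 by omega)
          omega
        have := Nat.mul_le_mul_left (2 * κ + 1) this
        omega
      calc (2 * κ + 1) * (c * D + 1) * (2 * D) * 2 = 4 * D * ((2 * κ + 1) * (c * D + 1)) := by ring
        _ ≤ _ := Nat.mul_le_mul_left _ h2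
    omega
  -- the chain
  set s := n % D with hs
  set g : ℕ → ℕ := fun k => 2 * D * (i0 + c * k) + (k * s) % D with hg
  have hmodlt : ∀ k, (k * s) % D < D := fun k => Nat.mod_lt _ (by omega)
  have hgle : ∀ k, k ≤ D → g k ≤ A.card := by
    intro k hk
    have h1 : 2 * D * M ≤ A.card := Nat.mul_div_le _ _
    have h2 := hmodlt k
    have h3 : i0 + c * k + 1 ≤ M := by
      have := Nat.mul_le_mul_left c hk
      omega
    have h4 := Nat.mul_le_mul_left (2 * D) h3
    have h5 : 2 * D * (i0 + c * k + 1) = 2 * D * (i0 + c * k) + 2 * D := by ring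
    simp only [hg]
    omega
  have hgstep : ∀ k, g k + (2 * D * c + ((k + 1) * s) % D) = g (k + 1) + (k * s) % D := by
    intro k
    simp only [hg]
    ring
  have hgmono : ∀ k, g k ≤ g (k + 1) := by
    intro k
    have h1 := hgstep k
    have h2 := hmodlt k
    have h3 : 2 * D * 1 ≤ 2 * D * c := Nat.mul_le_mul_left _ (by omega)
    omega
  have hgmono' : ∀ a b, a ≤ b → g a ≤ g b := by
    intro a b hab
    exact monotone_nat_of_le_succ hgmono hab
  -- degree sums
  have hsumdg : ∀ K, dg r (seg pre (g 0) (g K)) =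
      ∑ k ∈ range K, dg r (seg pre (g k) (g (k + 1))) := by
    intro K
    induction K with
    | zero => simp [seg, dg]
    | succ K ih =>
      rw [Finset.sum_range_succ, ← ih]
      exact dg_seg H (hgmono' _ _ (Nat.zero_le _)) (hgmono K)
  -- untouched segments
  have hunt : ∀ a b, 2 * D * i0 ≤ a → b ≤ 2 * D * (i0 + (c * D + 1)) → ∀ v ∈ seg pre a b,
      ∀ w, r v w → w ∈ A := by
    intro a b ha hb v hv w hvw
    by_contra hw
    -- find the window of v
    have hfind : ∀ m, v ∈ pre (2 * D * (i0 + m)) → v ∉ pre (2 * D * i0) →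
        ∃ i, i0 ≤ i ∧ i < i0 + m ∧ v ∈ seg pre (2 * D * i) (2 * D * (i + 1)) := by
      intro m
      induction m with
      | zero => intro h1 h2; exact absurd h1 h2
      | succ m ih =>
        intro h1 h2
        by_cases h3 : v ∈ pre (2 * D * (i0 + m))
        · obtain ⟨i, k1, k2, k3⟩ := ih h3 h2
          exact ⟨i, k1, by omega, k3⟩
        · refine ⟨i0 + m, by omega, by omega, ?_⟩
          unfold seg
          rw [mem_sdiff]
          exact ⟨h1, h3⟩
    unfold seg at hv
    rw [mem_sdiff] at hv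
    obtain ⟨i, k1, k2, k3⟩ := hfind (c * D + 1) (H.mono _ _ hb hv.1)
      (fun h => hv.2 (H.mono _ _ ha h))
    apply hrun i k1 k2
    rw [hT, mem_filter, mem_range]
    exact ⟨by omega, v, k3, w, hw, hvw⟩
  have hcutle : ∀ a b, 2 * D * i0 ≤ a → b ≤ 2 * D * (i0 + (c * D + 1)) →
      cut r (seg pre a b) ≤ 2 * κ := by
    intro a b ha hb
    have h1 : cut r (seg pre a b) ≤ cut (rst r A) (seg pre a b) := by
      unfold cut
      apply Finset.card_le_card
      intro p hp
      rw [mem_filter] at hp ⊢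
      refine ⟨hp.1, ⟨hp.2.1, seg_sub H a b hp.2.2.1, ?_⟩, hp.2.2⟩
      exact hunt a b ha hb p.1 hp.2.2.1 p.2 hp.2.1
    have h2 := (symSub_cut _ (rst_symm hr A)).sdiff (pre b) (pre a)
    have h3 := H.cut_le a
    have h4 := H.cut_le b
    unfold seg at h1 ⊢
    omega
  have hgrange : ∀ k, k ≤ D → g k ≤ 2 * D * (i0 + (c * D + 1)) := by
    intro k hk
    have h2 := hmodlt k
    have h3 : i0 + c * k + 1 ≤ i0 + (c * D + 1) := by
      have := Nat.mul_le_mul_left c hk
      omega
    have h4 := Nat.mul_le_mul_left (2 * D) h3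
    have h5 : 2 * D * (i0 + c * k + 1) = 2 * D * (i0 + c * k) + 2 * D := by ring
    simp only [hg]
    omega
  have hg0 : g 0 = 2 * D * i0 := by simp [hg]
  have hgD : g D = 2 * D * i0 + 2 * D * (c * D) := by
    simp only [hg]
    rw [Nat.mul_mod_right]
    ring
  have hZcard : (seg pre (g 0) (g D)).card = 2 * D * (c * D) := by
    rw [seg_card H (hgmono' _ _ (Nat.zero_le _)) (hgle D (le_refl _)), hg0, hgD]
    omega
  have hZ : D * dg r (seg pre (g 0) (g D)) ≤ ω * (2 * D * (c * D)) := by
    have h1 := block_bound' r hr hirr (seg pre (g 0) (g D)) (2 * (c * D)) D 0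
      (by
        have : 0 < c * D := Nat.mul_pos (by omega) (by omega)
        omega) (Nat.zero_le _)
      (by rw [hZcard]; ring) (Chn.wid w1 (seg_sub H _ _))
    have h2 := hcutle (g 0) (g D) (by rw [hg0]) (hgrange D (le_refl _))
    have h3 : dg r (seg pre (g 0) (g D)) ≤ 2 * (2 * (c * D)) * κ + 2 * (c * D) * (D * (D - 1)) := by
      rw [dg_eq]
      omega
    calc D * dg r (seg pre (g 0) (g D)) ≤
        D * (2 * (2 * (c * D)) * κ + 2 * (c * D) * (D * (D - 1))) := Nat.mul_le_mul_left _ h3
      _ = ω * (2 * D * (c * D)) := by rw [hω]; ring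
  -- choose k
  obtain ⟨k, hk, hdk⟩ : ∃ k, k < D ∧ D * dg r (seg pre (g k) (g (k + 1))) ≤
      ω * (seg pre (g k) (g (k + 1))).card := by
    by_contra hcon
    push Not at hcon
    have h1 : ∑ k ∈ range D, ω * (seg pre (g k) (g (k + 1))).card <
        ∑ k ∈ range D, D * dg r (seg pre (g k) (g (k + 1))) := by
      apply Finset.sum_lt_sum_of_nonempty
      · exact ⟨0, by rw [mem_range]; omega⟩
      · intro k hk
        rw [mem_range] at hk
        exact hcon k hk
    have h2 : ∀ K, K ≤ D → ∑ k ∈ range K, (seg pre (g k) (g (k + 1))).card = g K - g 0 := by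
      intro K
      induction K with
      | zero => intro _; simp
      | succ K ih =>
        intro hK'
        rw [Finset.sum_range_succ, ih (by omega), seg_card H (hgmono K) (hgle _ hK')]
        have := hgmono' 0 K (Nat.zero_le _)
        have := hgmono K
        omega
    have h3 : g D - g 0 = 2 * D * (c * D) := by rw [hg0, hgD, Nat.add_sub_cancel_left]
    rw [← Finset.mul_sum, ← Finset.mul_sum, ← hsumdg, h2 D (le_refl _), h3] at h1
    exact absurd h1 (not_lt.2 hZ)
  set X := seg pre (g k) (g (k + 1)) with hX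
  have hXcut : cut r X ≤ 2 * κ := hcutle _ _ (by rw [← hg0]; exact hgmono' _ _ (Nat.zero_le _))
    (hgrange _ (by omega))
  have hXcard : X.card + g k = g (k + 1) := by
    rw [hX, seg_card H (hgmono k) (hgle _ (by omega))]
    have := hgmono k
    omega
  -- a perfect window inside
  obtain ⟨i, hi1, hi2, hi3⟩ : ∃ i, g k ≤ 2 * D * i ∧ 2 * D * (i + 1) ≤ g (k + 1) ∧
      2 * κ + 2 * (D * (D - 1)) ≤ e2 r (seg pre (2 * D * i) (2 * D * (i + 1))) := by
    by_contra hcon
    push Not at hcon
    have h1 : (Ico (i0 + c * k + 1) (i0 + c * (k + 1))) ⊆ Bd := by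
      intro i hi
      rw [mem_Ico] at hi
      rw [hBd, mem_filter, mem_range]
      have hckD : c * (k + 1) ≤ c * D := Nat.mul_le_mul_left _ hk
      refine ⟨by omega, hcon i ?_ ?_⟩
      · have h4 := Nat.mul_le_mul_left (2 * D) hi.1
        have h5 : 2 * D * (i0 + c * k + 1) = 2 * D * (i0 + c * k) + 2 * D := by ring
        have h2 := hmodlt k
        simp only [hg]
        omega
      · have h4 := Nat.mul_le_mul_left (2 * D) (show i + 1 ≤ i0 + c * (k + 1) by omega)
        simp only [hg]
        omega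
    have h2 := Finset.card_le_card h1
    rw [Nat.card_Ico] at h2
    have h3 : c * (k + 1) = c * k + c := by ring
    omega
  have hXw : ¬ Wid (cut (rst r X)) (κ - 1) := by
    intro hw
    have hsub : seg pre (2 * D * i) (2 * D * (i + 1)) ⊆ X := seg_mono H hi1 hi2
    have hcard : (seg pre (2 * D * i) (2 * D * (i + 1))).card = 2 * D := by
      rw [seg_card H (Nat.mul_le_mul_left _ (by omega)) (hi2.trans (hgle _ (by omega)))]
      rw [Nat.mul_add, mul_one, Nat.add_sub_cancel_left]
    have := block_bound' r hr hirr _ 2 D 0 (by norm_num) (by norm_num)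
      (by rw [hcard]; ring) (Wid.mono_fun (fun S => cut_rst_mono r hsub S) hw)
    omega
  have hXc : Wid (cut (rst r Xᶜ)) κ := by
    by_contra hcon
    obtain ⟨S, hS, h1, h2⟩ := line_theorem (symSub_cut _ (rst_symm hr X))
      (symSub_cut _ (rst_symm hr Xᶜ)) hXw hcon G
    have h3 := cut_add_le r hirr (X := X) (Y := Xᶜ)
      (fun u v h _ _ _ => by simp_all) S
    have := hK S hS
    omega
  -- the complement has a size divisible by D
  have hXc_card : Xᶜ.card = n - X.card := by rw [Finset.card_compl]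
  have hXle : X.card ≤ A.card := Finset.card_le_card (seg_sub H _ _)
  obtain ⟨j, hj⟩ : D ∣ Xᶜ.card := by
    rw [hXc_card]
    have hXn : X.card ≤ n := Finset.card_le_univ X
    have h1 : X.card + (k * s) % D = 2 * D * c + ((k + 1) * s) % D := by
      have := hgstep k
      omega
    have h2 : (X.card + k * s) % D = ((k + 1) * s) % D := by
      have e1 : (X.card + (k * s) % D) % D = (X.card + k * s) % D := Nat.add_mod_mod _ _ _
      have e2 : (2 * D * c + ((k + 1) * s) % D) % D = ((k + 1) * s) % D := by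
        rw [show 2 * D * c = D * (2 * c) by ring, Nat.mul_add_mod, Nat.mod_mod]
      rw [← e1, h1, e2]
    have h3 : X.card ≡ s [MOD D] := by
      have h4 : X.card + k * s ≡ s + k * s [MOD D] := by
        unfold Nat.ModEq
        rw [h2]
        congr 1
        ring
      exact Nat.ModEq.add_right_cancel' _ h4
    have h5 : X.card ≡ n [MOD D] := h3.trans (Nat.mod_modEq n D)
    exact (Nat.modEq_iff_dvd' hXn).1 h5
  have hj1 : 1 ≤ j := by
    rcases Nat.eq_zero_or_pos j with h | h
    · rw [h, mul_zero] at hj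
      have hn4 : 4 * D * 1 ≤ n := (Nat.mul_le_mul_left _ (by omega)).trans hn
      omega
    · exact h
  have hfin := block_bound' r hr hirr Xᶜ j D 0 hj1 (Nat.zero_le _) (by rw [hj]; ring) hXc
  have s6 := e2_split r hr univ X
  rw [Finset.univ_inter] at s6
  have s7 : univ \ X = Xᶜ := rfl
  rw [s7] at s6
  have s8 : cut (rst r univ) X ≤ cut r X := cut_rst_le _ _ _
  have s9 : e2 r univ + 2 * κ ≤ dg r X + 2 * κ + (2 * j * κ + j * (D * (D - 1))) := by
    rw [dg_eq]
    omega
  have s10 : e2 r univ ≤ dg r X + (2 * j * κ + j * (D * (D - 1))) := by omega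
  calc D * e2 r univ ≤ D * (dg r X + (2 * j * κ + j * (D * (D - 1)))) := Nat.mul_le_mul_left _ s10
    _ = D * dg r X + ω * (D * j) := by rw [hω]; ring
    _ ≤ ω * X.card + ω * (D * j) := Nat.add_le_add_right hdk _
    _ = ω * n := by
      rw [← hj, hXc_card, ← Nat.mul_add]
      congr 1
      have hXn : X.card ≤ n := Finset.card_le_univ X
      omega

end Pool.Agent.H66.GG
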