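import Pool.Agent.H66.GG.Large

/-!
Upper bound within one for large `n` and odd maximal cut (helper66, for MP_b5bf4a_co).
-/

namespace Pool.Agent.H66.GG

open Finset

variable {V : Type*} [Fintype V] [DecidableEq V]

/-- block bound for a set of cutwidth at most `κ+1` without two disjoint sets of width `> κ` -/
lemma odd_bound {r : V → V → Prop} (hr : Symmetric r) (hirr : ∀ v, ¬ r v v) {κ D : ℕ}
    {A : Finset V} (hw : Wid (cut (rst r A)) (κ + 1))
    (hno : ∀ X Y : Finset V, (∀ v, v ∈ X → v ∈ Y → False) → ¬ Wid (cut (rst r X)) κ →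
      ¬ Wid (cut (rst r Y)) κ → False) {j : ℕ} (hj : 1 ≤ j) (hA : A.card = D * j) :
    e2 r A + 2 * κ ≤ 2 * j * κ + j * (D * (D - 1)) + 4 := by
  classical
  obtain ⟨pre, H⟩ := exists_chn hw
  have hpj : pre (D * j) = A := by
    apply Finset.eq_of_subset_of_card_le (H.sub _)
    rw [H.card, hA]; simp
  have hp0 : pre 0 = ∅ := by
    rw [← Finset.card_eq_zero, H.card]; simp
  -- first overfull prefix
  by_cases hAll : Wid (cut (rst r A)) κ
  · have := block_bound' r hr hirr A j D 0 hj (Nat.zero_le _) (by rw [hA]; ring) hAll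
    omega
  have hex : ∃ i, ¬ Wid (cut (rst r (pre (D * i)))) κ := ⟨j, by rw [hpj]; exact hAll⟩
  set i := Nat.find hex with hi
  have hi1 : ¬ Wid (cut (rst r (pre (D * i)))) κ := Nat.find_spec hex
  have hij : i ≤ j := Nat.find_min' hex (by rw [hpj]; exact hAll)
  have hi0 : i ≠ 0 := by
    intro h0
    apply hi1
    rw [h0, mul_zero, hp0]
    obtain ⟨l, l1, l2, l3⟩ := hw
    refine ⟨l, l1, l2, fun k => ?_⟩
    have : cut (rst r (∅ : Finset V)) (l.take k).toFinset = 0 := by
      unfold cut
      rw [Finset.card_eq_zero, Finset.filter_eq_empty_iff]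
      rintro p _ ⟨⟨_, h, _⟩, _⟩
      simp at h
    omega
  obtain ⟨q, hq⟩ : ∃ q, i = q + 1 := ⟨i - 1, by omega⟩
  have hq1 : Wid (cut (rst r (pre (D * q)))) κ := by
    by_contra h
    exact Nat.find_min hex (show q < Nat.find hex by omega) h
  have hsuf : Wid (cut (rst r (seg pre (D * i) (D * j)))) κ := by
    by_contra h
    refine hno _ _ ?_ hi1 h
    intro v h1 h2
    unfold seg at h2
    rw [mem_sdiff] at h2
    exact h2.2 h1
  have hDq : D * q ≤ D * i := Nat.mul_le_mul_left _ (by omega)
  have hDi : D * i ≤ D * j := Nat.mul_le_mul_left _ hij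
  have hAseg : seg pre 0 (D * j) = A := by
    unfold seg
    rw [hp0, hpj, Finset.sdiff_empty]
  have hblk : e2 r (seg pre (D * q) (D * i)) ≤ D * (D - 1) := by
    refine (e2_le r hirr _).trans (le_of_eq ?_)
    rw [seg_card H hDq (by rw [hA]; exact hDi), hq]
    have : D * (q + 1) - D * q = D := by rw [mul_add, mul_one]; omega
    rw [this]
  have hjd : ∃ d, j = i + d := ⟨j - i, by omega⟩
  obtain ⟨d, hd⟩ := hjd
  have hsufcard : (seg pre (D * i) (D * j)).card = d * D + 0 := by
    rw [seg_card H hDi (by rw [hA]), hd, mul_add]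
    rw [Nat.add_sub_cancel_left]; ring
  have hprecard : (pre (D * q)).card = q * D + 0 := by
    rw [H.card, hA, min_eq_left (hDq.trans hDi)]; ring
  have hpreseg : seg pre 0 (D * q) = pre (D * q) := by
    unfold seg
    rw [hp0, Finset.sdiff_empty]
  -- bound for the part from `D q` on
  have b1 : e2 r (seg pre (D * q) (D * j)) ≤ D * (D - 1) + (2 * d * κ + d * (D * (D - 1))) + 2 := by
    rcases Nat.eq_zero_or_pos d with h0 | h0
    · rw [hd, h0, add_zero]
      omega
    · have h1 := e2_seg hr H hDq hDi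
      have h2 := block_bound' r hr hirr _ d D 0 h0 (Nat.zero_le _) hsufcard hsuf
      omega
  have b2 : e2 r A + 2 * κ ≤ e2 r (seg pre (D * q) (D * j)) +
      (2 * q * κ + q * (D * (D - 1))) + 2 * κ + 2 := by
    rcases Nat.eq_zero_or_pos q with h0 | h0
    · rw [← hAseg, h0, mul_zero]
      omega
    · have h1 := e2_seg hr H (Nat.zero_le _) (hDq.trans hDi)
      rw [hAseg, hpreseg] at h1
      have h2 := block_bound' r hr hirr _ q D 0 h0 (Nat.zero_le _) hprecard hq1
      omega
  have e1 : 2 * j * κ + j * (D * (D - 1)) = (2 * q * κ + q * (D * (D - 1))) +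
      (2 * d * κ + d * (D * (D - 1))) + D * (D - 1) + 2 * κ := by
    rw [hd, hq]; ring
  omega

theorem large_odd {r : V → V → Prop} (hr : Symmetric r) (hirr : ∀ v, ¬ r v v) {κ D : ℕ}
    (hκ : 1 ≤ κ) (hD : 1 ≤ D) {x y : V → ℝ} (G : GenPos x y)
    (hK : ∀ S, IsSplit x y S → cut r S ≤ 2 * κ + 1)
    (hn : 4 * D * ((2 * κ + 2) * ((8 * κ + 8 * D * D + 3) * D + 1) + 1) ≤ Fintype.card V) :
    D * e2 r univ ≤ (2 * κ + D * (D - 1)) * Fintype.card V + 4 * D := by
  classical
  obtain ⟨A, hA, hAc, w1, w2⟩ := balanced hr hirr G (κ := κ) hK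
  set n := Fintype.card V with hnd
  set ω := 2 * κ + D * (D - 1) with hω
  obtain ⟨pre, H⟩ := exists_chn w1
  obtain ⟨pre', H'⟩ := exists_chn w2
  have hcc : Aᶜ.card = n - A.card := by rw [Finset.card_compl]
  have hAle : A.card ≤ n := Finset.card_le_univ A
  set M := A.card / (2 * D) with hM
  set M' := Aᶜ.card / (2 * D) with hM'
  set Bd := (range M).filter (fun i =>
      e2 r (seg pre (2 * D * i) (2 * D * (i + 1))) < 2 * κ + 2 * (D * (D - 1))) with hBd
  have s1 := side_bound hr hirr hD w1 H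
  have s2 := side_bound hr hirr hD w2 H'
  rw [← hM, ← hBd, ← hω] at s1
  rw [← hM', ← hω] at s2
  have s3 := e2_split r hr univ A
  rw [Finset.univ_inter] at s3
  have s4 : univ \ A = Aᶜ := rfl
  rw [s4] at s3
  have s5 : cut (rst r univ) A ≤ 2 * κ + 1 := (cut_rst_le _ _ _).trans (hK A hA)
  have hMM : 2 * D * M + 2 * D * M' ≤ n := by
    have h1 : 2 * D * M ≤ A.card := Nat.mul_div_le _ _
    have h2 : 2 * D * M' ≤ Aᶜ.card := Nat.mul_div_le _ _
    omega
  -- case of many bad windows
  rcases Nat.lt_or_ge Bd.card (8 * κ + 8 * D * D) with hB | hB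
  swap
  · have t0 : 8 * D * D = 4 * D * D + 4 * D * D := by ring
    have t1 : e2 r univ ≤ 2 * M * ω + 2 * M' * ω + 2 := by omega
    calc D * e2 r univ ≤ D * (2 * M * ω + 2 * M' * ω + 2) := Nat.mul_le_mul_left _ t1
      _ = ω * (2 * D * M + 2 * D * M') + 2 * D := by ring
      _ ≤ ω * n + 4 * D := Nat.add_le_add (Nat.mul_le_mul_left _ hMM) (by omega)
  -- untouched windows
  set P : ℕ → Prop := fun i => ∃ v, v ∈ seg pre (2 * D * i) (2 * D * (i + 1)) ∧
    ∃ w, w ∉ A ∧ r v w with hP
  set T := (range M).filter P with hT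
  have hTc : T.card ≤ 2 * κ + 1 := by
    refine le_trans ?_ (hK A hA)
    rcases T.eq_empty_or_nonempty with hTe | hTe
    · rw [hTe]; simp
    haveI : Nonempty (V × V) := by
      obtain ⟨i, hi⟩ := hTe
      rw [hT, mem_filter] at hi
      obtain ⟨_, v, _⟩ := hi
      exact ⟨(v, v)⟩
    have hex : ∀ i ∈ T, ∃ p : V × V, p.1 ∈ seg pre (2 * D * i) (2 * D * (i + 1)) ∧ p.2 ∉ A ∧
        r p.1 p.2 := by
      intro i hi
      rw [hT, mem_filter] at hi
      obtain ⟨_, v, hv, w, hw, hvw⟩ := hi
      exact ⟨(v, w), hv, hw, hvw⟩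
    choose! F hF1 hF2 hF3 using hex
    unfold cut
    apply Finset.card_le_card_of_injOn F
    · intro i hi
      rw [mem_coe] at hi ⊢
      rw [mem_filter]
      exact ⟨mem_univ _, hF3 i hi, seg_sub H _ _ (hF1 i hi), hF2 i hi⟩
    · intro i hi j hj hij
      rw [mem_coe] at hi hj
      by_contra hne
      have key : ∀ a b, a ∈ T → b ∈ T → a < b → F a = F b → False := by
        intro a b ha hb hab h
        have h1 := hF1 a ha
        have h2 := hF1 b hb
        rw [← h] at h2
        exact seg_disj H (Nat.mul_le_mul_left _ (by omega)) h1 h2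
      rcases lt_or_gt_of_ne hne with h | h
      · exact key _ _ hi hj h hij
      · exact key _ _ hj hi h hij.symm
  set c := 8 * κ + 8 * D * D + 2 with hc
  obtain ⟨i0, hi0, hrun⟩ := exists_run T (2 * κ + 1) (c * D + 1) hTc
  rw [show 2 * κ + 1 + 1 = 2 * κ + 2 by ring] at hi0
  have hrunM : i0 + (c * D + 1) ≤ M := by
    have h1 : (2 * κ + 2) * (c * D + 1) ≤ M := by
      rw [hM, Nat.le_div_iff_mul_le (by omega), hAc, Nat.le_div_iff_mul_le (by norm_num)]
      refine le_trans ?_ hn
      have h2 : (2 * κ + 2) * (c * D + 1) ≤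
          (2 * κ + 2) * ((8 * κ + 8 * D * D + 3) * D + 1) + 1 := by
        have : c * D + 1 ≤ (8 * κ + 8 * D * D + 3) * D + 1 := by
          have := Nat.mul_le_mul_right D (show c ≤ 8 * κ + 8 * D * D + 3 by omega)
          omega
        have := Nat.mul_le_mul_left (2 * κ + 2) this
        omega
      calc (2 * κ + 2) * (c * D + 1) * (2 * D) * 2 = 4 * D * ((2 * κ + 2) * (c * D + 1)) := by ring
        _ ≤ _ := Nat.mul_le_mul_left _ h2
    omega
  -- the chain
  set s := n % D with hs
  set g : ℕ → ℕ := fun k => 2 * D * (i0 + c * k) + (k * s) % D with hg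
  have hmodlt : ∀ k, (k * s) % D < D := fun k => Nat.mod_lt _ (by omega)
  have hgle : ∀ k, k ≤ D → g k ≤ A.card := by
    intro k hk
    have h1 : 2 * D * M ≤ A.card := Nat.mul_div_le _ _
    have h2 := hmodlt k
    have h3 : i0 + c * k + 1 ≤ M := by
      have := Nat.mul_le_mul_left c hk
      omega
    have h4 := Nat.mul_le_mul_left (2 * D) h3
    have h5 : 2 * D * (i0 + c * k + 1) = 2 * D * (i0 + c * k) + 2 * D := by ring
    simp only [hg]
    omega
  have hgstep : ∀ k, g k + (2 * D * c + ((k + 1) * s) % D) = g (k + 1) + (k * s) % D := by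
    intro k
    simp only [hg]
    ring
  have hgmono : ∀ k, g k ≤ g (k + 1) := by
    intro k
    have h1 := hgstep k
    have h2 := hmodlt k
    have h3 : 2 * D * 1 ≤ 2 * D * c := Nat.mul_le_mul_left _ (by omega)
    omega
  have hgmono' : ∀ a b, a ≤ b → g a ≤ g b := by
    intro a b hab
    exact monotone_nat_of_le_succ hgmono hab
  -- degree sums
  have hsumdg : ∀ K, dg r (seg pre (g 0) (g K)) =
      ∑ k ∈ range K, dg r (seg pre (g k) (g (k + 1))) := by
    intro K
    induction K with
    | zero => simp [seg, dg]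
    | succ K ih =>
      rw [Finset.sum_range_succ, ← ih]
      exact dg_seg H (hgmono' _ _ (Nat.zero_le _)) (hgmono K)
  -- untouched segments
  have hunt : ∀ a b, 2 * D * i0 ≤ a → b ≤ 2 * D * (i0 + (c * D + 1)) → ∀ v ∈ seg pre a b,
      ∀ w, r v w → w ∈ A := by
    intro a b ha hb v hv w hvw
    by_contra hw
    -- find the window of v
    have hfind : ∀ m, v ∈ pre (2 * D * (i0 + m)) → v ∉ pre (2 * D * i0) →
        ∃ i, i0 ≤ i ∧ i < i0 + m ∧ v ∈ seg pre (2 * D * i) (2 * D * (i + 1)) := by
      intro m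
      induction m with
      | zero => intro h1 h2; exact absurd h1 h2
      | succ m ih =>
        intro h1 h2
        by_cases h3 : v ∈ pre (2 * D * (i0 + m))
        · obtain ⟨i, k1, k2, k3⟩ := ih h3 h2
          exact ⟨i, k1, by omega, k3⟩
        · refine ⟨i0 + m, by omega, by omega, ?_⟩
          unfold seg
          rw [mem_sdiff]
          exact ⟨h1, h3⟩
    unfold seg at hv
    rw [mem_sdiff] at hv
    obtain ⟨i, k1, k2, k3⟩ := hfind (c * D + 1) (H.mono _ _ hb hv.1)
      (fun h => hv.2 (H.mono _ _ ha h))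
    apply hrun i k1 k2
    rw [hT, mem_filter, mem_range]
    exact ⟨by omega, v, k3, w, hw, hvw⟩
  have hcutle : ∀ a b, 2 * D * i0 ≤ a → b ≤ 2 * D * (i0 + (c * D + 1)) →
      cut r (seg pre a b) ≤ 2 * κ := by
    intro a b ha hb
    have h1 : cut r (seg pre a b) ≤ cut (rst r A) (seg pre a b) := by
      unfold cut
      apply Finset.card_le_card
      intro p hp
      rw [mem_filter] at hp ⊢
      refine ⟨hp.1, ⟨hp.2.1, seg_sub H a b hp.2.2.1, ?_⟩, hp.2.2⟩
      exact hunt a b ha hb p.1 hp.2.2.1 p.2 hp.2.1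
    have h2 := (symSub_cut _ (rst_symm hr A)).sdiff (pre b) (pre a)
    have h3 := H.cut_le a
    have h4 := H.cut_le b
    unfold seg at h1 ⊢
    omega
  have hgrange : ∀ k, k ≤ D → g k ≤ 2 * D * (i0 + (c * D + 1)) := by
    intro k hk
    have h2 := hmodlt k
    have h3 : i0 + c * k + 1 ≤ i0 + (c * D + 1) := by
      have := Nat.mul_le_mul_left c hk
      omega
    have h4 := Nat.mul_le_mul_left (2 * D) h3
    have h5 : 2 * D * (i0 + c * k + 1) = 2 * D * (i0 + c * k) + 2 * D := by ring
    simp only [hg]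
    omega
  have hg0 : g 0 = 2 * D * i0 := by simp [hg]
  have hgD : g D = 2 * D * i0 + 2 * D * (c * D) := by
    simp only [hg]
    rw [Nat.mul_mod_right]
    ring
  have hZcard : (seg pre (g 0) (g D)).card = 2 * D * (c * D) := by
    rw [seg_card H (hgmono' _ _ (Nat.zero_le _)) (hgle D (le_refl _)), hg0, hgD]
    omega
  have hZ : D * dg r (seg pre (g 0) (g D)) ≤ ω * (2 * D * (c * D)) := by
    have h1 := block_bound' r hr hirr (seg pre (g 0) (g D)) (2 * (c * D)) D 0
      (by
        have : 0 < c * D := Nat.mul_pos (by omega) (by omega)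
        omega) (Nat.zero_le _)
      (by rw [hZcard]; ring) (Chn.wid w1 (seg_sub H _ _))
    have h2 := hcutle (g 0) (g D) (by rw [hg0]) (hgrange D (le_refl _))
    have h3 : dg r (seg pre (g 0) (g D)) ≤ 2 * (2 * (c * D)) * κ + 2 * (c * D) * (D * (D - 1)) := by
      rw [dg_eq]
      omega
    calc D * dg r (seg pre (g 0) (g D)) ≤
        D * (2 * (2 * (c * D)) * κ + 2 * (c * D) * (D * (D - 1))) := Nat.mul_le_mul_left _ h3
      _ = ω * (2 * D * (c * D)) := by rw [hω]; ring
  -- choose k
  obtain ⟨k, hk, hdk⟩ : ∃ k, k < D ∧ D * dg r (seg pre (g k) (g (k + 1))) ≤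
      ω * (seg pre (g k) (g (k + 1))).card := by
    by_contra hcon
    push Not at hcon
    have h1 : ∑ k ∈ range D, ω * (seg pre (g k) (g (k + 1))).card <
        ∑ k ∈ range D, D * dg r (seg pre (g k) (g (k + 1))) := by
      apply Finset.sum_lt_sum_of_nonempty
      · exact ⟨0, by rw [mem_range]; omega⟩
      · intro k hk
        rw [mem_range] at hk
        exact hcon k hk
    have h2 : ∀ K, K ≤ D → ∑ k ∈ range K, (seg pre (g k) (g (k + 1))).card = g K - g 0 := by
      intro K
      induction K with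
      | zero => intro _; simp
      | succ K ih =>
        intro hK'
        rw [Finset.sum_range_succ, ih (by omega), seg_card H (hgmono K) (hgle _ hK')]
        have := hgmono' 0 K (Nat.zero_le _)
        have := hgmono K
        omega
    have h3 : g D - g 0 = 2 * D * (c * D) := by rw [hg0, hgD, Nat.add_sub_cancel_left]
    rw [← Finset.mul_sum, ← Finset.mul_sum, ← hsumdg, h2 D (le_refl _), h3] at h1
    exact absurd h1 (not_lt.2 hZ)
  set X := seg pre (g k) (g (k + 1)) with hX
  have hXcut : cut r X ≤ 2 * κ := hcutle _ _ (by rw [← hg0]; exact hgmono' _ _ (Nat.zero_le _))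
    (hgrange _ (by omega))
  have hXcard : X.card + g k = g (k + 1) := by
    rw [hX, seg_card H (hgmono k) (hgle _ (by omega))]
    have := hgmono k
    omega
  -- a perfect window inside
  obtain ⟨i, hi1, hi2, hi3⟩ : ∃ i, g k ≤ 2 * D * i ∧ 2 * D * (i + 1) ≤ g (k + 1) ∧
      2 * κ + 2 * (D * (D - 1)) ≤ e2 r (seg pre (2 * D * i) (2 * D * (i + 1))) := by
    by_contra hcon
    push Not at hcon
    have h1 : (Ico (i0 + c * k + 1) (i0 + c * (k + 1))) ⊆ Bd := by
      intro i hi
      rw [mem_Ico] at hi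
      rw [hBd, mem_filter, mem_range]
      have hckD : c * (k + 1) ≤ c * D := Nat.mul_le_mul_left _ hk
      refine ⟨by omega, hcon i ?_ ?_⟩
      · have h4 := Nat.mul_le_mul_left (2 * D) hi.1
        have h5 : 2 * D * (i0 + c * k + 1) = 2 * D * (i0 + c * k) + 2 * D := by ring
        have h2 := hmodlt k
        simp only [hg]
        omega
      · have h4 := Nat.mul_le_mul_left (2 * D) (show i + 1 ≤ i0 + c * (k + 1) by omega)
        simp only [hg]
        omega
    have h2 := Finset.card_le_card h1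
    rw [Nat.card_Ico] at h2
    have h3 : c * (k + 1) = c * k + c := by ring
    omega
  have hXw : ¬ Wid (cut (rst r X)) (κ - 1) := by
    intro hw
    have hsub : seg pre (2 * D * i) (2 * D * (i + 1)) ⊆ X := seg_mono H hi1 hi2
    have hcard : (seg pre (2 * D * i) (2 * D * (i + 1))).card = 2 * D := by
      rw [seg_card H (Nat.mul_le_mul_left _ (by omega)) (hi2.trans (hgle _ (by omega)))]
      rw [Nat.mul_add, mul_one, Nat.add_sub_cancel_left]
    have := block_bound' r hr hirr _ 2 D 0 (by norm_num) (by norm_num)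
      (by rw [hcard]; ring) (Wid.mono_fun (fun S => cut_rst_mono r hsub S) hw)
    omega
  have hXc : Wid (cut (rst r Xᶜ)) (κ + 1) := by
    by_contra hcon
    obtain ⟨S, hS, h1, h2⟩ := line_theorem (symSub_cut _ (rst_symm hr X))
      (symSub_cut _ (rst_symm hr Xᶜ)) hXw hcon G
    have h3 := cut_add_le r hirr (X := X) (Y := Xᶜ)
      (fun u v h _ _ _ => by simp_all) S
    have := hK S hS
    omega
  -- the complement has a size divisible by D
  have hXc_card : Xᶜ.card = n - X.card := by rw [Finset.card_compl]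
  have hXle : X.card ≤ A.card := Finset.card_le_card (seg_sub H _ _)
  obtain ⟨j, hj⟩ : D ∣ Xᶜ.card := by
    rw [hXc_card]
    have hXn : X.card ≤ n := Finset.card_le_univ X
    have h1 : X.card + (k * s) % D = 2 * D * c + ((k + 1) * s) % D := by
      have := hgstep k
      omega
    have h2 : (X.card + k * s) % D = ((k + 1) * s) % D := by
      have e1 : (X.card + (k * s) % D) % D = (X.card + k * s) % D := Nat.add_mod_mod _ _ _
      have e2 : (2 * D * c + ((k + 1) * s) % D) % D = ((k + 1) * s) % D := by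
        rw [show 2 * D * c = D * (2 * c) by ring, Nat.mul_add_mod, Nat.mod_mod]
      rw [← e1, h1, e2]
    have h3 : X.card ≡ s [MOD D] := by
      have h4 : X.card + k * s ≡ s + k * s [MOD D] := by
        unfold Nat.ModEq
        rw [h2]
        congr 1
        ring
      exact Nat.ModEq.add_right_cancel' _ h4
    have h5 : X.card ≡ n [MOD D] := h3.trans (Nat.mod_modEq n D)
    exact (Nat.modEq_iff_dvd' hXn).1 h5
  have hj1 : 1 ≤ j := by
    rcases Nat.eq_zero_or_pos j with h | h
    · rw [h, mul_zero] at hj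
      have hn4 : 4 * D * 1 ≤ n := (Nat.mul_le_mul_left _ (by omega)).trans hn
      omega
    · exact h
  have hfin := odd_bound hr hirr hXc (fun X Y h1 h2 h3 =>
    not_both_over hr hirr G hK (fun u v hu hu' _ _ => (h1 u hu hu').elim) h2 h3) hj1 hj
  have s6 := e2_split r hr univ X
  rw [Finset.univ_inter] at s6
  have s7 : univ \ X = Xᶜ := rfl
  rw [s7] at s6
  have s8 : cut (rst r univ) X ≤ cut r X := cut_rst_le _ _ _
  have s9 : e2 r univ + 2 * κ ≤ dg r X + 2 * κ + (2 * j * κ + j * (D * (D - 1))) + 4 := by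
    rw [dg_eq]
    omega
  have s10 : e2 r univ ≤ dg r X + (2 * j * κ + j * (D * (D - 1))) + 4 := by omega
  calc D * e2 r univ ≤ D * (dg r X + (2 * j * κ + j * (D * (D - 1))) + 4) :=
        Nat.mul_le_mul_left _ s10
    _ = D * dg r X + ω * (D * j) + 4 * D := by rw [hω]; ring
    _ ≤ ω * X.card + ω * (D * j) + 4 * D := by
        have := hdk
        omega
    _ = ω * n + 4 * D := by
      rw [← hj, hXc_card, ← Nat.mul_add]
      congr 2
      have hXn : X.card ≤ n := Finset.card_le_univ X
      omega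

end Pool.Agent.H66.GG
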