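import Pool.Agent.H66.GG.Sub

/-!
The line theorem for two symmetric submodular functions (helper66, for MP_b5bf4a_co).
-/

namespace Pool.Agent.H66.GG

open Finset

/-- telescoping along an injective real function -/
lemma telescope {W M : Type*} [DecidableEq W] [AddCommGroup M] (s : W → ℝ) (Φ : Finset W → M)
    (C : Finset W) : Set.InjOn s C →
    ∑ w ∈ C, (Φ (C.filter (fun w' => s w' ≤ s w)) - Φ (C.filter (fun w' => s w' < s w))) =
      Φ C - Φ ∅ := by
  classical
  induction C using Finset.induction_on_max_value s with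
  | empty => intro _; simp
  | insert a C haC hmax ih =>
    intro hinj
    have hinj' : Set.InjOn s C := hinj.mono (by simp)
    have hlt : ∀ x ∈ C, s x < s a := by
      intro x hx
      refine lt_of_le_of_ne (hmax x hx) ?_
      intro h
      have := hinj (by simp [hx]) (by simp) h
      subst this
      exact haC hx
    rw [Finset.sum_insert haC]
    have e1 : (insert a C).filter (fun w' => s w' ≤ s a) = insert a C := by
      apply Finset.filter_true_of_mem
      intro x hx
      rcases mem_insert.1 hx with rfl | hx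
      · exact le_refl _
      · exact (hlt x hx).le
    have e2 : (insert a C).filter (fun w' => s w' < s a) = C := by
      ext x
      simp only [mem_filter, mem_insert]
      constructor
      · rintro ⟨rfl | hx, h⟩
        · exact absurd h (lt_irrefl _)
        · exact hx
      · intro hx; exact ⟨Or.inr hx, hlt x hx⟩
    have e3 : ∑ w ∈ C, (Φ ((insert a C).filter (fun w' => s w' ≤ s w)) -
        Φ ((insert a C).filter (fun w' => s w' < s w))) = Φ C - Φ ∅ := by
      rw [← ih hinj']
      apply Finset.sum_congr rfl
      intro w hw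
      have f1 : (insert a C).filter (fun w' => s w' ≤ s w) = C.filter (fun w' => s w' ≤ s w) := by
        rw [Finset.filter_insert, if_neg (not_le.2 (hlt w hw))]
      have f2 : (insert a C).filter (fun w' => s w' < s w) = C.filter (fun w' => s w' < s w) := by
        rw [Finset.filter_insert, if_neg (not_lt.2 (hlt w hw).le)]
      rw [f1, f2]
    rw [e1, e2, e3]
    abel

variable {V : Type*} [Fintype V] [DecidableEq V]

/-- `S` is cut off by a line missing all the points `(x v, y v)`. -/
def IsSplit (x y : V → ℝ) (S : Finset V) : Prop :=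
  ∃ α β γ : ℝ, ∀ v, (v ∈ S → α * x v + β * y v < γ) ∧ (v ∉ S → γ < α * x v + β * y v)

omit [DecidableEq V] in
lemma isSplit_perturb (x y : V → ℝ) (α β γ α' β' δ : ℝ) (S : Finset V)
    (h1 : ∀ v, α * x v + β * y v < γ → v ∈ S) (h2 : ∀ v, γ < α * x v + β * y v → v ∉ S)
    (h3 : ∀ v, α * x v + β * y v = γ → (v ∈ S → α' * x v + β' * y v < δ) ∧
      (v ∉ S → δ < α' * x v + β' * y v)) : IsSplit x y S := by
  have hev : ∀ᶠ ε in nhdsWithin (0 : ℝ) (Set.Ioi 0), ∀ v,
      (v ∈ S → (α + ε * α') * x v + (β + ε * β') * y v < γ + ε * δ) ∧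
      (v ∉ S → γ + ε * δ < (α + ε * α') * x v + (β + ε * β') * y v) := by
    rw [Filter.eventually_all]
    intro v
    have hc : Filter.Tendsto (fun ε : ℝ => (α + ε * α') * x v + (β + ε * β') * y v - (γ + ε * δ))
        (nhdsWithin (0 : ℝ) (Set.Ioi 0)) (nhds (α * x v + β * y v - γ)) := by
      have hcont : Continuous (fun ε : ℝ => (α + ε * α') * x v + (β + ε * β') * y v -
        (γ + ε * δ)) := by fun_prop
      have := (hcont.tendsto 0).mono_left (nhdsWithin_le_nhds (s := Set.Ioi 0))
      simpa using this
    rcases lt_trichotomy (α * x v + β * y v) γ with h | h | h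
    · have hS := h1 v h
      have := hc.eventually (gt_mem_nhds (sub_neg.2 h))
      filter_upwards [this] with ε hε
      exact ⟨fun _ => by linarith, fun hn => absurd hS hn⟩
    · filter_upwards [self_mem_nhdsWithin] with ε hε
      have hε : 0 < ε := hε
      obtain ⟨k1, k2⟩ := h3 v h
      constructor
      · intro hS
        have := mul_lt_mul_of_pos_left (k1 hS) hε
        nlinarith
      · intro hS
        have := mul_lt_mul_of_pos_left (k2 hS) hε
        nlinarith
    · have hS := h2 v h
      have := hc.eventually (lt_mem_nhds (sub_pos.2 h))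
      filter_upwards [this] with ε hε
      exact ⟨fun hn => absurd hn hS, fun _ => by linarith⟩
  obtain ⟨ε, hε⟩ := hev.exists
  exact ⟨_, _, _, hε⟩

section labels

/-- the cochain on labels -/
def qb (p r : Bool × Bool) : Bool := (p.1 && p.2 && !r.1 && r.2) || (!p.1 && p.2 && r.1 && r.2)

/-- the potential on labels -/
def gb (p : Bool × Bool) : Bool := (p.1 && p.2) || (!p.1 && !p.2)

/-- Boolean to ZMod 2 -/
def bz (c : Bool) : ZMod 2 := if c then 1 else 0

lemma bz_xor (c d : Bool) : bz (xor c d) = bz c + bz d := by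
  revert c d; decide

lemma bool_square : ∀ a0 b0 a1 b1 a2 b2 a3 b3 : Bool,
    (a0 = a1 → b0 = b1) → (a0 = a2 → b0 = b2) → (a2 = a3 → b2 = b3) → (a1 = a3 → b1 = b3) →
    (a0 ≠ a1 → a0 = a3 → a1 = a2 → (b1 = b2 ∨ b0 = b3)) →
    xor (xor (qb (a0, b0) (a1, b1)) (qb (a2, b2) (a3, b3)))
      (xor (qb (a0, b0) (a2, b2)) (qb (a1, b1) (a3, b3))) = false := by
  decide

lemma bool_compl : ∀ a0 b0 a1 b1 : Bool, (a0 = a1 → b0 = b1) →
    xor (qb (a0, b0) (a1, b1)) (qb (a0, !b0) (a1, !b1)) = xor (gb (a0, b0)) (gb (a1, b1)) := by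
  decide

variable (lab : Finset V → Bool × Bool)

/-- the mod 2 cochain -/
def qq (A B : Finset V) : ZMod 2 := bz (qb (lab A) (lab B))

/-- the potential -/
def gg (A : Finset V) : ZMod 2 := bz (gb (lab A))

lemma qb_comm : ∀ p r, qb p r = qb r p := by decide

omit [Fintype V] [DecidableEq V] in
lemma qq_comm (A B : Finset V) : qq lab A B = qq lab B A := by
  unfold qq
  rw [qb_comm]

variable {lab}

/-- the labelling conditions on the splits by lines -/
structure GoodLab (x y : V → ℝ) (lab : Finset V → Bool × Bool) : Prop where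
  comp : ∀ A, IsSplit x y A → lab Aᶜ = ((lab A).1, !(lab A).2)
  adj : ∀ A v, v ∉ A → IsSplit x y A → IsSplit x y (insert v A) →
    (lab A).1 = (lab (insert v A)).1 → (lab A).2 = (lab (insert v A)).2
  sq : ∀ Y v w, v ∉ Y → w ∉ Y → v ≠ w → IsSplit x y Y → IsSplit x y (insert v Y) →
    IsSplit x y (insert w Y) → IsSplit x y (insert v (insert w Y)) →
    (lab Y).1 ≠ (lab (insert v Y)).1 → (lab Y).1 = (lab (insert v (insert w Y))).1 →
    (lab (insert v Y)).1 = (lab (insert w Y)).1 →
    ((lab (insert v Y)).2 = (lab (insert w Y)).2 ∨ (lab Y).2 = (lab (insert v (insert w Y))).2)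

lemma qq_add_compl {x y : V → ℝ} (H : GoodLab x y lab) {A : Finset V} {v : V}
    (hv : v ∉ A) (gA : IsSplit x y A) (gB : IsSplit x y (insert v A)) :
    qq lab A (insert v A) + qq lab Aᶜ (insert v A)ᶜ = gg lab A + gg lab (insert v A) := by
  have hadj := H.adj A v hv gA gB
  unfold qq gg
  rw [H.comp A gA, H.comp _ gB, ← bz_xor, ← bz_xor]
  generalize lab A = p at *
  generalize lab (insert v A) = r at *
  obtain ⟨a0, b0⟩ := p
  obtain ⟨a1, b1⟩ := r
  rw [bool_compl a0 b0 a1 b1 hadj]

lemma qq_square {x y : V → ℝ} (H : GoodLab x y lab) {Y : Finset V} {v w : V}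
    (hv : v ∉ Y) (hw : w ∉ Y) (hvw : v ≠ w)
    (g0 : IsSplit x y Y) (gv : IsSplit x y (insert v Y))
    (gw : IsSplit x y (insert w Y))
    (gvw : IsSplit x y (insert v (insert w Y))) :
    qq lab Y (insert v Y) + qq lab (insert w Y) (insert v (insert w Y)) +
      (qq lab Y (insert w Y) + qq lab (insert v Y) (insert v (insert w Y))) = 0 := by
  have hvw' : v ∉ insert w Y := by simp [hvw, hv]
  have hwv' : w ∉ insert v Y := by simp [hvw.symm, hw]
  have hcomm : insert w (insert v Y) = insert v (insert w Y) := Finset.insert_comm _ _ _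
  have gwv : IsSplit x y (insert w (insert v Y)) := by
    rw [hcomm]; exact gvw
  have a1 := H.adj _ _ hv g0 gv
  have a2 := H.adj _ _ hw g0 gw
  have a3 := H.adj _ _ hvw' gw gvw
  have a4 := H.adj _ _ hwv' gv gwv
  have a5 := H.sq Y v w hv hw hvw g0 gv gw gvw
  rw [hcomm] at a4
  unfold qq
  rw [← bz_xor, ← bz_xor, ← bz_xor]
  clear g0 gv gw gvw gwv
  generalize lab Y = p0 at *
  generalize lab (insert v Y) = p1 at *
  generalize lab (insert w Y) = p2 at *
  generalize lab (insert v (insert w Y)) = p3 at *
  obtain ⟨a0, b0⟩ := p0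
  obtain ⟨a1', b1⟩ := p1
  obtain ⟨a2', b2⟩ := p2
  obtain ⟨a3', b3⟩ := p3
  rw [bool_square a0 b0 a1' b1 a2' b2 a3' b3 a1 a2 a3 a4 a5]
  rfl

end labels

/-- slope at which `v` and `w` have the same value -/
noncomputable def slp (x y : V → ℝ) (v w : V) : ℝ := -(x v - x w) / (y v - y w)

omit [Fintype V] [DecidableEq V] in
lemma slp_comm (x y : V → ℝ) (v w : V) : slp x y v w = slp x y w v := by
  unfold slp
  rw [show y v - y w = -(y w - y v) by ring, show x v - x w = -(x w - x v) by ring, div_neg,
    neg_neg, neg_div]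

omit [Fintype V] [DecidableEq V] in
lemma slp_spec {x y : V → ℝ} {v w : V} (h : y v ≠ y w) (s : ℝ) :
    (x w + s * y w) - (x v + s * y v) = (y w - y v) * (s - slp x y v w) := by
  have h' : y v - y w ≠ 0 := sub_ne_zero.2 h
  unfold slp
  field_simp
  ring


/-- the points before `v` in direction `(1, s)`, `s` the critical slope of `v, w` -/
noncomputable def YY (x y : V → ℝ) (v w : V) : Finset V := by
  classical
  exact univ.filter (fun z => x z + slp x y v w * y z < x v + slp x y v w * y v)

omit [DecidableEq V] in
lemma mem_YY {x y : V → ℝ} {v w z : V} :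
    z ∈ YY x y v w ↔ x z + slp x y v w * y z < x v + slp x y v w * y v := by
  unfold YY; simp

omit [Fintype V] [DecidableEq V] in
lemma slp_eq {x y : V → ℝ} {v w : V} (h : y v ≠ y w) :
    x w + slp x y v w * y w = x v + slp x y v w * y v := by
  have := slp_spec (x := x) h (slp x y v w)
  rw [sub_self, mul_zero] at this
  linarith

omit [DecidableEq V] in
lemma YY_comm {x y : V → ℝ} {v w : V} (h : y v ≠ y w) : YY x y v w = YY x y w v := by
  ext z
  rw [mem_YY, mem_YY, slp_comm x y w v, slp_eq h]

omit [DecidableEq V] in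
lemma left_nmem_YY {x y : V → ℝ} {v w : V} : v ∉ YY x y v w := by
  rw [mem_YY]; exact lt_irrefl _

omit [DecidableEq V] in
lemma right_nmem_YY {x y : V → ℝ} {v w : V} (h : y v ≠ y w) : w ∉ YY x y v w := by
  rw [mem_YY, slp_eq h]; exact lt_irrefl _

/-- general position: the heights are distinct and the slopes at each point are distinct -/
structure GenPos (x y : V → ℝ) : Prop where
  inj : Function.Injective y
  slp_ne : ∀ v w z : V, w ≠ v → z ≠ v → w ≠ z → slp x y v w ≠ slp x y v z

omit [Fintype V] [DecidableEq V] in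
lemma GenPos.on_line {x y : V → ℝ} (G : GenPos x y) {v w z : V} (hvw : v ≠ w)
    (h : x z + slp x y v w * y z = x v + slp x y v w * y v) : z = v ∨ z = w := by
  by_contra hcon
  push Not at hcon
  obtain ⟨hz, hz'⟩ := hcon
  have hy : y v ≠ y z := fun e => hz (G.inj e).symm
  have h2 := slp_spec (x := x) hy (slp x y v w)
  rw [h, sub_self] at h2
  have h3 : y z - y v ≠ 0 := sub_ne_zero.2 hy.symm
  have h4 : slp x y v w - slp x y v z = 0 := by
    rcases mul_eq_zero.1 h2.symm with h5 | h5
    · exact absurd h5 h3
    · exact h5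
  exact G.slp_ne v w z hvw.symm hz (fun e => hz' e.symm) (sub_eq_zero.1 h4)

lemma isSplit_YY {x y : V → ℝ} (G : GenPos x y) {v w : V} (hvw : v ≠ w) :
    IsSplit x y (YY x y v w) ∧ IsSplit x y (insert v (YY x y v w)) ∧
      IsSplit x y (insert w (YY x y v w)) ∧ IsSplit x y (insert v (insert w (YY x y v w))) := by
  have hy : y v ≠ y w := fun e => hvw (G.inj e)
  have hv := left_nmem_YY (x := x) (y := y) (v := v) (w := w)
  have hw := right_nmem_YY (x := x) hy
  set s := slp x y v w with hs
  have hd : 0 < (y w - y v) * (y w - y v) := by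
    have : y w - y v ≠ 0 := sub_ne_zero.2 hy.symm
    exact mul_self_pos.2 this
  have e1 : ∀ z, 1 * x z + s * y z < x v + s * y v → z ∈ YY x y v w := by
    intro z hz; rw [mem_YY]; simpa using hz
  have e2 : ∀ z, x v + s * y v < 1 * x z + s * y z → z ∉ YY x y v w := by
    intro z hz; rw [mem_YY, not_lt]; rw [one_mul] at hz; exact hz.le
  have e3 : ∀ z, 1 * x z + s * y z = x v + s * y v → z = v ∨ z = w := by
    intro z hz; rw [one_mul] at hz; exact G.on_line hvw hz
  have nev : ∀ z, x v + s * y v < 1 * x z + s * y z → z ≠ v := by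
    rintro z hz rfl; rw [one_mul] at hz; exact lt_irrefl _ hz
  have new : ∀ z, x v + s * y v < 1 * x z + s * y z → z ≠ w := by
    rintro z hz rfl; rw [one_mul, slp_eq hy] at hz; exact lt_irrefl _ hz
  refine ⟨?_, ?_, ?_, ?_⟩
  · apply isSplit_perturb x y 1 s (x v + s * y v) 0 0 (-1) _ e1 e2
    intro z hz
    rcases e3 z hz with rfl | rfl
    · exact ⟨fun h => absurd h hv, fun _ => by norm_num⟩
    · exact ⟨fun h => absurd h hw, fun _ => by norm_num⟩
  · apply isSplit_perturb x y 1 s (x v + s * y v) 0 (y w - y v)
      ((y w - y v) * ((y v + y w) / 2)) _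
    · intro z hz; exact mem_insert_of_mem (e1 z hz)
    · intro z hz h
      rcases mem_insert.1 h with h | h
      · exact nev z hz h
      · exact e2 z hz h
    · intro z hz
      rcases e3 z hz with rfl | rfl
      · exact ⟨fun _ => by nlinarith, fun h => absurd (mem_insert_self _ _) h⟩
      · refine ⟨fun h => ?_, fun _ => by nlinarith⟩
        rcases mem_insert.1 h with h | h
        · exact absurd h hvw.symm
        · exact absurd h hw
  · apply isSplit_perturb x y 1 s (x v + s * y v) 0 (y v - y w)
      ((y v - y w) * ((y v + y w) / 2)) _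
    · intro z hz; exact mem_insert_of_mem (e1 z hz)
    · intro z hz h
      rcases mem_insert.1 h with h | h
      · exact new z hz h
      · exact e2 z hz h
    · intro z hz
      rcases e3 z hz with rfl | rfl
      · refine ⟨fun h => ?_, fun _ => by nlinarith⟩
        rcases mem_insert.1 h with h | h
        · exact absurd h hvw
        · exact absurd h hv
      · exact ⟨fun _ => by nlinarith, fun h => absurd (mem_insert_self _ _) h⟩
  · apply isSplit_perturb x y 1 s (x v + s * y v) 0 0 1 _
    · intro z hz; exact mem_insert_of_mem (mem_insert_of_mem (e1 z hz))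
    · intro z hz h
      rcases mem_insert.1 h with h | h
      · exact nev z hz h
      · rcases mem_insert.1 h with h | h
        · exact new z hz h
        · exact e2 z hz h
    · intro z hz
      rcases e3 z hz with rfl | rfl
      · exact ⟨fun _ => by norm_num, fun h => absurd (mem_insert_self _ _) h⟩
      · exact ⟨fun _ => by norm_num,
          fun h => absurd (mem_insert_of_mem (mem_insert_self _ _)) h⟩

omit [DecidableEq V] in
lemma isSplit_low {x y : V → ℝ} (v : V) :
    IsSplit x y (univ.filter (fun z => y z < y v)) ∧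
      IsSplit x y (univ.filter (fun z => y z ≤ y v)) := by
  constructor
  · apply isSplit_perturb x y 0 1 (y v) 0 0 (-1)
    · intro z hz; simpa using hz
    · intro z hz; simp at hz ⊢; exact hz.le
    · intro z hz
      simp at hz
      simp [hz]
  · apply isSplit_perturb x y 0 1 (y v) 0 0 1
    · intro z hz; simp at hz ⊢; exact hz.le
    · intro z hz; simp at hz ⊢; exact hz
    · intro z hz
      simp at hz
      simp [hz]

/-- the set before `v` encoded by the set of passed slopes -/
noncomputable def St (y : V → ℝ) (v : V) (D : Finset V) : Finset V := by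
  classical
  exact univ.filter (fun z => (y v < y z ∧ z ∉ D) ∨ (y z < y v ∧ z ∈ D))

lemma mem_St {y : V → ℝ} {v z : V} {D : Finset V} :
    z ∈ St y v D ↔ (y v < y z ∧ z ∉ D) ∨ (y z < y v ∧ z ∈ D) := by
  unfold St; simp

omit [DecidableEq V] in
lemma lt_iff_slp {x y : V → ℝ} {v z : V} (h : y v ≠ y z) (s : ℝ) :
    x z + s * y z < x v + s * y v ↔
      (y v < y z ∧ s < slp x y v z) ∨ (y z < y v ∧ slp x y v z < s) := by
  have h2 := slp_spec (x := x) h s
  rcases lt_or_gt_of_ne h with h3 | h3
  · have e1 : 0 < y z - y v := sub_pos.2 h3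
    constructor
    · intro h4
      left
      refine ⟨h3, ?_⟩
      by_contra h5
      push Not at h5
      have : 0 ≤ (y z - y v) * (s - slp x y v z) := mul_nonneg e1.le (sub_nonneg.2 h5)
      linarith
    · rintro (⟨_, h4⟩ | ⟨h4, _⟩)
      · have : (y z - y v) * (s - slp x y v z) < 0 := mul_neg_of_pos_of_neg e1 (sub_neg.2 h4)
        linarith
      · exact absurd h3 (not_lt.2 h4.le)
  · have e1 : y z - y v < 0 := sub_neg.2 h3
    constructor
    · intro h4
      right
      refine ⟨h3, ?_⟩
      by_contra h5
      push Not at h5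
      have : 0 ≤ (y z - y v) * (s - slp x y v z) :=
        mul_nonneg_of_nonpos_of_nonpos e1.le (sub_nonpos.2 h5)
      linarith
    · rintro (⟨h4, _⟩ | ⟨_, h4⟩)
      · exact absurd h3 (not_lt.2 h4.le)
      · have : (y z - y v) * (s - slp x y v z) < 0 := mul_neg_of_neg_of_pos e1 (sub_pos.2 h4)
        linarith

/-- the sets at a critical slope -/
lemma St_crit {x y : V → ℝ} (G : GenPos x y) {v w : V} (hvw : w ≠ v) :
    (y v < y w → St y v ((univ.erase v).filter (fun w' => slp x y v w' < slp x y v w)) =
        insert w (YY x y v w) ∧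
      St y v ((univ.erase v).filter (fun w' => slp x y v w' ≤ slp x y v w)) = YY x y v w) ∧
    (y w < y v → St y v ((univ.erase v).filter (fun w' => slp x y v w' < slp x y v w)) =
        YY x y v w ∧
      St y v ((univ.erase v).filter (fun w' => slp x y v w' ≤ slp x y v w)) =
        insert w (YY x y v w)) := by
  have key : ∀ z, z ≠ v → z ≠ w → (z ∈ YY x y v w ↔
      (y v < y z ∧ slp x y v w < slp x y v z) ∨ (y z < y v ∧ slp x y v z < slp x y v w)) := by
    intro z hz hz'
    rw [mem_YY, lt_iff_slp (fun e => hz (G.inj e).symm)]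
  have hne : ∀ z, z ≠ v → z ≠ w → slp x y v z ≠ slp x y v w := by
    intro z hz hz'
    exact G.slp_ne v z w hz hvw hz'
  have hvY := left_nmem_YY (x := x) (y := y) (v := v) (w := w)
  constructor
  · intro hlt
    have hwY := right_nmem_YY (x := x) hlt.ne
    constructor
    · ext z
      rw [mem_St]
      by_cases hz : z = v
      · subst hz; simp [hvw.symm, hvY]
      by_cases hz' : z = w
      · subst hz'; simp [hlt]
      simp only [mem_filter, mem_erase, mem_univ, and_true, mem_insert, key z hz hz', hz, hz',
        ne_eq, not_false_eq_true, true_and, false_or, not_lt]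
      have := hne z hz hz'
      constructor
      · rintro (⟨h1, h2⟩ | ⟨h1, h2⟩)
        · exact Or.inl ⟨h1, lt_of_le_of_ne h2 this.symm⟩
        · exact Or.inr ⟨h1, h2⟩
      · rintro (⟨h1, h2⟩ | ⟨h1, h2⟩)
        · exact Or.inl ⟨h1, h2.le⟩
        · exact Or.inr ⟨h1, h2⟩
    · ext z
      rw [mem_St]
      by_cases hz : z = v
      · subst hz; simp [hvY]
      by_cases hz' : z = w
      · subst hz'; simp [hwY, hlt.not_gt, hz]
      simp only [mem_filter, mem_erase, mem_univ, and_true, key z hz hz', hz,
        ne_eq, not_false_eq_true, true_and, not_le]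
      have := hne z hz hz'
      constructor
      · rintro (⟨h1, h2⟩ | ⟨h1, h2⟩)
        · exact Or.inl ⟨h1, h2⟩
        · exact Or.inr ⟨h1, lt_of_le_of_ne h2 this⟩
      · rintro (⟨h1, h2⟩ | ⟨h1, h2⟩)
        · exact Or.inl ⟨h1, h2⟩
        · exact Or.inr ⟨h1, h2.le⟩
  · intro hlt
    have hwY := right_nmem_YY (x := x) hlt.ne'
    constructor
    · ext z
      rw [mem_St]
      by_cases hz : z = v
      · subst hz; simp [hvY]
      by_cases hz' : z = w
      · subst hz'; simp [hwY, hlt.not_gt]
      simp only [mem_filter, mem_erase, mem_univ, and_true, key z hz hz', hz,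
        ne_eq, not_false_eq_true, true_and, not_lt]
      have := hne z hz hz'
      constructor
      · rintro (⟨h1, h2⟩ | ⟨h1, h2⟩)
        · exact Or.inl ⟨h1, lt_of_le_of_ne h2 this.symm⟩
        · exact Or.inr ⟨h1, h2⟩
      · rintro (⟨h1, h2⟩ | ⟨h1, h2⟩)
        · exact Or.inl ⟨h1, h2.le⟩
        · exact Or.inr ⟨h1, h2⟩
    · ext z
      rw [mem_St]
      by_cases hz : z = v
      · subst hz; simp [hvw.symm, hvY]
      by_cases hz' : z = w
      · subst hz'; simp [hlt, hz]
      simp only [mem_filter, mem_erase, mem_univ, and_true, mem_insert, key z hz hz', hz, hz',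
        ne_eq, not_false_eq_true, true_and, false_or, not_le]
      have := hne z hz hz'
      constructor
      · rintro (⟨h1, h2⟩ | ⟨h1, h2⟩)
        · exact Or.inl ⟨h1, h2⟩
        · exact Or.inr ⟨h1, lt_of_le_of_ne h2 this⟩
      · rintro (⟨h1, h2⟩ | ⟨h1, h2⟩)
        · exact Or.inl ⟨h1, h2⟩
        · exact Or.inr ⟨h1, h2.le⟩

lemma zmod2_sub (a b : ZMod 2) : a - b = a + b := by
  revert a b; decide

lemma zmod2_self (a : ZMod 2) : a + a = 0 := by
  revert a; decide

/-- the contribution of an ordered pair -/
noncomputable def FF (lab : Finset V → Bool × Bool) (x y : V → ℝ)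
    (v w : V) : ZMod 2 :=
  qq lab (YY x y v w) (insert v (YY x y v w)) +
    qq lab (insert w (YY x y v w)) (insert v (insert w (YY x y v w)))

/-- **Stokes argument.**  There is no good labelling of the splits by lines. -/
theorem stokes {lab : Finset V → Bool × Bool} {x y : V → ℝ}
    (H : GoodLab x y lab) (G : GenPos x y) : False := by
  classical
  -- pairs
  have hpair : ∀ v w, v ≠ w → FF lab x y v w + FF lab x y w v = 0 := by
    intro v w hvw
    have hy : y v ≠ y w := fun e => hvw (G.inj e)
    obtain ⟨i1, i2, i3, i4⟩ := isSplit_YY G hvw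
    have := qq_square H (left_nmem_YY (x := x) (y := y) (v := v) (w := w))
      (right_nmem_YY (x := x) hy) hvw i1 i2 i3 i4
    unfold FF
    rw [← YY_comm hy, Finset.insert_comm w v]
    exact this
  have hsum0 : ∑ v : V, ∑ w ∈ univ.erase v, FF lab x y v w = 0 := by
    have e1 : ∑ v : V, ∑ w ∈ univ.erase v, FF lab x y v w =
        ∑ p ∈ (univ : Finset V).offDiag, FF lab x y p.1 p.2 := by
      rw [Finset.sum_sigma']
      refine Finset.sum_bij' (fun p _ => (p.1, p.2)) (fun p _ => ⟨p.1, p.2⟩) ?_ ?_ ?_ ?_ ?_
      · intro p hp; simp at hp ⊢; exact fun e => hp e.symm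
      · intro p hp; simp at hp ⊢; exact fun e => hp e.symm
      · intro p hp; rfl
      · intro p hp; rfl
      · intro p hp; rfl
    rw [e1]
    apply Finset.sum_involution (fun p _ => (p.2, p.1))
    · intro p hp
      simp at hp
      exact hpair _ _ hp
    · intro p hp _ h
      simp at hp
      exact hp (congrArg Prod.snd h)
    · intro p hp
      simp at hp ⊢
      exact fun e => hp e.symm
    · intro p hp; rfl
  -- telescoping at v
  have htel : ∀ v : V, ∑ w ∈ univ.erase v, FF lab x y v w =
      gg lab (univ.filter (fun z => y z ≤ y v)) -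
        gg lab (univ.filter (fun z => y z < y v)) := by
    intro v
    set Φ : Finset V → ZMod 2 := fun D =>
      qq lab (St y v D) (insert v (St y v D)) with hΦ
    have hinj : Set.InjOn (slp x y v) (univ.erase v : Finset V) := by
      intro w hw z hz h
      simp at hw hz
      by_contra hne
      exact G.slp_ne v w z hw hz hne h
    have t := telescope (slp x y v) Φ (univ.erase v) hinj
    have t2 : ∀ w ∈ univ.erase v, Φ ((univ.erase v).filter (fun w' => slp x y v w' ≤ slp x y v w)) -
        Φ ((univ.erase v).filter (fun w' => slp x y v w' < slp x y v w)) =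
        FF lab x y v w := by
      intro w hw
      simp at hw
      obtain ⟨c1, c2⟩ := St_crit G hw
      unfold FF
      rw [zmod2_sub]
      simp only [hΦ]
      have hy : y v ≠ y w := fun e => hw (G.inj e).symm
      rcases lt_or_gt_of_ne hy with h | h
      · obtain ⟨d1, d2⟩ := c1 h
        rw [d1, d2]
      · obtain ⟨d1, d2⟩ := c2 h
        rw [d1, d2]
        abel
    rw [← Finset.sum_congr rfl t2, t]
    have eL : St y v (univ.erase v) = univ.filter (fun z => y z < y v) := by
      ext z
      rw [mem_St]
      simp only [mem_erase, mem_univ, mem_filter, and_true, true_and, not_not, ne_eq]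
      constructor
      · rintro (⟨h, rfl⟩ | ⟨h, _⟩)
        · exact absurd h (lt_irrefl _)
        · exact h
      · intro h; right; refine ⟨h, ?_⟩; rintro rfl; exact lt_irrefl _ h
    have eI : insert v (univ.filter (fun z => y z < y v)) = univ.filter (fun z => y z ≤ y v) := by
      ext z
      simp only [mem_insert, mem_filter, mem_univ, true_and]
      constructor
      · rintro (rfl | h)
        · exact le_refl _
        · exact h.le
      · intro h
        rcases eq_or_lt_of_le h with h | h
        · left; exact G.inj h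
        · right; exact h
    have eU : St y v ∅ = (univ.filter (fun z => y z ≤ y v))ᶜ := by
      ext z
      rw [mem_St]
      simp
    have eU' : insert v (St y v ∅) = (univ.filter (fun z => y z < y v))ᶜ := by
      rw [eU, ← eI]
      ext z
      simp only [mem_insert, mem_compl, mem_filter, mem_univ, true_and, not_or]
      constructor
      · rintro (rfl | h)
        · exact lt_irrefl _
        · exact h.2
      · intro h
        by_cases hz : z = v
        · left; exact hz
        · right; exact ⟨hz, h⟩
    have hv : v ∉ univ.filter (fun z => y z < y v) := by simp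
    have hmain := qq_add_compl H hv (isSplit_low (x := x) (y := y) v).1
      (by rw [eI]; exact (isSplit_low (x := x) (y := y) v).2)
    rw [eI] at hmain
    simp only [hΦ]
    rw [eL, eI, eU', eU, zmod2_sub, zmod2_sub, qq_comm _ (univ.filter (fun z => y z ≤ y v))ᶜ,
      hmain, add_comm]
  have hfin : ∑ v : V, (gg lab (univ.filter (fun z => y z ≤ y v)) -
        gg lab (univ.filter (fun z => y z < y v))) =
      gg lab univ - gg lab ∅ :=
    telescope y (gg lab) univ G.inj.injOn
  rw [Finset.sum_congr rfl (fun v _ => htel v), hfin] at hsum0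
  have hemp : IsSplit x y (∅ : Finset V) := by
    obtain ⟨γ, hγ⟩ : ∃ γ : ℝ, ∀ v, γ < y v := by
      rcases isEmpty_or_nonempty V with hV | hV
      · exact ⟨0, fun v => hV.elim v⟩
      · obtain ⟨m, hm⟩ := Finite.exists_min y
        exact ⟨y m - 1, fun v => by linarith [hm v]⟩
    exact ⟨0, 1, γ, fun v => ⟨fun h => absurd h (by simp), fun _ => by simpa using hγ v⟩⟩
  have hl := H.comp ∅ hemp
  rw [Finset.compl_empty] at hl
  unfold gg at hsum0
  rw [hl] at hsum0
  generalize lab ∅ = p at *
  obtain ⟨p0, p1⟩ := p
  revert hsum0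
  cases p0 <;> cases p1 <;> decide

/-- **The line theorem for two symmetric submodular functions.**  If no linear order of the points
has all prefixes of `f1`-value at most `a`, and none has all prefixes of `f2`-value at most `b`,
then some line cuts off a set `S` with `a < f1 S` and `b < f2 S`. -/
theorem line_theorem {f1 f2 : Finset V → ℕ} (s1 : SymSub f1) (s2 : SymSub f2) {a b : ℕ}
    (w1 : ¬ Wid f1 a) (w2 : ¬ Wid f2 b) {x y : V → ℝ} (G : GenPos x y) :
    ∃ S, IsSplit x y S ∧ a < f1 S ∧ b < f2 S := by
  obtain ⟨h1, o1, c1⟩ := exists_label s1 w1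
  obtain ⟨h2, o2, c2⟩ := exists_label s2 w2
  by_contra hcon
  push Not at hcon
  have hall : ∀ S, IsSplit x y S → f1 S ≤ a ∨ f2 S ≤ b := by
    intro S hS
    rcases le_or_gt (f1 S) a with h | h
    · exact Or.inl h
    · exact Or.inr (hcon S hS h)
  set lab : Finset V → Bool × Bool := fun A => if f1 A ≤ a then (true, h1 A) else (false, h2 A)
    with hlab
  have lt : ∀ A, f1 A ≤ a → lab A = (true, h1 A) := fun A h => by simp only [hlab]; rw [if_pos h]
  have lf : ∀ A, ¬ f1 A ≤ a → lab A = (false, h2 A) := fun A h => by simp only [hlab]; rw [if_neg h]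
  have l1 : ∀ A, (lab A).1 = true → f1 A ≤ a := by
    intro A h; by_contra h'; rw [lf A h'] at h; simp at h
  have l2 : ∀ A, (lab A).1 = false → ¬ f1 A ≤ a := by
    intro A h h'; rw [lt A h'] at h; simp at h
  refine stokes (lab := lab) ⟨?_, ?_, ?_⟩ G
  · intro A hA
    by_cases h : f1 A ≤ a
    · rw [lt A h, lt _ (by rw [s1.sym]; exact h), o1 A h]
    · rw [lf A h, lf _ (by rw [s1.sym]; exact h), o2 A ((hall A hA).resolve_left h)]
  · intro A v hv hA hB h
    by_cases k : f1 A ≤ a
    · rw [lt A k] at h ⊢
      have k' := l1 _ h.symm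
      rw [lt _ k']
      exact c1 A v hv k k'
    · rw [lf A k] at h ⊢
      have k' := l2 _ h.symm
      rw [lf _ k']
      exact c2 A v hv ((hall A hA).resolve_left k) ((hall _ hB).resolve_left k')
  · intro Y v w hv hw hvw hY hYv hYw hYvw k1 k2 k3
    have hvw' : v ∉ insert w Y := by simp [hvw, hv]
    have hwv' : w ∉ insert v Y := by simp [hvw.symm, hw]
    have hcomm : insert w (insert v Y) = insert v (insert w Y) := Finset.insert_comm _ _ _
    have hinter : insert v Y ∩ insert w Y = Y := by
      ext z; simp only [mem_inter, mem_insert]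
      constructor
      · rintro ⟨rfl | h, rfl | h'⟩
        · exact absurd rfl hvw
        · exact h'
        · exact h
        · exact h
      · intro h; exact ⟨Or.inr h, Or.inr h⟩
    have hunion : insert v Y ∪ insert w Y = insert v (insert w Y) := by
      rw [Finset.insert_union, Finset.union_insert, Finset.union_self]
    have sm1 := s1.sub (insert v Y) (insert w Y)
    have sm2 := s2.sub (insert v Y) (insert w Y)
    rw [hinter, hunion] at sm1 sm2
    by_cases k : f1 Y ≤ a
    · have e0 : (lab Y).1 = true := by rw [lt Y k]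
      have ev : ¬ f1 (insert v Y) ≤ a := by
        intro h
        apply k1
        rw [e0, lt _ h]
      have ew : ¬ f1 (insert w Y) ≤ a := by
        apply l2
        rw [← k3, lf _ ev]
      have fv := (hall _ hYv).resolve_left ev
      have fw := (hall _ hYw).resolve_left ew
      left
      rw [lf _ ev, lf _ ew]
      by_contra k5
      have k5' : h2 (insert v Y) ≠ h2 (insert w Y) := k5
      have n0 : ¬ f2 Y ≤ b := by
        intro h
        exact k5' ((c2 Y v hv h fv).symm.trans (c2 Y w hw h fw))
      have n1 : ¬ f2 (insert v (insert w Y)) ≤ b := by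
        intro h
        have u1 := c2 (insert w Y) v hvw' fw h
        have u2 := c2 (insert v Y) w hwv' fv (by rw [hcomm]; exact h)
        rw [hcomm] at u2
        exact k5' (u2.trans u1.symm)
      omega
    · exfalso
      have e0 : (lab Y).1 = false := by rw [lf Y k]
      have e3 : ¬ f1 (insert v (insert w Y)) ≤ a := by
        apply l2; rw [← k2, e0]
      have ev : f1 (insert v Y) ≤ a := by
        by_contra h
        apply k1
        rw [e0, lf _ h]
      have ew : f1 (insert w Y) ≤ a := by
        apply l1; rw [← k3, lt _ ev]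
      omega

end Pool.Agent.H66.GG
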