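import Pool.Agent.H66.GG.Geo

/-!
The lower bound: points in convex position (helper66, for MP_b5bf4a_co).
-/

namespace Pool.Agent.H66.GG

open Finset

/-! ### Counting arcs that cross an interval -/

/-- the arc from `s` of length `l` has exactly one endpoint in `[a, b)` -/
def Crs (n a b s l : ℕ) : Prop := ¬ ((a ≤ s ∧ s < b) ↔ (a ≤ (s + l) % n ∧ (s + l) % n < b))

lemma crs_mem {n a b s l : ℕ} (hab : a ≤ b) (hb : b ≤ n) (hs : s < n) (hl : l ≤ n)
    (h : Crs n a b s l) : s ∈ Ico (b - l) b ∪ (Ico (a - l) a ∪ Ico (n + a - l) n) := by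
  unfold Crs at h
  simp only [mem_union, mem_Ico]
  rcases Nat.lt_or_ge (s + l) n with h1 | h1
  · rw [Nat.mod_eq_of_lt h1] at h
    omega
  · have h2 : (s + l) % n = s + l - n := by
      rw [Nat.mod_eq_sub_mod h1]
      rcases Nat.lt_or_ge (s + l - n) n with h3 | h3
      · exact Nat.mod_eq_of_lt h3
      · omega
    rw [h2] at h
    omega

/-- starts of the arcs of length `D` -/
def stur (n D u : ℕ) : Finset ℕ := (range n).filter (fun s => s * u / D ≠ (s + 1) * u / D)

lemma stur_card {n D u : ℕ} (hD : 0 < D) (hu : u ≤ D) (c d : ℕ) (hcd : c ≤ d) :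
    ((Ico c d).filter (fun s => s * u / D ≠ (s + 1) * u / D)).card = d * u / D - c * u / D := by
  induction d, hcd using Nat.le_induction with
  | base => simp
  | succ d hcd ih =>
    have hstep : (d + 1) * u / D ≤ d * u / D + 1 := by
      have : (d + 1) * u ≤ d * u + D := by rw [Nat.add_mul, one_mul]; omega
      calc (d + 1) * u / D ≤ (d * u + D) / D := Nat.div_le_div_right this
        _ = d * u / D + 1 := Nat.add_div_right _ hD
    have hmono : d * u / D ≤ (d + 1) * u / D :=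
      Nat.div_le_div_right (Nat.mul_le_mul_right _ (by omega))
    have hmono2 : c * u / D ≤ d * u / D := Nat.div_le_div_right (Nat.mul_le_mul_right _ hcd)
    rw [Nat.Ico_succ_right_eq_insert_Ico hcd, Finset.filter_insert]
    split_ifs with h
    · rw [Finset.card_insert_of_notMem (by simp), ih]
      generalize (d + 1) * u / D = X at *
      generalize d * u / D = Y at *
      generalize c * u / D = Z at *
      omega
    · rw [not_not] at h
      rw [ih, h]

lemma stur_cross {n D u : ℕ} (hD : 0 < D) (hu : u ≤ D) (hn : D ≤ n) (a b : ℕ) (hab : a ≤ b)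
    (hb : b ≤ n) :
    ((Ico (b - D) b ∪ (Ico (a - D) a ∪ Ico (n + a - D) n)).filter
      (fun s => s * u / D ≠ (s + 1) * u / D)).card ≤ 2 * u := by
  rw [Finset.filter_union, Finset.filter_union]
  have h1 := stur_card (n := n) hD hu (b - D) b (by omega)
  have h2 := stur_card (n := n) hD hu (a - D) a (by omega)
  have sh : ∀ m, D ≤ m → (m - D) * u / D = m * u / D - u := by
    intro m hm
    obtain ⟨c, rfl⟩ := Nat.exists_eq_add_of_le hm
    rw [Nat.add_sub_cancel_left, Nat.add_mul, Nat.add_comm, Nat.mul_comm D u,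
      Nat.add_mul_div_right _ _ hD, Nat.add_sub_cancel]
  have lt : ∀ m, m ≤ D → m * u / D ≤ u := by
    intro m hm
    calc m * u / D ≤ D * u / D := Nat.div_le_div_right (Nat.mul_le_mul_right _ hm)
      _ = u := Nat.mul_div_cancel_left _ hD
  have k1 : ((Ico (b - D) b).filter (fun s => s * u / D ≠ (s + 1) * u / D)).card ≤ u := by
    rw [h1]
    rcases Nat.lt_or_ge b D with h | h
    · exact (Nat.sub_le _ _).trans (lt b h.le)
    · rw [sh b h]
      generalize b * u / D = X
      omega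
  have k2 : ((Ico (a - D) a).filter (fun s => s * u / D ≠ (s + 1) * u / D)).card +
      ((Ico (n + a - D) n).filter (fun s => s * u / D ≠ (s + 1) * u / D)).card ≤ u := by
    rw [h2]
    rcases Nat.lt_or_ge a D with h | h
    · have h3 := stur_card (n := n) hD hu (n + a - D) n (by omega)
      rw [h3, sh (n + a) (by omega)]
      have h4 : a - D = 0 := by omega
      rw [h4, Nat.zero_mul, Nat.zero_div]
      have h5 : a * u / D + n * u / D ≤ (n + a) * u / D := by
        have : (n + a) * u = a * u + n * u := by ring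
        rw [this]
        exact Nat.add_div_le_add_div _ _ _
      have h6 : u ≤ (n + a) * u / D := by
        calc u = D * u / D := (Nat.mul_div_cancel_left _ hD).symm
          _ ≤ (n + a) * u / D := Nat.div_le_div_right (Nat.mul_le_mul_right _ (by omega))
      have h7 := lt a h.le
      clear h1 h2 h3 k1
      generalize (n + a) * u / D = X at *
      generalize a * u / D = Y at *
      generalize n * u / D = Z at *
      omega
    · have h4 : Ico (n + a - D) n = ∅ := by
        apply Finset.Ico_eq_empty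
        omega
      rw [h4, Finset.filter_empty, Finset.card_empty, sh a h]
      generalize a * u / D = X
      omega
  have k3 := Finset.card_union_le
    ((Ico (b - D) b).filter (fun s => s * u / D ≠ (s + 1) * u / D))
    ((Ico (a - D) a).filter (fun s => s * u / D ≠ (s + 1) * u / D) ∪
      (Ico (n + a - D) n).filter (fun s => s * u / D ≠ (s + 1) * u / D))
  have k4 := Finset.card_union_le
    ((Ico (a - D) a).filter (fun s => s * u / D ≠ (s + 1) * u / D))
    ((Ico (n + a - D) n).filter (fun s => s * u / D ≠ (s + 1) * u / D))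
  omega

/-- the arcs -/
def arcs (n D : ℕ) (S : Finset ℕ) : Finset (ℕ × ℕ) :=
  (range n ×ˢ Icc 1 (D - 1)) ∪ (S ×ˢ {D})

lemma arcs_card {n D : ℕ} (hD : 1 ≤ D) (S : Finset ℕ) :
    (arcs n D S).card = (D - 1) * n + S.card := by
  unfold arcs
  rw [Finset.card_union_of_disjoint, Finset.card_product, Finset.card_product, Finset.card_range,
    Nat.card_Icc, Finset.card_singleton]
  · rw [Nat.add_sub_cancel, mul_one, mul_comm]
  · rw [Finset.disjoint_left]
    intro q h1 h2
    rw [mem_product, mem_Icc] at h1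
    rw [mem_product, mem_singleton] at h2
    omega

open Classical in
lemma arcs_cross {n D u : ℕ} (hD : 1 ≤ D) (hn : D ≤ n) (S : Finset ℕ)
    (a b : ℕ) (hab : a ≤ b) (hb : b ≤ n)
    (hS2 : (S.filter (fun s => Crs n a b s D)).card ≤ 2 * u) :
    ((arcs n D S).filter (fun q => Crs n a b q.1 q.2)).card ≤ D * (D - 1) + 2 * u := by
  classical
  unfold arcs
  rw [Finset.filter_union]
  refine (Finset.card_union_le _ _).trans (Nat.add_le_add ?_ ?_)
  · -- short arcs
    have hsub : ((range n ×ˢ Icc 1 (D - 1)).filter (fun q : ℕ × ℕ => Crs n a b q.1 q.2)) ⊆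
        (Icc 1 (D - 1)).biUnion (fun l =>
          (Ico (b - l) b ∪ (Ico (a - l) a ∪ Ico (n + a - l) n)) ×ˢ {l}) := by
      intro q hq
      rw [mem_filter, mem_product, mem_range, mem_Icc] at hq
      rw [mem_biUnion]
      refine ⟨q.2, by rw [mem_Icc]; exact hq.1.2, ?_⟩
      rw [mem_product, mem_singleton]
      exact ⟨crs_mem hab hb hq.1.1 (by omega) hq.2, rfl⟩
    refine (Finset.card_le_card hsub).trans (Finset.card_biUnion_le.trans ?_)
    have hl : ∀ l ∈ Icc 1 (D - 1),
        ((Ico (b - l) b ∪ (Ico (a - l) a ∪ Ico (n + a - l) n)) ×ˢ ({l} : Finset ℕ)).card ≤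
          2 * l := by
      intro l hl
      rw [mem_Icc] at hl
      rw [Finset.card_product, Finset.card_singleton, mul_one]
      have k1 := Finset.card_union_le (Ico (b - l) b) (Ico (a - l) a ∪ Ico (n + a - l) n)
      have k2 := Finset.card_union_le (Ico (a - l) a) (Ico (n + a - l) n)
      rw [Nat.card_Ico] at k1 k2
      rw [Nat.card_Ico] at k2
      omega
    refine (Finset.sum_le_sum hl).trans ?_
    rw [← Finset.mul_sum]
    have : ∀ m : ℕ, 2 * ∑ l ∈ Icc 1 m, l = (m + 1) * m := by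
      intro m
      induction m with
      | zero => simp
      | succ m ih =>
        rw [Finset.sum_Icc_succ_top (by omega), mul_add, ih]
        ring
    rw [this]
    have : D - 1 + 1 = D := by omega
    rw [this]
  · -- long arcs
    have : ((S ×ˢ {D}).filter (fun q : ℕ × ℕ => Crs n a b q.1 q.2)) ⊆
        (S.filter (fun s => Crs n a b s D)) ×ˢ {D} := by
      intro q hq
      rw [mem_filter, mem_product, mem_singleton] at hq
      rw [mem_product, mem_filter, mem_singleton]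
      have h := hq.2
      rw [hq.1.2] at h
      exact ⟨⟨hq.1.1, h⟩, hq.1.2⟩
    refine (Finset.card_le_card this).trans ?_
    rw [Finset.card_product, Finset.card_singleton, mul_one]
    exact hS2

/-! ### The graph -/

/-- the edge of an arc -/
def em {n : ℕ} (hn : 0 < n) (q : ℕ × ℕ) : Sym2 (Fin n) :=
  s(⟨q.1 % n, Nat.mod_lt _ hn⟩, ⟨(q.1 + q.2) % n, Nat.mod_lt _ hn⟩)

lemma em_not_diag {n : ℕ} (hn : 0 < n) {q : ℕ × ℕ} (h1 : q.1 < n) (h2 : 1 ≤ q.2) (h3 : q.2 < n) :
    ¬ (em hn q).IsDiag := by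
  unfold em
  rw [Sym2.mk_isDiag_iff, Fin.mk.injEq, Nat.mod_eq_of_lt h1]
  intro h
  rcases Nat.lt_or_ge (q.1 + q.2) n with k | k
  · rw [Nat.mod_eq_of_lt k] at h; omega
  · rw [Nat.mod_eq_sub_mod k, Nat.mod_eq_of_lt (by omega)] at h; omega

lemma em_injOn {n D : ℕ} (hn : 0 < n) (hD : 1 ≤ D) (hnD : 2 * D ≤ n) (S : Finset ℕ)
    (hS : ∀ s ∈ S, s < n) (hS' : n = 2 * D → ∀ s ∈ S, s < D) :
    Set.InjOn (em hn) (arcs n D S : Set (ℕ × ℕ)) := by
  have hb : ∀ q ∈ arcs n D S, q.1 < n ∧ 1 ≤ q.2 ∧ q.2 ≤ D ∧ (q.2 = D → n = 2 * D → q.1 < D) := by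
    intro q hq
    unfold arcs at hq
    rw [mem_union, mem_product, mem_product, mem_range, mem_Icc, mem_singleton] at hq
    rcases hq with ⟨h1, h2, h3⟩ | ⟨h1, h2⟩
    · refine ⟨h1, h2, by omega, by omega⟩
    · refine ⟨hS _ h1, by omega, by omega, fun _ h => hS' h _ h1⟩
  intro q hq q' hq' h
  obtain ⟨a1, a2, a3, a4⟩ := hb q hq
  obtain ⟨b1, b2, b3, b4⟩ := hb q' hq'
  unfold em at h
  rw [Sym2.eq_iff, Fin.mk.injEq, Fin.mk.injEq, Fin.mk.injEq, Fin.mk.injEq,
    Nat.mod_eq_of_lt a1, Nat.mod_eq_of_lt b1] at h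
  have m1 : (q.1 + q.2) % n = if q.1 + q.2 < n then q.1 + q.2 else q.1 + q.2 - n := by
    split_ifs with k
    · exact Nat.mod_eq_of_lt k
    · rw [Nat.mod_eq_sub_mod (by omega), Nat.mod_eq_of_lt (by omega)]
  have m2 : (q'.1 + q'.2) % n = if q'.1 + q'.2 < n then q'.1 + q'.2 else q'.1 + q'.2 - n := by
    split_ifs with k
    · exact Nat.mod_eq_of_lt k
    · rw [Nat.mod_eq_sub_mod (by omega), Nat.mod_eq_of_lt (by omega)]
  rw [m1, m2] at h
  have : q.1 = q'.1 ∧ q.2 = q'.2 := by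
    rcases h with ⟨h1, h2⟩ | ⟨h1, h2⟩
    · split_ifs at h2 <;> omega
    · split_ifs at h1 h2 <;> omega
  exact Prod.ext this.1 this.2

/-! ### Convex position -/

/-- points on the parabola -/
def par (n : ℕ) (i : Fin n) : ℝ × ℝ := ((i : ℕ), ((i : ℕ) : ℝ) ^ 2)

lemma par_genPosition (n : ℕ) : GenPosition (par n) := by
  constructor
  · intro i j h
    have := congrArg Prod.fst h
    simp only [par, Nat.cast_inj] at this
    exact Fin.ext this
  · intro i j k hij hjk hik h
    rw [collinear_iff_of_mem (p₀ := par n i) (by simp)] at h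
    obtain ⟨v, hv⟩ := h
    obtain ⟨r, hr⟩ := hv (par n j) (by simp)
    obtain ⟨s, hs⟩ := hv (par n k) (by simp)
    have h1 := congrArg Prod.fst hr
    have h2 := congrArg Prod.snd hr
    have h3 := congrArg Prod.fst hs
    have h4 := congrArg Prod.snd hs
    simp only [par, vadd_eq_add, Prod.fst_add, Prod.smul_fst, smul_eq_mul, Prod.snd_add,
      Prod.smul_snd] at h1 h2 h3 h4
    have e1 : ((j : ℕ) : ℝ) - ((i : ℕ) : ℝ) ≠ 0 := by
      rw [sub_ne_zero, Ne, Nat.cast_inj]; exact fun h => hij (Fin.ext h.symm)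
    have e2 : ((k : ℕ) : ℝ) - ((i : ℕ) : ℝ) ≠ 0 := by
      rw [sub_ne_zero, Ne, Nat.cast_inj]; exact fun h => hik (Fin.ext h.symm)
    have e3 : ((j : ℕ) : ℝ) - ((k : ℕ) : ℝ) ≠ 0 := by
      rw [sub_ne_zero, Ne, Nat.cast_inj]; exact fun h => hjk (Fin.ext h)
    apply mul_ne_zero (mul_ne_zero e1 e2) e3
    have f1 : ((j : ℕ) : ℝ) - ((i : ℕ) : ℝ) = r * v.1 := by linarith
    have f2 : ((k : ℕ) : ℝ) - ((i : ℕ) : ℝ) = s * v.1 := by linarith
    have f3 : (((j : ℕ) : ℝ) - ((i : ℕ) : ℝ)) * (((j : ℕ) : ℝ) + ((i : ℕ) : ℝ)) = r * v.2 := by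
      linarith
    have f4 : (((k : ℕ) : ℝ) - ((i : ℕ) : ℝ)) * (((k : ℕ) : ℝ) + ((i : ℕ) : ℝ)) = s * v.2 := by
      linarith
    have f5 : (((j : ℕ) : ℝ) - ((i : ℕ) : ℝ)) * ((((k : ℕ) : ℝ) - ((i : ℕ) : ℝ)) *
        (((k : ℕ) : ℝ) + ((i : ℕ) : ℝ))) = (((k : ℕ) : ℝ) - ((i : ℕ) : ℝ)) *
        ((((j : ℕ) : ℝ) - ((i : ℕ) : ℝ)) * (((j : ℕ) : ℝ) + ((i : ℕ) : ℝ))) := by
      rw [f4, f3, f1, f2]; ring
    linarith

lemma par_key {α β γ : ℝ} (hβ : 0 ≤ β) (hne : α ≠ 0 ∨ β ≠ 0) {i k j : ℕ} (hik : i < k)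
    (hkj : k < j) (hi : α * i + β * (i : ℝ) ^ 2 - γ ≤ 0) (hj : α * j + β * (j : ℝ) ^ 2 - γ ≤ 0) :
    α * k + β * (k : ℝ) ^ 2 - γ < 0 := by
  have h1 : (0 : ℝ) < k - i := sub_pos.2 (by exact_mod_cast hik)
  have h2 : (0 : ℝ) < j - k := sub_pos.2 (by exact_mod_cast hkj)
  have h3 : (0 : ℝ) < (j : ℝ) - i := by linarith
  have key : ((j : ℝ) - i) * (α * k + β * (k : ℝ) ^ 2 - γ) =
      (j - k) * (α * i + β * (i : ℝ) ^ 2 - γ) + (k - i) * (α * j + β * (j : ℝ) ^ 2 - γ) -
        β * (j - k) * (k - i) * (j - i) := by ring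
  have t1 : ((j : ℝ) - k) * (α * i + β * (i : ℝ) ^ 2 - γ) ≤ 0 :=
    mul_nonpos_of_nonneg_of_nonpos h2.le hi
  have t2 : ((k : ℝ) - i) * (α * j + β * (j : ℝ) ^ 2 - γ) ≤ 0 :=
    mul_nonpos_of_nonneg_of_nonpos h1.le hj
  by_contra hcon
  push Not at hcon
  have t3 : 0 ≤ ((j : ℝ) - i) * (α * k + β * (k : ℝ) ^ 2 - γ) := mul_nonneg h3.le hcon
  rcases hβ.eq_or_lt with hb | hb
  · have hα : α ≠ 0 := by
      rcases hne with h | h
      · exact h
      · exact absurd hb.symm h
    subst hb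
    have z1 : ((j : ℝ) - k) * (α * i + 0 * (i : ℝ) ^ 2 - γ) = 0 := by nlinarith
    have z2 : ((k : ℝ) - i) * (α * j + 0 * (j : ℝ) ^ 2 - γ) = 0 := by nlinarith
    have y1 : α * i - γ = 0 := by
      rcases mul_eq_zero.1 z1 with h | h
      · exact absurd h h2.ne'
      · linarith
    have y2 : α * j - γ = 0 := by
      rcases mul_eq_zero.1 z2 with h | h
      · exact absurd h h1.ne'
      · linarith
    have : α * ((j : ℝ) - i) = 0 := by linarith
    rcases mul_eq_zero.1 this with h | h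
    · exact hα h
    · exact h3.ne' h
  · have : 0 < β * (j - k) * (k - i) * (j - i) := by positivity
    linarith

/-- order convex sets of naturals are intervals -/
lemma exists_Ico {n : ℕ} (I : Finset ℕ) (hI : ∀ i ∈ I, i < n)
    (hc : ∀ i k j, i < k → k < j → i ∈ I → j ∈ I → k ∈ I) :
    ∃ a b, a ≤ b ∧ b ≤ n ∧ ∀ i, i ∈ I ↔ a ≤ i ∧ i < b := by
  rcases I.eq_empty_or_nonempty with h | h
  · refine ⟨0, 0, le_refl _, Nat.zero_le _, fun i => ?_⟩
    rw [h]; simp
  · refine ⟨I.min' h, I.max' h + 1, ?_, ?_, fun i => ?_⟩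
    · have := I.min'_le _ (I.max'_mem h); omega
    · exact hI _ (I.max'_mem h)
    · constructor
      · intro hi
        exact ⟨I.min'_le _ hi, Nat.lt_succ_of_le (I.le_max' _ hi)⟩
      · rintro ⟨h1, h2⟩
        rcases h1.eq_or_lt with h3 | h3
        · rw [← h3]; exact I.min'_mem h
        · rcases (Nat.lt_succ_iff.1 h2).eq_or_lt with h4 | h4
          · rw [h4]; exact I.max'_mem h
          · exact hc _ _ _ h3 h4 (I.min'_mem h) (I.max'_mem h)

lemma met_interval_aux {n : ℕ} {α β γ : ℝ} (hβ : 0 ≤ β) (hne : α ≠ 0 ∨ β ≠ 0) :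
    ∃ a b, a ≤ b ∧ b ≤ n ∧ ∀ i j : Fin n, i ≠ j →
      (openSegment ℝ (par n i) (par n j) ∩ {q : ℝ × ℝ | α * q.1 + β * q.2 = γ}).Nonempty →
      ¬ ((a ≤ (i : ℕ) ∧ (i : ℕ) < b) ↔ (a ≤ (j : ℕ) ∧ (j : ℕ) < b)) := by
  classical
  set f : ℕ → ℝ := fun i => α * i + β * (i : ℝ) ^ 2 - γ with hf
  have key : ∀ i k j : ℕ, i < k → k < j → f i ≤ 0 → f j ≤ 0 → f k < 0 :=
    fun i k j h1 h2 h3 h4 => par_key hβ hne h1 h2 h3 h4
  set I : Finset ℕ := (range n).filter
    (fun i => f i < 0 ∨ (f i = 0 ∧ ∃ j, i < j ∧ f j = 0)) with hI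
  have hle : ∀ i ∈ I, f i ≤ 0 := by
    intro i hi
    rw [hI, mem_filter] at hi
    rcases hi.2 with h | h
    · exact h.le
    · exact h.1.le
  obtain ⟨a, b, hab, hb, hiff⟩ := exists_Ico (n := n) I
    (fun i hi => by rw [hI, mem_filter, mem_range] at hi; exact hi.1)
    (by
      intro i k j hik hkj hi hj
      have hj' : j < n := by rw [hI, mem_filter, mem_range] at hj; exact hj.1
      have := key i k j hik hkj (hle i hi) (hle j hj)
      rw [hI, mem_filter, mem_range]
      exact ⟨by omega, Or.inl this⟩)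
  refine ⟨a, b, hab, hb, fun i j hij hne' => ?_⟩
  rw [← hiff, ← hiff]
  obtain ⟨z, ⟨A, B, hA, hB, hAB, hz⟩, hzL⟩ := hne'
  have hzL : α * z.1 + β * z.2 = γ := hzL
  have hcomb : A * f i + B * f j = 0 := by
    rw [← hz] at hzL
    simp only [par, Prod.fst_add, Prod.smul_fst, smul_eq_mul, Prod.snd_add, Prod.smul_snd] at hzL
    simp only [hf]
    have : A * γ + B * γ = γ := by rw [← add_mul, hAB, one_mul]
    linarith
  have hmem : ∀ i : Fin n, f i < 0 → ((i : ℕ) ∈ I) := by
    intro i h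
    rw [hI, mem_filter, mem_range]
    exact ⟨i.2, Or.inl h⟩
  rcases lt_trichotomy (f i) 0 with h | h | h
  · have hj : 0 < f j := by
      by_contra hj
      push Not at hj
      have := mul_neg_of_pos_of_neg hA h
      have := mul_nonpos_of_nonneg_of_nonpos hB.le hj
      linarith
    intro hh
    exact absurd (hle _ (hh.1 (hmem i h))) (not_le.2 hj)
  · have hj : f j = 0 := by
      rw [h, mul_zero, zero_add] at hcomb
      rcases mul_eq_zero.1 hcomb with h | h
      · exact absurd h hB.ne'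
      · exact h
    -- the smaller one is in, the larger one is not
    have claim : ∀ i j : Fin n, i < j → f i = 0 → f j = 0 → ((i : ℕ) ∈ I) ∧ (j : ℕ) ∉ I := by
      intro i j hlt hi hj
      constructor
      · rw [hI, mem_filter, mem_range]
        exact ⟨i.2, Or.inr ⟨hi, j, hlt, hj⟩⟩
      · intro hmemj
        rw [hI, mem_filter, mem_range] at hmemj
        rcases hmemj.2 with h | ⟨_, k, hk, hk'⟩
        · exact absurd hj h.ne
        · have := key i j k hlt hk hi.le hk'.le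
          exact absurd hj this.ne
    rcases lt_or_gt_of_ne hij with h1 | h1
    · obtain ⟨c1, c2⟩ := claim i j h1 h hj
      intro hh
      exact c2 (hh.1 c1)
    · obtain ⟨c1, c2⟩ := claim j i h1 hj h
      intro hh
      exact c2 (hh.2 c1)
  · have hj : f j < 0 := by
      by_contra hj
      push Not at hj
      have := mul_pos hA h
      have := mul_nonneg hB.le hj
      linarith
    intro hh
    exact absurd (hle _ (hh.2 (hmem j hj))) (not_le.2 h)

lemma met_interval {n : ℕ} {L : Set (ℝ × ℝ)} (hL : IsLine L) :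
    ∃ a b, a ≤ b ∧ b ≤ n ∧ ∀ i j : Fin n, i ≠ j →
      (openSegment ℝ (par n i) (par n j) ∩ L).Nonempty →
      ¬ ((a ≤ (i : ℕ) ∧ (i : ℕ) < b) ↔ (a ≤ (j : ℕ) ∧ (j : ℕ) < b)) := by
  obtain ⟨α, β, γ, hne, rfl⟩ := hL
  rcases le_total 0 β with h | h
  · exact met_interval_aux h hne
  · have hset : {q : ℝ × ℝ | α * q.1 + β * q.2 = γ} = {q : ℝ × ℝ | -α * q.1 + -β * q.2 = -γ} := by
      ext q
      simp only [Set.mem_setOf_eq]
      constructor <;> intro h <;> linarith
    rw [hset]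
    exact met_interval_aux (by linarith) (by
      rcases hne with h | h
      · exact Or.inl (neg_ne_zero.2 h)
      · exact Or.inr (neg_ne_zero.2 h))

end Pool.Agent.H66.GG
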