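import Mathlib

/-!
Symmetric submodular set functions: uncrossing lemmas (helper66, for MP_b5bf4a_co).
-/

namespace Pool.Agent.H66.GG

open Finset

variable {V : Type*} [Fintype V] [DecidableEq V]

/-- symmetric submodular function on the subsets of `V` -/
structure SymSub (f : Finset V → ℕ) : Prop where
  sym : ∀ A, f Aᶜ = f A
  sub : ∀ A B, f (A ∩ B) + f (A ∪ B) ≤ f A + f B

/-- `f` has (linear) width at most `a`: some linear order of `V` has all prefix values `≤ a`. -/
def Wid (f : Finset V → ℕ) (a : ℕ) : Prop :=
  ∃ l : List V, l.Nodup ∧ (∀ v, v ∈ l) ∧ ∀ k, f (l.take k).toFinset ≤ a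

/-- one flip inside the family `f ≤ a` -/
def Flip (f : Finset V → ℕ) (a : ℕ) (A B : Finset V) : Prop :=
  f A ≤ a ∧ f B ≤ a ∧ ((∃ v, v ∉ A ∧ B = insert v A) ∨ (∃ v, v ∉ B ∧ A = insert v B))

/-- connected inside the family `f ≤ a` -/
def Conn (f : Finset V → ℕ) (a : ℕ) : Finset V → Finset V → Prop :=
  Relation.ReflTransGen (Flip f a)

lemma Flip.symm {f : Finset V → ℕ} {a : ℕ} {A B : Finset V} (h : Flip f a A B) :
    Flip f a B A := ⟨h.2.1, h.1, h.2.2.symm⟩

lemma Conn.symm {f : Finset V → ℕ} {a : ℕ} {A B : Finset V} (h : Conn f a A B) :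
    Conn f a B A := by
  unfold Conn at *
  induction h with
  | refl => exact Relation.ReflTransGen.refl
  | tail _ h2 ih => exact Relation.ReflTransGen.head h2.symm ih

lemma Conn.trans {f : Finset V → ℕ} {a : ℕ} {A B C : Finset V} (h : Conn f a A B)
    (h' : Conn f a B C) : Conn f a A C := Relation.ReflTransGen.trans h h'

lemma Conn.le {f : Finset V → ℕ} {a : ℕ} {A B : Finset V} (h : Conn f a A B) (hA : f A ≤ a) :
    f B ≤ a := by
  unfold Conn at h
  induction h with
  | refl => exact hA
  | tail _ h2 _ => exact h2.2.1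

lemma compl_insert_eq {v : V} {A B : Finset V} (hv : v ∉ A) (hB : B = insert v A) :
    v ∉ Bᶜ ∧ Aᶜ = insert v Bᶜ := by
  subst hB
  refine ⟨by simp, ?_⟩
  ext x
  by_cases hx : x = v
  · subst hx; simp [hv]
  · simp [hx]

lemma Flip.compl {f : Finset V → ℕ} (hf : SymSub f) {a : ℕ} {A B : Finset V}
    (h : Flip f a A B) : Flip f a Aᶜ Bᶜ := by
  refine ⟨by rw [hf.sym]; exact h.1, by rw [hf.sym]; exact h.2.1, ?_⟩
  rcases h.2.2 with ⟨v, hv, hB⟩ | ⟨v, hv, hA⟩
  · right
    exact ⟨v, (compl_insert_eq hv hB).1, (compl_insert_eq hv hB).2⟩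
  · left
    exact ⟨v, (compl_insert_eq hv hA).1, (compl_insert_eq hv hA).2⟩

lemma Conn.compl {f : Finset V → ℕ} (hf : SymSub f) {a : ℕ} {A B : Finset V}
    (h : Conn f a A B) : Conn f a Aᶜ Bᶜ := by
  unfold Conn at *
  induction h with
  | refl => exact Relation.ReflTransGen.refl
  | tail _ h2 ih => exact Relation.ReflTransGen.tail ih (h2.compl hf)

/-- first uncrossing: if some `A` is connected to its complement then `∅` is connected to `univ` -/
lemma conn_empty_univ {f : Finset V → ℕ} (hf : SymSub f) {a : ℕ} {A : Finset V} (hA : f A ≤ a)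
    (h : Conn f a A Aᶜ) : Conn f a ∅ univ ∧ f ∅ ≤ a := by
  classical
  obtain ⟨B, hB, hmin⟩ := Finset.exists_min_image
    ((Finset.univ : Finset (Finset V)).filter (fun B => Conn f a A B)) f
    ⟨A, by simp [Conn, Relation.ReflTransGen.refl]⟩
  simp only [mem_filter, mem_univ, true_and] at hB hmin
  have hBle : f B ≤ a := hB.le hA
  have hBBc : Conn f a B Bᶜ := hB.symm.trans (h.trans (hB.compl hf))
  have hmin' : ∀ C, Conn f a B C → f B ≤ f C := fun C hC => hmin C (hB.trans hC)
  have key : ∀ D, Conn f a B D → Conn f a B (D ∩ B) ∧ Conn f a B (D ∪ B) := by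
    intro D hD
    unfold Conn at hD
    induction hD with
    | refl => simp [Conn, Relation.ReflTransGen.refl]
    | @tail D D' hBD hfl ih =>
      obtain ⟨h1, h2⟩ := ih
      have hsub := hf.sub D' B
      have hD' : f D' ≤ a := hfl.2.1
      have hm1 := hmin' _ h1
      have hm2 := hmin' _ h2
      have hl1 := h1.le hBle
      have hl2 := h2.le hBle
      rcases hfl.2.2 with ⟨v, hv, hE⟩ | ⟨v, hv, hE⟩
      · by_cases hvB : v ∈ B
        · have e1 : D' ∪ B = D ∪ B := by
            subst hE; ext x; by_cases hx : x = v
            · subst hx; simp [hvB]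
            · simp [hx]
          have e2 : D' ∩ B = insert v (D ∩ B) := by
            subst hE; ext x; by_cases hx : x = v
            · subst hx; simp [hvB]
            · simp [hx]
          rw [e1] at hsub ⊢
          refine ⟨?_, h2⟩
          refine h1.trans (Relation.ReflTransGen.single ⟨hl1, by omega, Or.inl ⟨v, ?_, e2⟩⟩)
          simp [hv]
        · have e1 : D' ∩ B = D ∩ B := by
            subst hE; ext x; by_cases hx : x = v
            · subst hx; simp [hvB]
            · simp [hx]
          have e2 : D' ∪ B = insert v (D ∪ B) := by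
            subst hE; ext x; simp
          rw [e1] at hsub ⊢
          refine ⟨h1, ?_⟩
          refine h2.trans (Relation.ReflTransGen.single ⟨hl2, by omega, Or.inl ⟨v, ?_, e2⟩⟩)
          simp [hv, hvB]
      · by_cases hvB : v ∈ B
        · have e1 : D' ∪ B = D ∪ B := by
            subst hE; ext x; by_cases hx : x = v
            · subst hx; simp [hvB]
            · simp [hx]
          have e2 : D ∩ B = insert v (D' ∩ B) := by
            subst hE; ext x; by_cases hx : x = v
            · subst hx; simp [hvB]
            · simp [hx]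
          rw [e1] at hsub ⊢
          refine ⟨?_, h2⟩
          refine h1.trans (Relation.ReflTransGen.single ⟨hl1, by omega, Or.inr ⟨v, ?_, e2⟩⟩)
          simp [hv]
        · have e1 : D' ∩ B = D ∩ B := by
            subst hE; ext x; by_cases hx : x = v
            · subst hx; simp [hvB]
            · simp [hx]
          have e2 : D ∪ B = insert v (D' ∪ B) := by
            subst hE; ext x; simp
          rw [e1] at hsub ⊢
          refine ⟨h1, ?_⟩
          refine h2.trans (Relation.ReflTransGen.single ⟨hl2, by omega, Or.inr ⟨v, ?_, e2⟩⟩)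
          simp [hv, hvB]
  obtain ⟨k1, k2⟩ := key _ hBBc
  rw [show Bᶜ ∩ B = ∅ by ext; simp] at k1
  rw [show Bᶜ ∪ B = univ by ext; simp; tauto] at k2
  exact ⟨k1.symm.trans k2, k1.le hBle⟩

/-- a crusade from `∅` to `univ` -/
structure Crus (f : Finset V → ℕ) (a : ℕ) (l : List (Finset V)) : Prop where
  hd : l.head? = some ∅
  lst : l.getLast? = some univ
  chn : l.IsChain (fun A B => (B \ A).card ≤ 1)
  le : ∀ A ∈ l, f A ≤ a

lemma exists_crus {f : Finset V → ℕ} {a : ℕ} (h0 : f ∅ ≤ a) (h : Conn f a ∅ univ) :
    ∃ l, Crus f a l := by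
  have key : ∀ A, Conn f a ∅ A → ∃ l : List (Finset V), l.head? = some ∅ ∧ l.getLast? = some A ∧
      l.IsChain (fun A B => (B \ A).card ≤ 1) ∧ ∀ A ∈ l, f A ≤ a := by
    intro A hA
    unfold Conn at hA
    induction hA with
    | refl => exact ⟨[∅], by simp, by simp, by simp, by simp [h0]⟩
    | @tail B C hB hBC ih =>
      obtain ⟨l, h1, h2, h3, h4⟩ := ih
      refine ⟨l ++ [C], ?_, by simp, ?_, ?_⟩
      · cases l with
        | nil => simp at h1
        | cons x xs => simpa using h1
      · rw [List.isChain_append]
        refine ⟨h3, by simp, ?_⟩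
        intro x hx y hy
        rw [h2] at hx
        simp only [Option.mem_def, Option.some.injEq, List.head?_cons] at hx hy
        subst hx; subst hy
        rcases hBC.2.2 with ⟨v, hv, hE⟩ | ⟨v, hv, hE⟩
        · rw [hE]
          calc (insert v B \ B).card ≤ ({v} : Finset V).card := card_le_card (by
                intro x; simp only [mem_sdiff, mem_insert, mem_singleton]; tauto)
            _ = 1 := by simp
        · rw [hE]
          have : C \ insert v C = ∅ := by ext x; simp; tauto
          rw [this]; simp
      · intro D hD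
        rw [List.mem_append] at hD
        rcases hD with hD | hD
        · exact h4 D hD
        · simp at hD; subst hD; exact hBC.2.1
  obtain ⟨l, h1, h2, h3, h4⟩ := key _ h
  exact ⟨l, h1, h2, h3, h4⟩

/-- minimal crusades are monotone -/
lemma exists_mono_crus {f : Finset V → ℕ} (hf : SymSub f) {a : ℕ} (h : ∃ l, Crus f a l) :
    ∃ l, Crus f a l ∧ l.IsChain (fun A B => A ⊆ B ∧ (B \ A).card = 1) := by
  classical
  let c1 : List (Finset V) → ℕ := fun l => (l.map (fun A => f A + 1)).sum
  let c2 : List (Finset V) → ℕ := fun l => (l.map (fun A => A.card)).sum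
  have hwf : WellFounded (fun l l' : List (Finset V) =>
      Prod.Lex (· < ·) (· < ·) (c1 l, c2 l) (c1 l', c2 l')) :=
    InvImage.wf (fun l => (c1 l, c2 l)) (WellFounded.prod_lex wellFounded_lt wellFounded_lt)
  obtain ⟨l, hl, hmin⟩ := hwf.has_min {l | Crus f a l} h
  refine ⟨l, hl, ?_⟩
  have hmin' : ∀ l', Crus f a l' → ¬ (c1 l' < c1 l ∨ (c1 l' = c1 l ∧ c2 l' < c2 l)) := by
    intro l' hl' hlt
    refine hmin l' hl' ?_
    rcases hlt with h1 | ⟨h1, h2⟩
    · exact Prod.Lex.left _ _ h1
    · show Prod.Lex (· < ·) (· < ·) (c1 l', c2 l') (c1 l, c2 l)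
      rw [h1]
      exact Prod.Lex.right _ h2
  rw [List.isChain_iff_forall_rel_of_append_cons_cons]
  intro A B l1 l2 hsplit
  have hch := hl.chn
  rw [hsplit] at hch
  have hAB : (B \ A).card ≤ 1 := by
    rw [List.isChain_append] at hch
    have := hch.2.1
    rw [List.isChain_cons_cons] at this
    exact this.1
  have hfA : f A ≤ a := hl.le A (by rw [hsplit]; simp)
  have hfB : f B ≤ a := hl.le B (by rw [hsplit]; simp)
  have hchl1 : l1.IsChain (fun A B : Finset V => (B \ A).card ≤ 1) := (List.isChain_append.1 hch).1
  have hchl2 : (B :: l2).IsChain (fun A B : Finset V => (B \ A).card ≤ 1) := by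
    have := (List.isChain_append.1 hch).2.1
    rw [List.isChain_cons_cons] at this
    exact this.2
  have hconn : ∀ x ∈ l1.getLast?, (A \ x).card ≤ 1 := by
    have := (List.isChain_append.1 hch).2.2
    intro x hx
    exact this x hx A (by simp)
  have hhead2 : ∀ y ∈ l2.head?, (y \ B).card ≤ 1 := by
    intro y hy
    cases l2 with
    | nil => simp at hy
    | cons z zs =>
      simp only [List.head?_cons, Option.mem_def, Option.some.injEq] at hy
      subst hy
      rw [List.isChain_cons_cons] at hchl2
      exact hchl2.1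
  have hchl2' : l2.IsChain (fun A B : Finset V => (B \ A).card ≤ 1) := by
    cases l2 with
    | nil => simp
    | cons z zs => rw [List.isChain_cons_cons] at hchl2; exact hchl2.2
  have hhdl : ∀ (X : Finset V) (t : List (Finset V)), (l1 = [] → X = ∅) →
      (l1 ++ X :: t).head? = some ∅ := by
    intro X t hX
    have hh := hl.hd
    rw [hsplit] at hh
    cases l1 with
    | nil => simp [hX rfl]
    | cons z zs => simpa using hh
  have hAempty : l1 = [] → A = ∅ := by
    intro h1
    have hh := hl.hd
    rw [hsplit, h1] at hh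
    simpa using hh
  have hlast : l2 = [] → B = univ := by
    intro h1
    have hh := hl.lst
    rw [hsplit, h1] at hh
    simpa using hh
  have hlast2 : ∀ (X : Finset V) (t : List (Finset V)), (l2 = [] → X = univ) →
      (t ++ X :: l2).getLast? = some univ := by
    intro X t hX
    have hh := hl.lst
    rw [hsplit] at hh
    rcases List.eq_nil_or_concat l2 with h2 | ⟨L, b, h2⟩
    · rw [h2]; simp [hX h2]
    · have e : ∀ (t : List (Finset V)) (X : Finset V),
          (t ++ X :: (L ++ [b])).getLast? = some b := by
        intro t X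
        have e1 : t ++ X :: (L ++ [b]) = (t ++ X :: L) ++ [b] := by simp
        rw [e1, List.getLast?_concat]
      rw [h2] at hh ⊢
      rw [List.concat_eq_append] at hh ⊢
      rw [show l1 ++ A :: B :: (L ++ [b]) = (l1 ++ [A]) ++ B :: (L ++ [b]) by simp, e] at hh
      rw [e, hh]
  -- (b)
  have hb : f B ≤ f (A ∪ B) := by
    by_contra hcon
    push Not at hcon
    have hC : Crus f a (l1 ++ A :: (A ∪ B) :: l2) := by
      refine ⟨hhdl A _ hAempty, ?_, ?_, ?_⟩
      · have := hlast2 (A ∪ B) (l1 ++ [A]) (by intro h2; rw [hlast h2]; simp)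
        simpa using this
      · rw [List.isChain_append]
        refine ⟨hchl1, ?_, ?_⟩
        · rw [List.isChain_cons_cons]
          refine ⟨?_, ?_⟩
          · rw [Finset.union_sdiff_left]; exact hAB
          · rw [List.isChain_cons]
            refine ⟨?_, hchl2'⟩
            intro y hy
            exact (card_le_card (sdiff_subset_sdiff (subset_refl _) subset_union_right)).trans
              (hhead2 y hy)
        · intro x hx y hy
          simp only [List.head?_cons, Option.mem_def, Option.some.injEq] at hy
          subst hy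
          exact hconn x hx
      · intro X hX
        simp only [List.mem_append, List.mem_cons] at hX
        rcases hX with hX | hX | hX | hX
        · exact hl.le X (by rw [hsplit]; simp [hX])
        · rw [hX]; exact hfA
        · rw [hX]; omega
        · exact hl.le X (by rw [hsplit]; simp [hX])
    refine hmin' _ hC (Or.inl ?_)
    rw [hsplit]
    simp only [c1, List.map_append, List.map_cons, List.sum_append, List.sum_cons]
    omega
  -- (c)
  have hsubm := hf.sub A B
  have hcA : f (A ∩ B) ≤ f A := by omega
  have hsubset : A ⊆ B := by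
    by_contra hcon
    have hlt : (A ∩ B).card < A.card := by
      apply card_lt_card
      refine ⟨inter_subset_left, ?_⟩
      intro h1
      exact hcon (fun x hx => (mem_inter.1 (h1 hx)).2)
    have hC : Crus f a (l1 ++ (A ∩ B) :: B :: l2) := by
      refine ⟨hhdl _ _ (by intro h1; rw [hAempty h1]; simp), ?_, ?_, ?_⟩
      · have := hlast2 B (l1 ++ [A ∩ B]) hlast
        simpa using this
      · rw [List.isChain_append]
        refine ⟨hchl1, ?_, ?_⟩
        · rw [List.isChain_cons_cons]
          refine ⟨?_, hchl2⟩
          have : B \ (A ∩ B) = B \ A := by ext x; simp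
          rw [this]; exact hAB
        · intro x hx y hy
          simp only [List.head?_cons, Option.mem_def, Option.some.injEq] at hy
          subst hy
          exact (card_le_card (sdiff_subset_sdiff inter_subset_left (subset_refl _))).trans
            (hconn x hx)
      · intro X hX
        simp only [List.mem_append, List.mem_cons] at hX
        rcases hX with hX | hX | hX | hX
        · exact hl.le X (by rw [hsplit]; simp [hX])
        · rw [hX]; omega
        · rw [hX]; exact hfB
        · exact hl.le X (by rw [hsplit]; simp [hX])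
    refine hmin' _ hC ?_
    rw [hsplit]
    simp only [c1, c2, List.map_append, List.map_cons, List.sum_append, List.sum_cons]
    omega
  refine ⟨hsubset, ?_⟩
  -- (a)
  by_contra hcard
  have h0 : (B \ A).card = 0 := by omega
  have hBA : B ⊆ A := by
    rw [card_eq_zero, sdiff_eq_empty_iff_subset] at h0
    exact h0
  have hEq : A = B := Subset.antisymm hsubset hBA
  have hC : Crus f a (l1 ++ A :: l2) := by
    refine ⟨hhdl A _ hAempty, hlast2 A l1 (by intro h2; rw [hEq]; exact hlast h2), ?_, ?_⟩
    · rw [List.isChain_append]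
      refine ⟨hchl1, ?_, ?_⟩
      · rw [hEq]; exact hchl2
      · intro x hx y hy
        simp only [List.head?_cons, Option.mem_def, Option.some.injEq] at hy
        subst hy
        exact hconn x hx
    · intro X hX
      simp only [List.mem_append, List.mem_cons] at hX
      rcases hX with hX | hX | hX
      · exact hl.le X (by rw [hsplit]; simp [hX])
      · rw [hX]; exact hfA
      · exact hl.le X (by rw [hsplit]; simp [hX])
  refine hmin' _ hC (Or.inl ?_)
  rw [hsplit]
  simp only [c1, List.map_append, List.map_cons, List.sum_append, List.sum_cons]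
  omega

lemma list_of_chain (l : List (Finset V)) : ∀ (C : Finset V), (C :: l).IsChain
    (fun A B => A ⊆ B ∧ (B \ A).card = 1) → ∃ vs : List V, vs.Nodup ∧ (∀ v ∈ vs, v ∉ C) ∧
      some (C ∪ vs.toFinset) = (C :: l).getLast? ∧
      ∀ k, C ∪ (vs.take k).toFinset ∈ C :: l := by
  classical
  induction l with
  | nil =>
    intro C _
    exact ⟨[], by simp, by simp, by simp, by simp⟩
  | cons D l ih =>
    intro C h
    rw [List.isChain_cons_cons] at h
    obtain ⟨⟨h1, h2⟩, h3⟩ := h
    obtain ⟨vs, v1, v2, v3, v4⟩ := ih D h3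
    obtain ⟨w, hw⟩ := card_eq_one.1 h2
    have hwD : w ∈ D \ C := by rw [hw]; simp
    rw [mem_sdiff] at hwD
    have hD : D = insert w C := by
      ext x
      simp only [mem_insert]
      constructor
      · intro hx
        by_cases hxC : x ∈ C
        · exact Or.inr hxC
        · left
          have : x ∈ D \ C := mem_sdiff.2 ⟨hx, hxC⟩
          rw [hw] at this; simpa using this
      · rintro (rfl | hx)
        · exact hwD.1
        · exact h1 hx
    refine ⟨w :: vs, ?_, ?_, ?_, ?_⟩
    · rw [List.nodup_cons]
      exact ⟨fun hm => v2 w hm hwD.1, v1⟩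
    · intro v hv
      rcases List.mem_cons.1 hv with rfl | hv
      · exact hwD.2
      · exact fun hC => v2 v hv (h1 hC)
    · rw [List.getLast?_cons_cons, ← v3, hD]
      congr 1
      ext x; simp
    · intro k
      cases k with
      | zero => simp
      | succ k =>
        have := v4 k
        rw [List.mem_cons]
        right
        rw [List.take_succ_cons, List.toFinset_cons]
        have e : C ∪ insert w (vs.take k).toFinset = D ∪ (vs.take k).toFinset := by
          rw [hD]; ext x; simp
        rw [e]; exact this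

/-- second uncrossing: `¬ Wid f a` means that no set of value `≤ a` is connected to its complement. -/
theorem not_conn_of_not_wid {f : Finset V → ℕ} (hf : SymSub f) {a : ℕ} (hw : ¬ Wid f a)
    {A : Finset V} (hA : f A ≤ a) : ¬ Conn f a A Aᶜ := by
  intro h
  apply hw
  obtain ⟨h1, h0⟩ := conn_empty_univ hf hA h
  obtain ⟨l, hl, hm⟩ := exists_mono_crus hf (exists_crus h0 h1)
  cases l with
  | nil => have := hl.hd; simp at this
  | cons C l =>
    have hC : C = ∅ := by have := hl.hd; simpa using this
    subst hC
    obtain ⟨vs, v1, _, v3, v4⟩ := list_of_chain l ∅ hm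
    refine ⟨vs, v1, ?_, ?_⟩
    · rw [hl.lst] at v3
      simp only [Option.some.injEq, empty_union] at v3
      intro v
      rw [← List.mem_toFinset, v3]; simp
    · intro k
      have := hl.le _ (v4 k)
      simpa using this

/-- an odd labelling, constant along flips, for functions of large width -/
theorem exists_label {f : Finset V → ℕ} (hf : SymSub f) {a : ℕ} (hw : ¬ Wid f a) :
    ∃ h : Finset V → Bool, (∀ A, f A ≤ a → h Aᶜ = !(h A)) ∧
      ∀ A v, v ∉ A → f A ≤ a → f (insert v A) ≤ a → h A = h (insert v A) := by
  classical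
  let enc : Finset V ≃ Fin (Fintype.card (Finset V)) := Fintype.equivFin _
  let M : Finset V → ℕ := fun A => sInf {n | ∃ B, Conn f a A B ∧ (enc B : ℕ) = n}
  have hM1 : ∀ A B, Conn f a A B → M A = M B := by
    intro A B h
    have : {n | ∃ C, Conn f a A C ∧ (enc C : ℕ) = n} = {n | ∃ C, Conn f a B C ∧ (enc C : ℕ) = n} := by
      ext n
      constructor
      · rintro ⟨C, h1, h2⟩; exact ⟨C, h.symm.trans h1, h2⟩
      · rintro ⟨C, h1, h2⟩; exact ⟨C, h.trans h1, h2⟩
    show sInf _ = sInf _
    rw [this]
  have hM2 : ∀ A B, M A = M B → Conn f a A B := by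
    intro A B h
    have hA : M A ∈ {n | ∃ C, Conn f a A C ∧ (enc C : ℕ) = n} :=
      Nat.sInf_mem ⟨enc A, A, Relation.ReflTransGen.refl, rfl⟩
    have hB : M B ∈ {n | ∃ C, Conn f a B C ∧ (enc C : ℕ) = n} :=
      Nat.sInf_mem ⟨enc B, B, Relation.ReflTransGen.refl, rfl⟩
    obtain ⟨C, c1, c2⟩ := hA
    obtain ⟨D, d1, d2⟩ := hB
    have : C = D := by
      apply enc.injective
      apply Fin.ext
      rw [c2, d2, h]
    subst this
    exact c1.trans d1.symm
  refine ⟨fun A => decide (M A < M Aᶜ), ?_, ?_⟩
  · intro A hA
    have hne : M A ≠ M Aᶜ := fun h => not_conn_of_not_wid hf hw hA (hM2 _ _ h)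
    simp only [compl_compl]
    rcases lt_or_gt_of_ne hne with h | h
    · simp [h, h.le]
    · simp [h, h.le]
  · intro A v hv h1 h2
    have hfl : Flip f a A (insert v A) := ⟨h1, h2, Or.inl ⟨v, hv, rfl⟩⟩
    have e1 := hM1 _ _ (Relation.ReflTransGen.single hfl : Conn f a A (insert v A))
    have e2 := hM1 _ _ (Relation.ReflTransGen.single (hfl.compl hf) : Conn f a Aᶜ (insert v A)ᶜ)
    show decide (M A < M Aᶜ) = decide (M (insert v A) < M (insert v A)ᶜ)
    rw [e1, e2]

end Pool.Agent.H66.GG
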